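import Pool.Agent.Lib.MP_595dad_co.NR.SpecC

set_option autoImplicit false
set_option linter.unusedSectionVars false

namespace Pool.Agent.Lib.MP595dad.NR

open Finset
open scoped Classical

universe u

namespace AVGM

theorem markov {α : Type u} (F : Finset α) (w : α → ℝ) (hw : ∀ x ∈ F, 0 ≤ w x) (D b : ℝ)
    (hD : 0 ≤ D) (hb : 0 < b) (h : ∑ x ∈ F, w x ≤ b * D) :
    4 * (#{x ∈ F | 4 * D < w x} : ℝ) < b := by
  rcases (F.filter (fun x => 4 * D < w x)).eq_empty_or_nonempty with h0 | h0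
  · rw [h0]
    simpa using hb
  · have h1 : ∑ x ∈ F.filter (fun x => 4 * D < w x), 4 * D <
        ∑ x ∈ F.filter (fun x => 4 * D < w x), w x :=
      sum_lt_sum_of_nonempty h0 (fun x hx => (mem_filter.mp hx).2)
    have h2 : ∑ x ∈ F.filter (fun x => 4 * D < w x), w x ≤ ∑ x ∈ F, w x :=
      sum_le_sum_of_subset_of_nonneg (filter_subset _ _) (fun x hx _ => hw x hx)
    rw [sum_const, nsmul_eq_mul] at h1
    have h3 : (#{x ∈ F | 4 * D < w x} : ℝ) * (4 * D) < b * D := lt_of_lt_of_le h1 (h2.trans h)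
    rcases hD.eq_or_lt with h4 | h4
    · rw [← h4] at h3
      simp at h3
    · have h5 : (4 * (#{x ∈ F | 4 * D < w x} : ℝ)) * D < b * D := by linarith
      exact lt_of_mul_lt_mul_right h5 h4.le

variable {P L : Type u} [Fintype P] [Fintype L]

theorem DQ_eq (I : P → L → Prop) (V : P) (a : L) :
    DQ I V a = ∑ A : P, ∑ A' : P, uu I V a A A' := by
  simp only [DQ, uu, card_filter, Fintype.sum_prod_type]

theorem uu_eq (I : P → L → Prop) (V : P) (a : L) (A A' : P) :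
    uu I V a A A' = ∑ B : P, gg I V a A A' B := by
  simp only [uu, gg, card_filter, Fintype.sum_prod_type]

end AVGM

theorem specAVG (hPEX : SpecPEX.{u}) (hFIB : SpecFIB.{u}) : SpecAVG.{u} := by
  intro P L _ _ I q hI V a
  obtain ⟨hp1, hp2, hp3⟩ := hPEX P L I q hI V a
  obtain ⟨hn, h, hh, hfib⟩ := hFIB P L I q hI V a
  have hq2 := hI.two
  have hq : (2 : ℝ) ≤ q := by exact_mod_cast hq2
  set D : ℝ := (DQ I V a : ℝ) with hD
  have hD0 : 0 ≤ D := Nat.cast_nonneg _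
  have hb : (0 : ℝ) < (q : ℝ) - 1 := by linarith
  have ha1 : (0 : ℝ) < (q : ℝ) ^ 2 - 1 := by nlinarith
  have hDQ : D = ∑ A : P, ∑ A' : P, (uu I V a A A' : ℝ) := by
    rw [hD, AVGM.DQ_eq]
    push_cast
    rfl
  have hn' : (q : ℝ) ^ 2 - 1 ≤ (#{x : P | Reg I V a x} : ℝ) := by
    have h1 : q ^ 2 ≤ #{x : P | Reg I V a x} + 1 := by omega
    have h2 : ((q ^ 2 : ℕ) : ℝ) ≤ ((#{x : P | Reg I V a x} + 1 : ℕ) : ℝ) := by exact_mod_cast h1
    push_cast at h2
    linarith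
  -- the point `A`
  obtain ⟨A, hA, hAle⟩ : ∃ A, Reg I V a A ∧
      ((q : ℝ) ^ 2 - 1) * ∑ A' : P, (uu I V a A A' : ℝ) ≤ D := by
    by_contra hcon
    push Not at hcon
    have hne : ({x : P | Reg I V a x} : Finset P).Nonempty := by
      rw [← card_pos]
      have h4 : 2 * 2 ≤ q * q := Nat.mul_le_mul hq2 hq2
      have h5 : q ^ 2 = q * q := sq q
      omega
    have h1 : ∑ A ∈ ({x : P | Reg I V a x} : Finset P), D <
        ∑ A ∈ ({x : P | Reg I V a x} : Finset P),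
          ((q : ℝ) ^ 2 - 1) * ∑ A' : P, (uu I V a A A' : ℝ) :=
      sum_lt_sum_of_nonempty hne (fun A hA => hcon A (by simpa using hA))
    rw [sum_const, nsmul_eq_mul, ← mul_sum] at h1
    have h2 : ∑ A ∈ ({x : P | Reg I V a x} : Finset P), ∑ A' : P, (uu I V a A A' : ℝ) ≤ D := by
      rw [hDQ]
      exact sum_le_sum_of_subset_of_nonneg (subset_univ _)
        (fun _ _ _ => sum_nonneg fun _ _ => Nat.cast_nonneg _)
    have h3 := mul_le_mul_of_nonneg_left h2 ha1.le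
    have h4 := mul_le_mul_of_nonneg_right hn' hD0
    linarith
  obtain ⟨hfA, hnA⟩ := hfib A hA
  set F : Finset P := {x : P | Reg I V a x ∧ Col I V A x} with hF
  set NB : Finset P := {x : P | Reg I V a x ∧ ¬ Col I V A x} with hNB
  -- the function `v`
  set v : P → ℝ := fun A' => ∑ B ∈ NB, (uu I V a B (pm I V a A A' B) : ℝ) with hv
  have hvD : ∑ A' ∈ F, v A' ≤ D := by
    rw [hv, sum_comm, hDQ]
    refine (sum_le_sum (fun B hB => ?_)).trans
      (sum_le_sum_of_subset_of_nonneg (subset_univ NB)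
        (fun B _ _ => sum_nonneg fun B' _ => Nat.cast_nonneg (uu I V a B B')))
    have hB' : Reg I V a B ∧ ¬ Col I V A B := by simpa [hNB] using hB
    have hinj : Set.InjOn (fun A' => pm I V a A A' B) (F : Set P) := by
      intro A₁ hA₁ A₂ hA₂ heq
      have e1 : Reg I V a A₁ ∧ Col I V A A₁ := by simpa [hF] using hA₁
      have e2 : Reg I V a A₂ ∧ Col I V A A₂ := by simpa [hF] using hA₂
      have t1 := hp1 A A₁ B hA e1.1 hB'.1 e1.2 hB'.2
      have t2 := hp1 A A₂ B hA e2.1 hB'.1 e2.2 hB'.2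
      have heq' : pm I V a A A₁ B = pm I V a A A₂ B := heq
      rw [← heq'] at t2
      exact hp2 B (pm I V a A A₁ B) A A₁ A₂ (hp3 _ _ _ _ t1).2 (hp3 _ _ _ _ t2).2
    rw [← sum_image (f := fun B' => (uu I V a B B' : ℝ)) hinj]
    exact sum_le_sum_of_subset_of_nonneg (subset_univ _) (fun _ _ _ => Nat.cast_nonneg _)
  -- the exceptional sets
  set w1 : P → ℝ := fun A' => ((q : ℝ) ^ 2 - 1) * (q - 1) * (uu I V a A A' : ℝ) with hw1
  set w2 : P → ℝ := fun A' => ((q : ℝ) - 1) * v A' with hw2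
  have hv0 : ∀ A', 0 ≤ v A' := fun A' => sum_nonneg fun _ _ => Nat.cast_nonneg _
  have hm1 : 4 * (#{x ∈ F | 4 * D < w1 x} : ℝ) < (q : ℝ) - 1 := by
    refine AVGM.markov F w1 (fun x _ => ?_) D _ hD0 hb ?_
    · exact mul_nonneg (mul_nonneg ha1.le hb.le) (Nat.cast_nonneg _)
    · have h1 : ∑ x ∈ F, (uu I V a A x : ℝ) ≤ ∑ x : P, (uu I V a A x : ℝ) :=
        sum_le_sum_of_subset_of_nonneg (subset_univ _) (fun _ _ _ => Nat.cast_nonneg _)
      rw [hw1, ← mul_sum]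
      calc ((q : ℝ) ^ 2 - 1) * (q - 1) * ∑ x ∈ F, (uu I V a A x : ℝ)
          ≤ ((q : ℝ) ^ 2 - 1) * (q - 1) * ∑ x : P, (uu I V a A x : ℝ) :=
            mul_le_mul_of_nonneg_left h1 (mul_nonneg ha1.le hb.le)
        _ = ((q : ℝ) - 1) * (((q : ℝ) ^ 2 - 1) * ∑ x : P, (uu I V a A x : ℝ)) := by ring
        _ ≤ ((q : ℝ) - 1) * D := mul_le_mul_of_nonneg_left hAle hb.le
  have hm2 : 4 * (#{x ∈ F | 4 * D < w2 x} : ℝ) < (q : ℝ) - 1 := by
    refine AVGM.markov F w2 (fun x _ => mul_nonneg hb.le (hv0 x)) D _ hD0 hb ?_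
    rw [hw2, ← mul_sum]
    exact mul_le_mul_of_nonneg_left hvD hb.le
  have hn1 : 4 * #{x ∈ F | 4 * D < w1 x} + 2 ≤ q := by
    have h1 : ((4 * #{x ∈ F | 4 * D < w1 x} + 1 : ℕ) : ℝ) < (q : ℝ) := by push_cast; linarith
    have h2 : 4 * #{x ∈ F | 4 * D < w1 x} + 1 < q := by exact_mod_cast h1
    omega
  have hn2 : 4 * #{x ∈ F | 4 * D < w2 x} + 2 ≤ q := by
    have h1 : ((4 * #{x ∈ F | 4 * D < w2 x} + 1 : ℕ) : ℝ) < (q : ℝ) := by push_cast; linarith
    have h2 : 4 * #{x ∈ F | 4 * D < w2 x} + 1 < q := by exact_mod_cast h1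
    omega
  refine ⟨A, F.filter (fun x => w1 x ≤ 4 * D ∧ w2 x ≤ 4 * D), hA, ?_, ?_⟩
  · have hsub : F ⊆ (F.filter (fun x => w1 x ≤ 4 * D ∧ w2 x ≤ 4 * D)) ∪
        ((F.filter (fun x => 4 * D < w1 x)) ∪ (F.filter (fun x => 4 * D < w2 x))) := by
      intro x hx
      simp only [mem_union, mem_filter]
      by_cases e1 : w1 x ≤ 4 * D
      · by_cases e2 : w2 x ≤ 4 * D
        · exact Or.inl ⟨hx, e1, e2⟩
        · exact Or.inr (Or.inr ⟨hx, not_le.mp e2⟩)
      · exact Or.inr (Or.inl ⟨hx, not_le.mp e1⟩)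
    have c1 := card_le_card hsub
    have c2 := card_union_le (F.filter (fun x => w1 x ≤ 4 * D ∧ w2 x ≤ 4 * D))
      ((F.filter (fun x => 4 * D < w1 x)) ∪ (F.filter (fun x => 4 * D < w2 x)))
    have c3 := card_union_le (F.filter (fun x => 4 * D < w1 x)) (F.filter (fun x => 4 * D < w2 x))
    show #F < 2 * _
    rcases hh with hh | hh <;> omega
  · intro A' hA'
    obtain ⟨hA'F, hA'1, hA'2⟩ := mem_filter.mp hA'
    have e1 : Reg I V a A' ∧ Col I V A A' := by simpa [hF] using hA'F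
    refine ⟨e1.1, e1.2, ?_⟩
    have hNBne : NB.Nonempty := by
      rw [← card_pos, hnA]
      exact Nat.mul_pos (by omega) (by omega)
    obtain ⟨B, hB, hmin⟩ := exists_min_image NB
      (fun B => (q : ℝ) * gg I V a A A' B + uu I V a B (pm I V a A A' B)) hNBne
    have hB' : Reg I V a B ∧ ¬ Col I V A B := by simpa [hNB] using hB
    refine ⟨B, hB'.1, hB'.2, hA'1, ?_⟩
    set X : ℝ := (q : ℝ) * gg I V a A A' B + uu I V a B (pm I V a A A' B) with hX
    have h1 : (#NB : ℝ) * X ≤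
        ∑ B ∈ NB, ((q : ℝ) * gg I V a A A' B + uu I V a B (pm I V a A A' B)) := by
      rw [← nsmul_eq_mul]
      exact card_nsmul_le_sum _ _ _ (fun B' hB' => hmin B' hB')
    rw [sum_add_distrib, ← mul_sum] at h1
    have h2 : ∑ B ∈ NB, (gg I V a A A' B : ℝ) ≤ (uu I V a A A' : ℝ) := by
      rw [AVGM.uu_eq]
      push_cast
      exact sum_le_sum_of_subset_of_nonneg (subset_univ _) (fun _ _ _ => Nat.cast_nonneg _)
    have h3 : (#NB : ℝ) = q * ((q : ℝ) - 1) := by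
      rw [hnA, Nat.cast_mul, Nat.cast_sub (by omega), Nat.cast_one]
    rw [h3] at h1
    have hq0 : (0 : ℝ) ≤ q := by linarith
    have h4 : (q : ℝ) * (q - 1) * X ≤ q * uu I V a A A' + v A' := by
      have := mul_le_mul_of_nonneg_left h2 hq0
      have h5 : ∑ B ∈ NB, (uu I V a B (pm I V a A A' B) : ℝ) = v A' := rfl
      rw [h5] at h1
      linarith
    have h5 : ((q : ℝ) ^ 2 - 1) * (q - 1) * uu I V a A A' ≤ 4 * D := hA'1
    have h6 : ((q : ℝ) - 1) * v A' ≤ 4 * D := hA'2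
    have h7 := mul_le_mul_of_nonneg_left h4 (mul_nonneg ha1.le hb.le)
    have h8 := mul_le_mul_of_nonneg_left h5 hq0
    have h9 := mul_le_mul_of_nonneg_left h6 ha1.le
    calc (q : ℝ) * (q - 1) * (((q : ℝ) ^ 2 - 1) * (q - 1)) * X
        = ((q : ℝ) ^ 2 - 1) * (q - 1) * (q * (q - 1) * X) := by ring
      _ ≤ ((q : ℝ) ^ 2 - 1) * (q - 1) * (q * uu I V a A A' + v A') := h7
      _ = q * (((q : ℝ) ^ 2 - 1) * (q - 1) * uu I V a A A') +
          ((q : ℝ) ^ 2 - 1) * ((q - 1) * v A') := by ring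
      _ ≤ q * (4 * D) + ((q : ℝ) ^ 2 - 1) * (4 * D) := by linarith
      _ = 4 * D * ((q : ℝ) ^ 2 + q - 1) := by ring

end Pool.Agent.Lib.MP595dad.NR
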