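import Pool.Agent.Lib.MP_595dad_co.NR.SpecA

/-! # BP: main theorem of part A (helper4) -/

set_option autoImplicit false

namespace Pool.Agent.Lib.MP595dad.NR

open Finset
open scoped Classical

universe u

namespace BPM

theorem arith {q b β F : ℕ} (hq : 2 ≤ q) (h1 : (q + 1) * β ≤ 4 * F) (h2 : (q + 1) * b ≤ 10 * F)
    (h3 : 32 * F ≤ q ^ 2 + q + 1) : b + β + 2 ≤ q + 1 ∧ 2 * b + 2 ≤ q + 1 ∧ b < q := by
  have hQ : q ^ 2 + q + 1 ≤ (q + 1) * (q + 1) := by nlinarith
  have e1 : 32 * β ≤ 4 * (q + 1) := by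
    have : (q + 1) * (32 * β) ≤ (q + 1) * (4 * (q + 1)) := by
      calc (q + 1) * (32 * β) = 32 * ((q + 1) * β) := by ring
        _ ≤ 32 * (4 * F) := Nat.mul_le_mul_left _ h1
        _ = 4 * (32 * F) := by ring
        _ ≤ 4 * ((q + 1) * (q + 1)) := Nat.mul_le_mul_left _ (h3.trans hQ)
        _ = (q + 1) * (4 * (q + 1)) := by ring
    exact Nat.le_of_mul_le_mul_left this (by omega)
  have e2 : 32 * b ≤ 10 * (q + 1) := by
    have : (q + 1) * (32 * b) ≤ (q + 1) * (10 * (q + 1)) := by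
      calc (q + 1) * (32 * b) = 32 * ((q + 1) * b) := by ring
        _ ≤ 32 * (10 * F) := Nat.mul_le_mul_left _ h2
        _ = 10 * (32 * F) := by ring
        _ ≤ 10 * ((q + 1) * (q + 1)) := Nat.mul_le_mul_left _ (h3.trans hQ)
        _ = (q + 1) * (10 * (q + 1)) := by ring
    exact Nat.le_of_mul_le_mul_left this (by omega)
  rcases Nat.eq_zero_or_pos F with hF | hF
  · subst hF
    have hb : b = 0 := by simpa using h2
    have hβ : β = 0 := by simpa using h1
    subst hb hβ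
    omega
  · have hq6 : 6 ≤ q := by
      by_contra hlt
      push Not at hlt
      have : q ≤ 5 := by omega
      have h4 : q ^ 2 ≤ 5 ^ 2 := Nat.pow_le_pow_left this 2
      omega
    omega

end BPM

open BPM in
theorem specBP (hINJ : SpecINJ.{u}) (hCNT : SpecCNT.{u}) (hFWD : SpecFWD.{u}) (hBWD : SpecBWD.{u})
    (hLIN : SpecLIN.{u}) (hPNT : SpecPNT.{u}) : SpecBP.{u} := by
  intro P L M _ _ _ I J q hI hJ f hF
  obtain ⟨c1, c2⟩ := hCNT P L M I J q hI hJ f
  have c3 : (q + 1) * #(badP I J f q) ≤ 10 * FF I J f := by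
    have := c2 2
    unfold badP
    linarith
  obtain ⟨a1, a2, a3⟩ := arith hI.two c1 c3 hF
  have hG : #{l : L | l ∉ ({l : L | l ∉ badL I J f q} : Finset L)} = #(badL I J f q) := by
    congr 1
    ext l
    simp
  obtain ⟨τ, hτ1, hτ2⟩ := hLIN P L M I J q hI hJ f (badP I J f q) ({l : L | l ∉ badL I J f q}) (by
      intro l hl m hm h
      exact hINJ P L M I J q hI hJ f l m (by simpa using hl) (by simpa using hm) h) (by
      intro x hx l hl
      have hl' : l ∉ badL I J f q := by simpa using hl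
      exact ⟨hFWD P L M I J q hI hJ f hF x l hx hl', hBWD P L M I J q hI hJ f hF x l hx hl'⟩)
    (by rw [hG]; exact a1) a2
  obtain ⟨g, hg1, hg2⟩ := hPNT P L M I J q hI hJ τ (badP I J f q) a3 hτ2
  exact ⟨g, τ, hg2, hg1, fun l hl => hτ1 l (by simpa using hl)⟩

end Pool.Agent.Lib.MP595dad.NR
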