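import Pool.Agent.Lib.MP_595dad_co.NR.SpecB

/-!
# BW4: the converse for good points and good lines (from INJ)
-/

set_option autoImplicit false

namespace Pool.Agent.Lib.MP595dad.NR

open Finset
open scoped Classical

universe u

theorem specBW4 (hINJ : SpecINJ.{u}) : SpecBW4.{u} := by
  intro P L M _ _ _ I J q hI hJ f B G hG hB x l hx hrr hl hJl
  by_contra hxl
  obtain ⟨hl1, hl2⟩ := hG l hl
  rw [mem_badL, not_le] at hl1
  have hsplit := hI.split J f l
  -- the points
  set A : Finset P := {y : P | (I y l ∧ J y (f l)) ∧ y ∉ B} with hA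
  have hcard : #{y : P | I y l ∧ J y (f l)} ≤ #A + ss I B l := by
    have h1 : #{y : P | (I y l ∧ J y (f l)) ∧ y ∉ B} + #{y : P | (I y l ∧ J y (f l)) ∧ ¬ y ∉ B} =
        #{y : P | I y l ∧ J y (f l)} := by
      rw [← filter_filter (fun y => I y l ∧ J y (f l)) (fun y => y ∉ B),
        ← filter_filter (fun y => I y l ∧ J y (f l)) (fun y => ¬ y ∉ B)]
      exact card_filter_add_card_filter_not (fun y => y ∉ B)
    rw [← hA] at h1
    have h2 : #{y : P | (I y l ∧ J y (f l)) ∧ ¬ y ∉ B} ≤ ss I B l := by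
      unfold ss
      apply card_le_card
      intro y hy
      rw [mem_filter] at hy ⊢
      exact ⟨not_not.1 hy.2.2, hy.2.1.1⟩
    omega
  have hA2 : q + 1 < 2 * #A := by omega
  -- the lines
  have hex : ∀ y : P, ∃ k : L, y ∈ A → I x k ∧ I y k := by
    intro y
    by_cases hy : y ∈ A
    · have h1 := (mem_filter.1 hy).2.1.1
      obtain ⟨k, hk⟩ := hI.join x y (fun h => hxl (h ▸ h1))
      exact ⟨k, fun _ => hk⟩
    · exact ⟨l, fun h => absurd h hy⟩
  choose K hK using hex
  have hK1 : ∀ y ∈ A, I x (K y) := fun y hy => (hK y hy).1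
  have hK2 : ∀ y ∈ A, I y (K y) := fun y hy => (hK y hy).2
  have hle : #A ≤ rr I {k : L | k ∉ G} x := by
    unfold rr
    refine card_le_card_of_injOn K ?_ ?_
    · intro y hy
      have hyA : y ∈ A := mem_coe.1 hy
      obtain ⟨⟨h1, h2⟩, h3⟩ := (mem_filter.1 hyA).2
      refine mem_coe.2 (mem_filter.2 ⟨mem_filter.2 ⟨mem_univ _, fun hKG => ?_⟩, hK1 y hyA⟩)
      have h4 := hB x hx (K y) hKG (hK1 y hyA)
      have h5 := hB y h3 (K y) hKG (hK2 y hyA)
      have hxy : x ≠ y := fun h => hxl (h ▸ h1)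
      have h6 : f (K y) = f l := hJ.line_eq hxy h4 h5 hJl h2
      have h7 := hINJ P L M I J q hI hJ f (K y) l (hG (K y) hKG).1 (hG l hl).1 h6
      exact hxl (h7 ▸ hK1 y hyA)
    · intro y hy z hz hyz
      have hyA : y ∈ A := mem_coe.1 hy
      have hzA : z ∈ A := mem_coe.1 hz
      have h1 := (mem_filter.1 hyA).2.1.1
      have h2 := (mem_filter.1 hzA).2.1.1
      by_contra hne
      have h3 : K y = l := hI.line_eq hne (hK2 y hyA) (by rw [hyz]; exact hK2 z hzA) h1 h2
      exact hxl (h3 ▸ hK1 y hyA)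
  omega

end Pool.Agent.Lib.MP595dad.NR
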