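import Pool.Agent.Lib.MP_595dad_co.NR.SpecA

/-!
# Module BWD (MP_595dad_co)
-/

set_option autoImplicit false

namespace Pool.Agent.Lib.MP595dad.NR

open Finset
open scoped Classical

universe u

theorem specBWD (hINJ : SpecINJ.{u}) (hCNT : SpecCNT.{u}) (hFWD : SpecFWD.{u}) : SpecBWD.{u} := by
  intro P L M _ _ _ I J q hI hJ f hF x N hx hN hJx
  by_contra hIx
  have h1 := hI.split J f N
  have hd : 4 * dd I J f N < q + 1 := by
    by_contra h
    push Not at h
    exact hN (mem_badL.2 h)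
  obtain ⟨A, hA⟩ : ∃ A : Finset P, A = univ.filter (fun y : P => I y N ∧ J y (f N)) := ⟨_, rfl⟩
  rw [← hA] at h1
  have hA' : ∀ y ∈ A, I y N ∧ J y (f N) := by
    intro y hy
    rw [hA] at hy
    simpa using hy
  have hne : ∀ y ∈ A, x ≠ y := by
    intro y hy h
    rw [h] at hIx
    exact hIx (hA' y hy).1
  have hK : ∀ y : P, ∃ K : L, y ∈ A → I x K ∧ I y K := by
    intro y
    by_cases hy : y ∈ A
    · obtain ⟨K, h2, h3⟩ := hI.join x y (hne y hy)
      exact ⟨K, fun _ => ⟨h2, h3⟩⟩
    · exact ⟨N, fun h => absurd h hy⟩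
  choose K hK using hK
  have hinj : ∀ y ∈ A, ∀ z ∈ A, K y = K z → y = z := by
    intro y hy z hz hyz
    by_contra hne'
    have h2 := (hK y hy).2
    have h3 : I z (K y) := by
      rw [hyz]
      exact (hK z hz).2
    have h4 : K y = N := hI.line_eq hne' h2 h3 (hA' y hy).1 (hA' z hz).1
    apply hIx
    rw [← h4]
    exact (hK y hy).1
  have hbad : ∀ y ∈ A, y ∉ badP I J f q → K y ∈ badL I J f q := by
    intro y hy hyb
    by_contra hKb
    have h2 := hFWD P L M I J q hI hJ f hF x (K y) hx hKb (hK y hy).1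
    have h3 := hFWD P L M I J q hI hJ f hF y (K y) hyb hKb (hK y hy).2
    have h4 : f (K y) = f N := hJ.line_eq (hne y hy) h2 h3 hJx (hA' y hy).2
    have h5 := hINJ P L M I J q hI hJ f (K y) N hKb hN h4
    apply hIx
    rw [← h5]
    exact (hK y hy).1
  have hcard : #A ≤ #(badP I J f q) + #(badL I J f q) := by
    rw [← card_filter_add_card_filter_not (s := A) (fun y => y ∈ badP I J f q)]
    refine Nat.add_le_add ?_ ?_
    · refine card_le_card fun y hy => (mem_filter.1 hy).2
    · refine card_le_card_of_injOn K ?_ ?_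
      · intro y hy
        have hy' := mem_filter.1 (mem_coe.1 hy)
        exact hbad y hy'.1 hy'.2
      · intro y hy z hz h
        exact hinj y (mem_filter.1 (mem_coe.1 hy)).1 z (mem_filter.1 (mem_coe.1 hz)).1 h
  obtain ⟨h2, h3⟩ := hCNT P L M I J q hI hJ f
  have h4 := h3 2
  have h5 : (q + 1) * #(badP I J f q) ≤ 5 * 2 * FF I J f := by
    unfold badP
    exact h4
  have h6 : 3 * (q + 1) < 4 * (#(badP I J f q) + #(badL I J f q)) := by omega
  have h7 : (q + 1) * (3 * (q + 1)) < (q + 1) * (4 * (#(badP I J f q) + #(badL I J f q))) :=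
    Nat.mul_lt_mul_of_pos_left h6 (by omega)
  have h8 : (q + 1) * (4 * (#(badP I J f q) + #(badL I J f q))) =
      4 * ((q + 1) * #(badP I J f q)) + 4 * ((q + 1) * #(badL I J f q)) := by ring
  have h9 : (q + 1) * (3 * (q + 1)) = 3 * q ^ 2 + 6 * q + 3 := by ring
  rw [h8, h9] at h7
  omega

end Pool.Agent.Lib.MP595dad.NR
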