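import Pool.Agent.Lib.MP_595dad_co.NR.SpecC

/-!
# MP_595dad_co: from Mathlib's projective planes to `Pln`
-/

set_option autoImplicit false
set_option linter.unusedSectionVars false

namespace Pool.Agent.Lib.MP595dad.NR

open Finset Configuration
open scoped Classical

universe u

/-- pulling a plane back along a bijection of the points -/
theorem Pln.pull {P P' L : Type u} [Fintype P] [Fintype P'] [Fintype L] {I : P' → L → Prop} {q : ℕ}
    (h : Pln I q) (g : P ≃ P') : Pln (fun x l => I (g x) l) q where
  two := h.two
  cardP := (Fintype.card_congr g).trans h.cardP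
  cardL := h.cardL
  size := by
    intro l
    rw [← h.size l]
    refine card_bij (fun x _ => g x) ?_ ?_ ?_
    · intro x hx
      simpa using hx
    · intro x _ y _ hxy
      exact g.injective hxy
    · intro y hy
      exact ⟨g.symm y, by simpa using hy, g.apply_symm_apply y⟩
  deg := fun x => h.deg (g x)
  join := fun x y hxy => h.join (g x) (g y) fun h1 => hxy (g.injective h1)
  meet := by
    intro l m hlm
    obtain ⟨x, h1, h2⟩ := h.meet l m hlm
    exact ⟨g.symm x, by simpa using h1, by simpa using h2⟩
  uniq := by
    intro x y l m h1 h2 h3 h4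
    rcases h.uniq (g x) (g y) l m h1 h2 h3 h4 with h5 | h5
    · exact Or.inl (g.injective h5)
    · exact Or.inr h5

/-- Mathlib's projective planes are planes in the sense of `Pln`. -/
theorem pln_of_projectivePlane (P L : Type u) [Membership P L] [ProjectivePlane P L] [Fintype P]
    [Fintype L] : Pln (fun (p : P) (l : L) => p ∈ l) (ProjectivePlane.order P L) where
  two := ProjectivePlane.one_lt_order P L
  cardP := ProjectivePlane.card_points P L
  cardL := ProjectivePlane.card_lines P L
  size := by
    intro l
    rw [← ProjectivePlane.pointCount_eq P l, pointCount, ← Fintype.card_subtype,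
      Nat.card_eq_fintype_card]
  deg := by
    intro x
    rw [← ProjectivePlane.lineCount_eq (L := L) x, lineCount, ← Fintype.card_subtype,
      Nat.card_eq_fintype_card]
  join := by
    intro x y hxy
    obtain ⟨l, h, -⟩ := HasLines.existsUnique_line P L x y hxy
    exact ⟨l, h⟩
  meet := by
    intro l m hlm
    obtain ⟨x, h, -⟩ := HasPoints.existsUnique_point P L l m hlm
    exact ⟨x, h⟩
  uniq := by
    intro x y l m h1 h2 h3 h4
    exact Nondegenerate.eq_or_eq h1 h2 h3 h4

/-- the number of lost flags as the number of pairs -/
theorem FF_eq_card {P L M : Type u} [Fintype P] [Fintype L] [Fintype M] (I : P → L → Prop)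
    (J : P → M → Prop) (f : L → M) :
    FF I J f = Nat.card {t : P × L // I t.1 t.2 ∧ ¬ J t.1 (f t.2)} := by
  rw [Nat.card_eq_fintype_card, Fintype.card_subtype, FF]
  simp only [dd, card_filter]
  rw [sum_comm, ← Fintype.sum_prod_type']

end Pool.Agent.Lib.MP595dad.NR
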