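import Pool.Agent.Lib.MP_595dad_co.NR.SpecA

/-!
# MP_595dad_co, module CNT: counting of the bad lines and bad points
-/

set_option autoImplicit false
set_option linter.unusedSectionVars false

namespace Pool.Agent.Lib.MP595dad.NR

open Finset
open scoped Classical

universe u

namespace CNTM

theorem bound {α : Type u} (s : Finset α) (T : Finset α) (hT : T ⊆ s) (g : α → ℕ) (Q : ℕ)
    (h : ∀ x ∈ T, Q ≤ g x) : Q * #T ≤ ∑ x ∈ s, g x := by
  calc Q * #T = ∑ _x ∈ T, Q := by rw [sum_const, smul_eq_mul, mul_comm]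
    _ ≤ ∑ x ∈ T, g x := sum_le_sum h
    _ ≤ ∑ x ∈ s, g x := sum_le_sum_of_subset hT

variable {P L M : Type u} [Fintype P] [Fintype L] [Fintype M]

theorem dl_le (I : P → L → Prop) (J : P → M → Prop) (f : L → M) (q : ℕ) (x : P) :
    dl I J f q x ≤ #{l : L | I x l ∧ l ∈ badL I J f q} + #{l : L | I x l ∧ ¬ J x (f l)} := by
  unfold dl
  refine le_trans (card_le_card ?_) (card_union_le _ _)
  intro l hl
  rw [mem_union, mem_filter, mem_filter]
  have h1 := (mem_filter.1 hl).2
  rcases h1.2 with h2 | h2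
  · exact Or.inl ⟨mem_univ _, h1.1, h2⟩
  · exact Or.inr ⟨mem_univ _, h1.1, h2⟩

theorem sum_dl (I : P → L → Prop) (J : P → M → Prop) (q : ℕ) (hI : Pln I q) (f : L → M) :
    ∑ x : P, dl I J f q x ≤ (q + 1) * #(badL I J f q) + FF I J f := by
  refine (sum_le_sum fun x _ => dl_le I J f q x).trans ?_
  rw [sum_add_distrib]
  refine add_le_add ?_ ?_
  · have e : ∑ x : P, #{l : L | I x l ∧ l ∈ badL I J f q} =
        ∑ l : L, #{x : P | I x l ∧ l ∈ badL I J f q} := by
      simp only [card_filter]
      exact sum_comm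
    rw [e]
    have h1 : ∀ l : L, #{x : P | I x l ∧ l ∈ badL I J f q} =
        if l ∈ badL I J f q then q + 1 else 0 := by
      intro l
      by_cases hl : l ∈ badL I J f q
      · rw [if_pos hl, ← hI.size l]
        congr 1
        ext x
        simp [hl]
      · rw [if_neg hl, card_eq_zero]
        ext x
        simp [hl]
    rw [sum_congr rfl fun l _ => h1 l, ← sum_filter, sum_const, smul_eq_mul, mul_comm]
    refine Nat.mul_le_mul_left _ (card_le_card ?_)
    intro l hl
    exact (mem_filter.1 hl).2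
  · have e : ∑ x : P, #{l : L | I x l ∧ ¬ J x (f l)} =
        ∑ l : L, #{x : P | I x l ∧ ¬ J x (f l)} := by
      simp only [card_filter]
      exact sum_comm
    rw [e]
    exact le_rfl

end CNTM

open CNTM

theorem specCNT : SpecCNT.{u} := by
  intro P L M _ _ _ I J q hI hJ f
  have h1 : (q + 1) * #(badL I J f q) ≤ 4 * FF I J f := by
    have h2 := bound (univ : Finset L) (badL I J f q) (subset_univ _) (fun l => 4 * dd I J f l)
      (q + 1) (fun l hl => mem_badL.1 hl)
    rwa [← mul_sum] at h2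
  refine ⟨h1, fun c => ?_⟩
  have h2 := bound (univ : Finset P) ({x : P | q + 1 ≤ c * dl I J f q x} : Finset P)
    (subset_univ _) (fun x => c * dl I J f q x) (q + 1) (fun x hx => (mem_filter.1 hx).2)
  rw [← mul_sum] at h2
  have h3 := sum_dl I J q hI f
  have h4 : c * ∑ x : P, dl I J f q x ≤ c * (5 * FF I J f) := Nat.mul_le_mul_left _ (by omega)
  calc (q + 1) * #{x : P | q + 1 ≤ c * dl I J f q x} ≤ c * (5 * FF I J f) := h2.trans h4
    _ = 5 * c * FF I J f := by ring

end Pool.Agent.Lib.MP595dad.NR
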