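import Pool.Agent.Lib.MP_595dad_co.NR.SpecC

set_option autoImplicit false
set_option linter.unusedSectionVars false

namespace Pool.Agent.Lib.MP595dad.NR

open Finset
open scoped Classical

universe u

namespace COLM

variable {P L M : Type u} [Fintype P] [Fintype L] [Fintype M]

theorem dd_zero {I : P → L → Prop} {J : P → M → Prop} {f : L → M} {l : L}
    (h : ∀ x, I x l → J x (f l)) : dd I J f l = 0 := by
  unfold dd
  rw [card_eq_zero, filter_eq_empty_iff]
  intro x _ hx
  exact hx.2 (h x hx.1)

theorem not_bad {I : P → L → Prop} {J : P → M → Prop} {f : L → M} {l : L} {q : ℕ}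
    (h : ∀ x, I x l → J x (f l)) : l ∉ badL I J f q := by
  rw [mem_badL, dd_zero h]
  omega

end COLM

theorem specCOL (hCNT : SpecCNT.{u}) (hBP : SpecBP.{u}) : SpecCOL.{u} := by
  intro P L _ _ I q hI hq V a A A' φ lam h1 h2 h3 h4 h5
  set J : P → L → Prop := fun x m => I (φ x) m with hJdef
  have hJ : Pln J q := hI.comp φ
  obtain ⟨g, τ, hiso, hgP, hgL⟩ := hBP P L L I J q hI hJ lam h5
  -- lines through `V`
  have hV : ∀ l, I V l → τ l = l := by
    intro l hl
    rw [hgL l (COLM.not_bad (fun x hx => ?_)), (h1 l hl).1]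
    show I (φ x) (lam l)
    rw [(h1 l hl).1]
    exact (h1 l hl).2 x hx
  have ha : τ a = a := by
    rw [hgL a (COLM.not_bad (fun x hx => ?_)), h2.1]
    show I (φ x) (lam a)
    rw [h2.1, h2.2 x hx]
    exact hx
  have hiso' : ∀ x l, (I x l ↔ I (φ (g x)) (τ l)) := hiso
  refine ⟨g.trans φ, τ, ⟨hiso', hV, ?_⟩, ?_⟩
  · intro X hX
    show φ (g X) = X
    by_cases hXV : X = V
    · subst hXV
      have hd := hI.deg X
      have hlt : 1 < #{l : L | I X l} := by omega
      obtain ⟨l₁, hl₁, l₂, hl₂, hne⟩ := one_lt_card.mp hlt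
      have e1 : I X l₁ := by simpa using hl₁
      have e2 : I X l₂ := by simpa using hl₂
      have f1 := (hiso' X l₁).mp e1
      have f2 := (hiso' X l₂).mp e2
      rw [hV l₁ e1] at f1
      rw [hV l₂ e2] at f2
      exact hI.point_eq hne f1 e1 f2 e2
    · -- a good line through `X`
      obtain ⟨l₀, hl₀X, hl₀V⟩ := hI.join X V hXV
      have hbad := (hCNT P L L I J q hI hJ lam).1
      have hex : ∃ l, I X l ∧ l ≠ a ∧ ¬ I V l ∧ l ∉ badL I J lam q := by
        by_contra hcon
        push Not at hcon
        have hsub : ({l : L | I X l} : Finset L) ⊆ insert a (insert l₀ (badL I J lam q)) := by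
          intro l hl
          have hXl : I X l := by simpa using hl
          rw [mem_insert, mem_insert]
          by_cases e1 : l = a
          · exact Or.inl e1
          · by_cases e2 : I V l
            · exact Or.inr (Or.inl (hI.line_eq hXV hXl e2 hl₀X hl₀V))
            · exact Or.inr (Or.inr (hcon l hXl e1 e2))
        have hc := card_le_card hsub
        have hc2 := card_insert_le a (insert l₀ (badL I J lam q))
        have hc3 := card_insert_le l₀ (badL I J lam q)
        have hd := hI.deg X
        have h6 : q ≤ #(badL I J lam q) + 1 := by omega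
        have h7 : 32 * FF I J lam ≤ q ^ 2 + q + 1 := h5
        have h8 : (q + 1) * (q - 1) ≤ (q + 1) * #(badL I J lam q) :=
          Nat.mul_le_mul_left _ (by omega)
        have h9 : (q + 1) * (q - 1) = q ^ 2 - 1 := by
          have := Nat.sq_sub_sq q 1
          simpa using this.symm
        have h10 : 3 * 3 ≤ q * q := Nat.mul_le_mul hq hq
        have h11 : 3 * q ≤ q * q := Nat.mul_le_mul_right q hq
        have h12 : q ^ 2 = q * q := sq q
        omega
      obtain ⟨l, hXl, hla, hVl, hlb⟩ := hex
      have e1 := h3 l hVl hla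
      have e2 : I X (lam l) := e1.2 X hX hXl
      have e3 := (hiso' X l).mp hXl
      rw [hgL l hlb] at e3
      have e4 := (hiso' X a).mp hX
      rw [ha] at e4
      exact hI.point_eq e1.1 e3 e2 e4 hX
  · show φ (g A) = A'
    rw [hgP A ?_]
    · exact h4.1
    · rw [mem_badP]
      have : dl I J lam q A = 0 := by
        unfold dl
        rw [card_eq_zero, filter_eq_empty_iff]
        rintro l _ ⟨hl, hb | hb⟩
        · exact COLM.not_bad (fun x hx => h4.2 l hl x hx) hb
        · exact hb (h4.2 l hl A hl)
      rw [this]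
      omega

end Pool.Agent.Lib.MP595dad.NR
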