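import Pool.Agent.Lib.MP_595dad_co.NR.SpecB

/-!
# MP_595dad_co, NR, module CP (helper53): the common part
-/

set_option autoImplicit false

namespace Pool.Agent.Lib.MP595dad.NR

open Finset
open scoped Classical

universe u

namespace CPM

variable {P L M : Type u} [Fintype P] [Fintype L] [Fintype M]

/-- the points of `l` in `X` and outside `X` -/
theorem pts {I : P → L → Prop} {q : ℕ} (hI : Pln I q) (X : Finset P) (l : L) :
    ss I X l + #{x : P | I x l ∧ x ∉ X} = q + 1 := by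
  have h := card_filter_add_card_filter_not (s := ({x : P | I x l} : Finset P)) (fun x => x ∈ X)
  rw [hI.size l, filter_filter, filter_filter] at h
  have h1 : ss I X l = #{x : P | I x l ∧ x ∈ X} := by
    unfold ss
    congr 1
    ext x
    simp [and_comm]
  rw [h1]
  exact h

/-- the lines of `G` and outside `G` through `x` -/
theorem lns {I : P → L → Prop} {q : ℕ} (hI : Pln I q) (G : Finset L) (x : P) :
    rr I G x + rr I {l : L | l ∉ G} x = q + 1 := by
  have h := card_filter_add_card_filter_not (s := ({l : L | I x l} : Finset L)) (fun l => l ∈ G)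
  rw [hI.deg x, filter_filter, filter_filter] at h
  have h1 : rr I G x = #{l : L | I x l ∧ l ∈ G} := by
    unfold rr
    congr 1
    ext l
    simp [and_comm]
  have h2 : rr I {l : L | l ∉ G} x = #{l : L | I x l ∧ ¬ l ∈ G} := by
    unfold rr
    congr 1
    ext l
    simp [and_comm]
  rw [h1, h2]
  exact h

theorem dd_le_ss {I : P → L → Prop} {J : P → M → Prop} {f : L → M} {B : Finset P} {G : Finset L}
    (hag : ∀ x ∉ B, ∀ l ∈ G, (I x l ↔ J x (f l))) {l : L} (hl : l ∈ G) : dd I J f l ≤ ss I B l := by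
  unfold dd ss
  apply card_le_card
  intro x hx
  rw [mem_filter] at hx ⊢
  refine ⟨?_, hx.2.1⟩
  by_contra hxB
  exact hx.2.2 ((hag x hxB l hl).1 hx.2.1)

theorem FF_le {I : P → L → Prop} {J : P → M → Prop} {q : ℕ} (hI : Pln I q) {f : L → M}
    {B : Finset P} {G : Finset L} (hag : ∀ x ∉ B, ∀ l ∈ G, (I x l ↔ J x (f l))) :
    FF I J f ≤ (q + 1) * (#B + #{l : L | l ∉ G}) := by
  have h1 : ∀ l ∈ (univ : Finset L), dd I J f l ≤ ss I B l + (if l ∉ G then q + 1 else 0) := by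
    intro l _
    by_cases hl : l ∈ G
    · have := dd_le_ss hag hl
      omega
    · rw [if_pos hl]
      have := hI.split J f l
      omega
  have h2 : ∑ l : L, ss I B l = (q + 1) * #B := by
    rw [← sum_rr_eq_sum_ss I B univ]
    have h3 : ∀ x ∈ B, rr I univ x = q + 1 := fun x _ => hI.deg x
    rw [sum_congr rfl h3, sum_const, smul_eq_mul, mul_comm]
  have h3 : ∑ l : L, (if l ∉ G then q + 1 else 0) = (q + 1) * #{l : L | l ∉ G} := by
    rw [← sum_filter, sum_const, smul_eq_mul, mul_comm]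
  unfold FF
  calc ∑ l : L, dd I J f l ≤ ∑ l : L, (ss I B l + (if l ∉ G then q + 1 else 0)) := sum_le_sum h1
    _ = _ := by rw [sum_add_distrib, h2, h3, mul_add]

/-- two exact lines through a point fix the point -/
theorem fix_point {I : P → L → Prop} {J : P → M → Prop} {q : ℕ} (hJ : Pln J q) {f : L → M}
    {B : Finset P} {G : Finset L} (hinj : ∀ l ∈ G, ∀ m ∈ G, f l = f m → l = m)
    (hag : ∀ x ∉ B, ∀ l ∈ G, (I x l ↔ J x (f l))) {g : P ≃ P} {τ : L ≃ M}
    (hgt : ∀ x l, (I x l ↔ J (g x) (τ l))) {x : P} (hx : x ∉ B) (A : Finset L) (hA : 2 ≤ #A)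
    (hAG : ∀ l ∈ A, l ∈ G ∧ I x l ∧ τ l = f l) : g x = x := by
  obtain ⟨l, hl, m, hm, hlm⟩ := one_lt_card.1 (show 1 < #A by omega)
  obtain ⟨l1, l2, l3⟩ := hAG l hl
  obtain ⟨m1, m2, m3⟩ := hAG m hm
  have hne : f l ≠ f m := fun h => hlm (hinj l l1 m m1 h)
  have a1 := (hgt x l).1 l2
  have a2 := (hgt x m).1 m2
  rw [l3] at a1
  rw [m3] at a2
  exact hJ.point_eq hne a1 ((hag x hx l l1).1 l2) a2 ((hag x hx m m1).1 m2)

/-- two fixed points on a line fix the line -/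
theorem fix_line {I : P → L → Prop} {J : P → M → Prop} {q : ℕ} (hJ : Pln J q) {f : L → M}
    {B : Finset P} {G : Finset L}
    (hag : ∀ x ∉ B, ∀ l ∈ G, (I x l ↔ J x (f l))) {g : P ≃ P} {τ : L ≃ M}
    (hgt : ∀ x l, (I x l ↔ J (g x) (τ l))) {l : L} (hl : l ∈ G) (A : Finset P) (hA : 2 ≤ #A)
    (hAG : ∀ x ∈ A, x ∉ B ∧ I x l ∧ g x = x) : τ l = f l := by
  obtain ⟨x, hx, y, hy, hxy⟩ := one_lt_card.1 (show 1 < #A by omega)
  obtain ⟨x1, x2, x3⟩ := hAG x hx
  obtain ⟨y1, y2, y3⟩ := hAG y hy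
  have a1 := (hgt x l).1 x2
  have a2 := (hgt y l).1 y2
  rw [x3] at a1
  rw [y3] at a2
  exact hJ.line_eq hxy a1 a2 ((hag x x1 l hl).1 x2) ((hag y y1 l hl).1 y2)

theorem small {I : P → L → Prop} {J : P → M → Prop} {q : ℕ} (hBP : SpecBP.{u}) (hI : Pln I q)
    (hJ : Pln J q) (f : L → M) (B : Finset P) (G : Finset L)
    (hinj : ∀ l ∈ G, ∀ m ∈ G, f l = f m → l = m) (hag : ∀ x ∉ B, ∀ l ∈ G, (I x l ↔ J x (f l)))
    (hB : 1000 * #B ≤ 15 * q) (hG : 1000 * #{l : L | l ∉ G} ≤ 15 * q) :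
    ∃ (g : P ≃ P) (τ : L ≃ M), (∀ x l, (I x l ↔ J (g x) (τ l))) ∧
      (∀ x ∉ B, 2 * rr I {l : L | l ∉ G} x ≤ q + 1 → g x = x) ∧
      ∀ l ∈ G, 2 * ss I B l ≤ q + 1 → τ l = f l := by
  have hF := FF_le hI hag
  have h32 : 32 * FF I J f ≤ q ^ 2 + q + 1 := by
    have h1 : (q + 1) * (1000 * (#B + #{l : L | l ∉ G})) ≤ (q + 1) * (30 * q) :=
      Nat.mul_le_mul_left _ (by omega)
    nlinarith
  obtain ⟨g, τ, hgt, hg, ht⟩ := hBP P L M I J q hI hJ f h32
  have htl : ∀ l ∈ G, τ l = f l := by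
    intro l hl
    apply ht
    rw [mem_badL]
    have h1 := dd_le_ss hag hl
    have h2 : ss I B l ≤ #B := card_filter_le _ _
    omega
  refine ⟨g, τ, hgt, ?_, fun l hl _ => htl l hl⟩
  intro x hx hr
  have h1 := lns hI G x
  have hq := hI.two
  refine fix_point hJ hinj hag hgt hx ({l ∈ G | I x l}) ?_ ?_
  · have h2 : rr I G x = #({l ∈ G | I x l}) := rfl
    omega
  · intro l hl
    rw [mem_filter] at hl
    exact ⟨hl.1, hl.2, htl l hl.1⟩

theorem large {I : P → L → Prop} {J : P → M → Prop} {q : ℕ} (hCNT : SpecCNT.{u}) (hBP : SpecBP.{u})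
    (hDEV : SpecDEV.{u}) (hI : Pln I q)
    (hJ : Pln J q) (hq : 225 ≤ q) (f : L → M) (B : Finset P) (G : Finset L)
    (hinj : ∀ l ∈ G, ∀ m ∈ G, f l = f m → l = m) (hag : ∀ x ∉ B, ∀ l ∈ G, (I x l ↔ J x (f l)))
    (hB : 15000 * #B ≤ q ^ 2) (hG : 15000 * #{l : L | l ∉ G} ≤ q ^ 2)
    (g₀ : P ≃ P) (f' : L → M) (hg₀ : ∀ x ∉ B, g₀ x = x)
    (hF : 32 * FF I (fun x m => J (g₀ x) m) f' ≤ q ^ 2 + q + 1) :
    ∃ (g : P ≃ P) (τ : L ≃ M), (∀ x l, (I x l ↔ J (g x) (τ l))) ∧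
      (∀ x ∉ B, 2 * rr I {l : L | l ∉ G} x ≤ q + 1 → g x = x) ∧
      ∀ l ∈ G, 2 * ss I B l ≤ q + 1 → τ l = f l := by
  have hJ' : Pln (fun x m => J (g₀ x) m) q := hJ.comp g₀
  obtain ⟨g₁, τ, hgt₁, hg₁, -⟩ := hBP P L M I (fun x m => J (g₀ x) m) q hI hJ' f' hF
  obtain ⟨-, hc⟩ := hCNT P L M I (fun x m => J (g₀ x) m) q hI hJ' f'
  have hc2 := hc 2
  set Bp : Finset P := badP I (fun x m => J (g₀ x) m) f' q with hBp
  have hcB : (q + 1) * #Bp ≤ 5 * 2 * FF I (fun x m => J (g₀ x) m) f' := hc2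
  have hq2 : 225 * q ≤ q ^ 2 := by nlinarith
  have hBp32 : 32 * #Bp ≤ 10 * (q + 1) := by
    have h1 : (q + 1) * (32 * #Bp) ≤ (q + 1) * (10 * (q + 1)) := by nlinarith
    exact Nat.le_of_mul_le_mul_left h1 (by omega)
  -- the composite permutation
  have hgt : ∀ x l, (I x l ↔ J ((g₁.trans g₀) x) (τ l)) := hgt₁
  set g : P ≃ P := g₁.trans g₀ with hg
  set X : Finset P := B ∪ Bp with hX
  have hgX : ∀ x ∉ X, g x = x := by
    intro x hx
    rw [hX, mem_union, not_or] at hx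
    show g₀ (g₁ x) = x
    rw [hg₁ x hx.2, hg₀ x hx.1]
  have hXcard : #X ≤ #B + #Bp := card_union_le _ _
  -- the lines with many points of `X`
  set Bl : Finset L := {l : L | q + 1 ≤ 4 * ss I X l} with hBl
  have hBlc : (q + 1) * #Bl ≤ 64 * #X :=
    (hDEV L P (fun l x => I x l) q hI.dual X).1 (by omega)
  have hBl2 : 15000 * #Bl ≤ 64 * q + 300000 := by
    have h1 : (q + 1) * (15000 * #Bl) ≤ (q + 1) * (64 * q + 300000) := by nlinarith
    exact Nat.le_of_mul_le_mul_left h1 (by omega)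
  -- the points with many lines outside `G`
  set R : Finset P := {x : P | q + 1 ≤ 4 * rr I {l : L | l ∉ G} x} with hR
  have hRc : (q + 1) * #R ≤ 64 * #{l : L | l ∉ G} :=
    (hDEV P L I q hI {l : L | l ∉ G}).1 (by omega)
  have hR2 : 15000 * #R ≤ 64 * q := by
    have h1 : (q + 1) * (15000 * #R) ≤ (q + 1) * (64 * q) := by nlinarith
    exact Nat.le_of_mul_le_mul_left h1 (by omega)
  have first : ∀ x ∉ B, 2 * rr I {l : L | l ∉ G} x ≤ q + 1 → g x = x := by
    intro x hx hr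
    have h1 := lns hI G x
    refine fix_point hJ hinj hag hgt hx ({l ∈ G | I x l ∧ l ∉ Bl}) ?_ ?_
    · have h2 : rr I G x ≤ #({l ∈ G | I x l ∧ l ∉ Bl}) + #Bl := by
        unfold rr
        refine le_trans (card_le_card ?_) (card_union_le _ _)
        intro l hl
        rw [mem_filter] at hl
        rw [mem_union, mem_filter]
        by_cases h : l ∈ Bl
        · exact Or.inr h
        · exact Or.inl ⟨hl.1, hl.2, h⟩
      omega
    · intro l hl
      rw [mem_filter] at hl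
      obtain ⟨hlG, hxl, hlB⟩ := hl
      refine ⟨hlG, hxl, ?_⟩
      have hss : 4 * ss I X l < q + 1 := by
        by_contra hcon
        apply hlB
        rw [hBl, mem_filter]
        exact ⟨mem_univ l, by omega⟩
      have h2 := pts hI X l
      refine fix_line hJ hag hgt hlG ({y : P | I y l ∧ y ∉ X}) (by omega) ?_
      intro y hy
      rw [mem_filter] at hy
      refine ⟨fun h => hy.2.2 ?_, hy.2.1, hgX y hy.2.2⟩
      rw [hX, mem_union]
      exact Or.inl h
  refine ⟨g, τ, hgt, first, ?_⟩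
  intro l hl hs
  have h1 := pts hI B l
  refine fix_line hJ hag hgt hl ({y : P | (I y l ∧ y ∉ B) ∧ y ∉ R}) ?_ ?_
  · have h2 : #({x : P | I x l ∧ x ∉ B}) ≤ #({y : P | (I y l ∧ y ∉ B) ∧ y ∉ R}) + #R := by
      refine le_trans (card_le_card ?_) (card_union_le _ _)
      intro y hy
      rw [mem_filter] at hy
      rw [mem_union, mem_filter]
      by_cases h : y ∈ R
      · exact Or.inr h
      · exact Or.inl ⟨mem_univ y, hy.2, h⟩
    omega
  · intro y hy
    rw [mem_filter] at hy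
    obtain ⟨-, ⟨hy1, hy2⟩, hy3⟩ := hy
    refine ⟨hy2, hy1, first y hy2 ?_⟩
    have : 4 * rr I {l : L | l ∉ G} y < q + 1 := by
      by_contra hcon
      apply hy3
      rw [hR, mem_filter]
      exact ⟨mem_univ y, by omega⟩
    omega

end CPM

open CPM in
theorem specCP (hCNT : SpecCNT.{u}) (hBP : SpecBP.{u}) (hDEV : SpecDEV.{u}) (hFST : SpecFST.{u}) :
    SpecCP.{u} := by
  intro P L M _ _ _ I J q hI hJ f B G hinj hag hB hG
  rcases Nat.lt_or_ge q 225 with hq | hq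
  · have hs : √(q : ℝ) ≤ 15 := by
      rw [Real.sqrt_le_left (by norm_num)]
      have : (q : ℝ) ≤ 225 := by exact_mod_cast hq.le
      linarith
    have hqs : (q : ℝ) * √(q : ℝ) ≤ 15 * q := by
      have : (0 : ℝ) ≤ q := Nat.cast_nonneg q
      nlinarith
    exact small hBP hI hJ f B G hinj hag (by exact_mod_cast hB.trans hqs) (by exact_mod_cast hG.trans hqs)
  · obtain ⟨g₀, f', hg₀, hF⟩ := hFST P L M I J q hI hJ hq f B G hinj hag hB hG
    have hq' : (225 : ℝ) ≤ q := by exact_mod_cast hq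
    have hs : (15 : ℝ) ≤ √(q : ℝ) := by
      apply Real.le_sqrt_of_sq_le
      linarith
    have hss : √(q : ℝ) * √(q : ℝ) = q := Real.mul_self_sqrt (by linarith)
    have hqs : 15 * ((q : ℝ) * √(q : ℝ)) ≤ (q : ℝ) ^ 2 := by
      have h1 : 15 * √(q : ℝ) ≤ q := by nlinarith
      nlinarith
    have hB' : (15000 : ℝ) * #B ≤ (q : ℝ) ^ 2 := by linarith
    have hG' : (15000 : ℝ) * #{l : L | l ∉ G} ≤ (q : ℝ) ^ 2 := by linarith
    exact large hCNT hBP hDEV hI hJ hq f B G hinj hag (by exact_mod_cast hB') (by exact_mod_cast hG')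
      g₀ f' hg₀ hF

end Pool.Agent.Lib.MP595dad.NR
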