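import Pool.Agent.Lib.MP_595dad_co.NR.SpecB

set_option autoImplicit false
set_option linter.unusedSectionVars false

namespace Pool.Agent.Lib.MP595dad.NR

open Finset
open scoped Classical

universe u

theorem specDEV (hVAR : SpecVAR.{u}) : SpecDEV.{u} := by
  intro P L _ _ I q h G
  have hv := hVAR P L I q h G
  have hq : (0 : ℝ) ≤ q := Nat.cast_nonneg q
  have hq2 : (2 : ℝ) ≤ q := by exact_mod_cast h.two
  have hg : (0 : ℝ) ≤ #G := Nat.cast_nonneg _
  have hn0 : (0 : ℝ) < (q : ℝ) ^ 2 + q + 1 := by positivity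
  set n : ℝ := (q : ℝ) ^ 2 + q + 1 with hndef
  set g : ℝ := (#G : ℝ) with hgdef
  set μ : ℝ := g * ((q : ℝ) + 1) / n with hμ
  have hμn : n * μ = g * ((q : ℝ) + 1) := by
    rw [hμ]; field_simp
  have hμ0 : 0 ≤ μ := by rw [hμ]; positivity
  -- sums over subsets
  have hsub : ∀ X : Finset P, ∑ x ∈ X, ((rr I G x : ℝ) - μ) ^ 2 ≤ (q : ℝ) * g := fun X =>
    (Finset.sum_le_sum_of_subset_of_nonneg (Finset.subset_univ X) fun _ _ _ => sq_nonneg _).trans hv
  have hcard : ∀ (X : Finset P) (c : ℝ), (∀ x ∈ X, c ≤ ((rr I G x : ℝ) - μ) ^ 2) →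
      (#X : ℝ) * c ≤ (q : ℝ) * g := by
    intro X c hc
    refine le_trans ?_ (hsub X)
    calc (#X : ℝ) * c = ∑ _x ∈ X, c := by simp
      _ ≤ _ := Finset.sum_le_sum hc
  refine ⟨?_, ?_, ?_⟩
  · intro h8
    have h8' : 8 * g ≤ n := by
      rw [hgdef, hndef]; exact_mod_cast h8
    have hμ8 : μ ≤ ((q : ℝ) + 1) / 8 := by
      rw [hμ, div_le_div_iff₀ hn0 (by norm_num)]
      nlinarith [mul_le_mul_of_nonneg_right h8' (by positivity : (0 : ℝ) ≤ (q : ℝ) + 1)]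
    set A : Finset P := {x : P | q + 1 ≤ 4 * rr I G x} with hA
    have h1 := hcard A (((q : ℝ) + 1) ^ 2 / 64) (by
      intro x hx
      have hx' : q + 1 ≤ 4 * rr I G x := by
        simpa [hA] using hx
      have hx2 : (q : ℝ) + 1 ≤ 4 * (rr I G x : ℝ) := by exact_mod_cast hx'
      have h3 : ((q : ℝ) + 1) / 8 ≤ (rr I G x : ℝ) - μ := by linarith
      have h4 : 0 ≤ ((q : ℝ) + 1) / 8 := by positivity
      calc ((q : ℝ) + 1) ^ 2 / 64 = (((q : ℝ) + 1) / 8) ^ 2 := by ring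
        _ ≤ _ := pow_le_pow_left₀ h4 h3 2)
    have h5 : (((q : ℝ) + 1) * #A) ≤ 64 * g := by
      have h6 : (0 : ℝ) < (q : ℝ) + 1 := by positivity
      have h7 : ((q : ℝ) + 1) * (((q : ℝ) + 1) * #A) ≤ ((q : ℝ) + 1) * (64 * g) := by nlinarith
      exact le_of_mul_le_mul_left h7 h6
    rw [hgdef] at h5
    exact_mod_cast h5
  · intro X
    have h1 : (∑ x ∈ X, (rr I G x : ℝ)) = (#X : ℝ) * μ + ∑ x ∈ X, ((rr I G x : ℝ) - μ) := by
      rw [Finset.sum_sub_distrib, Finset.sum_const, nsmul_eq_mul]; ring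
    have h2 : (∑ x ∈ X, ((rr I G x : ℝ) - μ)) ^ 2 ≤ (q : ℝ) * #X * g := by
      refine (sq_sum_le_card_mul_sum_sq (s := X) (f := fun x => (rr I G x : ℝ) - μ)).trans ?_
      nlinarith [mul_le_mul_of_nonneg_left (hsub X) (Nat.cast_nonneg (α := ℝ) #X)]
    have h3 := (abs_le.1 (Real.abs_le_sqrt h2)).2
    have h4 : μ ≤ g / q := by
      rw [hμ, div_le_div_iff₀ hn0 (by linarith)]
      have : ((q : ℝ) + 1) * q ≤ n := by rw [hndef]; nlinarith
      nlinarith [mul_le_mul_of_nonneg_left this hg]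
    rw [h1]
    have h5 : (#X : ℝ) * μ ≤ (#X : ℝ) * g / q := by
      rw [mul_div_assoc]
      exact mul_le_mul_of_nonneg_left h4 (Nat.cast_nonneg _)
    linarith
  · intro D hG hD
    have hg' : 0 < g := by rw [hgdef]; exact_mod_cast hG
    have hDμ : 2 * D ≤ μ := by
      rw [hμ, le_div_iff₀ hn0]; exact hD
    set A : Finset P := {x : P | (rr I G x : ℝ) < D} with hA
    have h1 := hcard A (μ ^ 2 / 4) (by
      intro x hx
      have hx' : (rr I G x : ℝ) < D := by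
        simpa [hA] using hx
      have h3 : μ / 2 ≤ μ - (rr I G x : ℝ) := by linarith
      calc μ ^ 2 / 4 = (μ / 2) ^ 2 := by ring
        _ ≤ (μ - (rr I G x : ℝ)) ^ 2 := pow_le_pow_left₀ (by positivity) h3 2
        _ = _ := by ring)
    have h4 : (#A : ℝ) * (n * μ) ^ 2 ≤ 4 * ((q : ℝ) * g) * n ^ 2 := by
      have h5 : (#A : ℝ) * (n * μ) ^ 2 = 4 * ((#A : ℝ) * (μ ^ 2 / 4)) * n ^ 2 := by ring
      rw [h5]
      exact mul_le_mul_of_nonneg_right (by linarith) (by positivity)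
    rw [hμn] at h4
    have h6 : g * ((#A : ℝ) * g * ((q : ℝ) + 1) ^ 2) ≤ g * (4 * q * n ^ 2) := by
      calc g * ((#A : ℝ) * g * ((q : ℝ) + 1) ^ 2) = (#A : ℝ) * (g * ((q : ℝ) + 1)) ^ 2 := by ring
        _ ≤ 4 * ((q : ℝ) * g) * n ^ 2 := h4
        _ = _ := by ring
    exact le_of_mul_le_mul_left h6 hg'

end Pool.Agent.Lib.MP595dad.NR
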