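import Pool.Agent.Lib.MP_595dad_co.NR.SpecC

/-!
# MP_595dad_co, module DG: the Desargues gap
-/

set_option autoImplicit false

namespace Pool.Agent.Lib.MP595dad.NR

open Finset
open scoped Classical

universe u

namespace DGM

theorem poly (t : ℝ) (ht : 0 ≤ t) :
    128 * (t + 3) ^ 5 * (2 * (t + 3) ^ 2 - 1) ≤
      2000 * ((t + 3 - 1) ^ 2 * ((t + 3) ^ 2 - 1) * (t + 3 - 2)) * ((t + 3) ^ 2 + (t + 3) + 1) := by
  have h : 0 ≤ 2000 * ((t + 3 - 1) ^ 2 * ((t + 3) ^ 2 - 1) * (t + 3 - 2)) *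
      ((t + 3) ^ 2 + (t + 3) + 1) - 128 * (t + 3) ^ 5 * (2 * (t + 3) ^ 2 - 1) := by
    ring_nf
    positivity
  linarith

theorem num {q F U X D : ℝ} (hq : 3 ≤ q)
    (h1 : (q ^ 2 - 1) * (q - 1) * U ≤ 4 * D)
    (h2 : q * (q - 1) * ((q ^ 2 - 1) * (q - 1)) * X ≤ 4 * D * (q ^ 2 + q - 1))
    (h3 : (q - 2) * F ≤ U + X) (h4 : 2000 * D ≤ q ^ 6) : 32 * F ≤ q ^ 2 + q + 1 := by
  have hp := poly (q - 3) (by linarith)
  have e : q - 3 + 3 = q := by ring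
  rw [e] at hp
  set c : ℝ := (q - 1) ^ 2 * (q ^ 2 - 1) * (q - 2) with hc
  have hcpos : 0 < c := by
    have h5 : 0 < q - 1 := by linarith
    have h6 : 0 < q ^ 2 - 1 := by nlinarith
    have h7 : 0 < q - 2 := by linarith
    positivity
  have h5 : q * (q - 1) * ((q ^ 2 - 1) * (q - 1) * U) ≤ q * (q - 1) * (4 * D) := by
    refine mul_le_mul_of_nonneg_left h1 ?_
    have : 0 ≤ q - 1 := by linarith
    positivity
  have h6 : q * (q - 1) * ((q ^ 2 - 1) * (q - 1)) * ((q - 2) * F) ≤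
      q * (q - 1) * ((q ^ 2 - 1) * (q - 1)) * (U + X) := by
    refine mul_le_mul_of_nonneg_left h3 ?_
    have h7 : 0 ≤ q - 1 := by linarith
    have h8 : 0 ≤ q ^ 2 - 1 := by nlinarith
    positivity
  have h7 : q * c * F ≤ 4 * D * (2 * q ^ 2 - 1) := by
    have e1 : q * c * F = q * (q - 1) * ((q ^ 2 - 1) * (q - 1)) * ((q - 2) * F) := by
      rw [hc]; ring
    rw [e1]
    refine h6.trans ?_
    nlinarith
  have h8 : D * (2 * q ^ 2 - 1) * 2000 ≤ q ^ 6 * (2 * q ^ 2 - 1) := by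
    have h9 : (0 : ℝ) ≤ 2 * q ^ 2 - 1 := by nlinarith
    nlinarith [mul_le_mul_of_nonneg_right h4 h9]
  have hq0 : 0 < q := by linarith
  have h9 : q * (2000 * c * (32 * F)) ≤ q * (2000 * c * (q ^ 2 + q + 1)) := by
    calc q * (2000 * c * (32 * F)) = 64000 * (q * c * F) := by ring
      _ ≤ 64000 * (4 * D * (2 * q ^ 2 - 1)) := by linarith
      _ = 128 * (D * (2 * q ^ 2 - 1) * 2000) := by ring
      _ ≤ 128 * (q ^ 6 * (2 * q ^ 2 - 1)) := by linarith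
      _ = q * (128 * q ^ 5 * (2 * q ^ 2 - 1)) := by ring
      _ ≤ q * (2000 * c * (q ^ 2 + q + 1)) := mul_le_mul_of_nonneg_left hp hq0.le
  have h10 := le_of_mul_le_mul_left h9 hq0
  exact le_of_mul_le_mul_left h10 (by positivity)

end DGM

theorem specDG (hAVG : SpecAVG.{u}) (hFLG : SpecFLG.{u}) (hCOL : SpecCOL.{u})
    (hTRN : SpecTRN.{u}) : SpecDG.{u} := by
  intro P L _ _ I q hI hq V a hD
  obtain ⟨A, S, hA, hS, hall⟩ := hAVG P L I q hI V a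
  refine hTRN P L I q hI V a A S hA hS fun A' hA' => ?_
  obtain ⟨hR, hC, B, hB, hAB, h1, h2⟩ := hall A' hA'
  refine ⟨hR, hC, ?_⟩
  obtain ⟨φ, lam, p1, p2, p3, p4, p5⟩ := hFLG P L I q hI hq V a A A' B hA hR hC hB hAB
  refine hCOL P L I q hI hq V a A A' φ lam p1 p2 p3 p4 ?_
  have hq' : (3 : ℝ) ≤ q := by exact_mod_cast hq
  have h3 : ((q : ℝ) - 2) * (FF I (fun x m => I (φ x) m) lam : ℝ) ≤
      uu I V a A A' + ((q : ℝ) * gg I V a A A' B + uu I V a B (pm I V a A A' B)) := by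
    have h4 : (((q - 2) * FF I (fun x m => I (φ x) m) lam : ℕ) : ℝ) ≤
        ((uu I V a A A' + (q * gg I V a A A' B + uu I V a B (pm I V a A A' B)) : ℕ) : ℝ) := by
      exact_mod_cast p5
    rw [Nat.cast_mul, Nat.cast_sub (by omega)] at h4
    push_cast at h4
    exact h4
  have h5 : 2000 * (DQ I V a : ℝ) ≤ (q : ℝ) ^ 6 := by exact_mod_cast hD
  have h6 := DGM.num hq' h1 h2 h3 h5
  have h7 : ((32 * FF I (fun x m => I (φ x) m) lam : ℕ) : ℝ) ≤ ((q ^ 2 + q + 1 : ℕ) : ℝ) := by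
    push_cast
    exact h6
  exact_mod_cast h7

end Pool.Agent.Lib.MP595dad.NR
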