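import Mathlib

/-!
# Near isomorphisms of finite projective planes: definitions and small tools (MP_595dad_co)

All types live in one universe `u`. A plane is an incidence relation `I : P → L → Prop` with
`Pln I q`. Two planes are compared on the SAME point set `P`: `I : P → L → Prop` (the old plane) and
`J : P → M → Prop` (the new plane, `J x m` means `φ x ∈ m`), and `f : L → M` is a map of the lines.
-/

set_option autoImplicit false

namespace Pool.Agent.Lib.MP595dad.NR

open Finset
open scoped Classical

universe u

/-- A projective plane of order `q` with incidence relation `I`. -/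
structure Pln {P L : Type u} [Fintype P] [Fintype L] (I : P → L → Prop) (q : ℕ) : Prop where
  two : 2 ≤ q
  cardP : Fintype.card P = q ^ 2 + q + 1
  cardL : Fintype.card L = q ^ 2 + q + 1
  size : ∀ l : L, #{x : P | I x l} = q + 1
  deg : ∀ x : P, #{l : L | I x l} = q + 1
  join : ∀ x y : P, x ≠ y → ∃ l : L, I x l ∧ I y l
  meet : ∀ l m : L, l ≠ m → ∃ x : P, I x l ∧ I x m
  uniq : ∀ (x y : P) (l m : L), I x l → I y l → I x m → I y m → x = y ∨ l = m

section

variable {P L M : Type u} [Fintype P] [Fintype L] [Fintype M]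

theorem Pln.dual {I : P → L → Prop} {q : ℕ} (h : Pln I q) : Pln (fun l x => I x l) q where
  two := h.two
  cardP := h.cardL
  cardL := h.cardP
  size := h.deg
  deg := h.size
  join := h.meet
  meet := h.join
  uniq := fun l m x y h1 h2 h3 h4 => (h.uniq x y l m h1 h3 h2 h4).symm

theorem Pln.line_eq {I : P → L → Prop} {q : ℕ} (h : Pln I q) {x y : P} {l m : L} (hxy : x ≠ y)
    (h1 : I x l) (h2 : I y l) (h3 : I x m) (h4 : I y m) : l = m :=
  (h.uniq x y l m h1 h2 h3 h4).resolve_left hxy

theorem Pln.point_eq {I : P → L → Prop} {q : ℕ} (h : Pln I q) {x y : P} {l m : L} (hlm : l ≠ m)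
    (h1 : I x l) (h2 : I y l) (h3 : I x m) (h4 : I y m) : x = y :=
  (h.uniq x y l m h1 h2 h3 h4).resolve_right hlm

/-- `d(l)`: the number of points of the old line `l` which are not on the new line `f l`. -/
noncomputable def dd (I : P → L → Prop) (J : P → M → Prop) (f : L → M) (l : L) : ℕ :=
  #{x : P | I x l ∧ ¬ J x (f l)}

/-- `F`: the number of lost flags. -/
noncomputable def FF (I : P → L → Prop) (J : P → M → Prop) (f : L → M) : ℕ :=
  ∑ l : L, dd I J f l

/-- The bad lines: `4 d(l) ≥ q + 1`. -/
noncomputable def badL (I : P → L → Prop) (J : P → M → Prop) (f : L → M) (q : ℕ) : Finset L :=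
  {l : L | q + 1 ≤ 4 * dd I J f l}

/-- `δ(x)`: the number of old lines `l` through `x` which are bad or with `x` not on `f l`. -/
noncomputable def dl (I : P → L → Prop) (J : P → M → Prop) (f : L → M) (q : ℕ) (x : P) : ℕ :=
  #{l : L | I x l ∧ (l ∈ badL I J f q ∨ ¬ J x (f l))}

/-- The bad points: `2 δ(x) ≥ q + 1`. -/
noncomputable def badP (I : P → L → Prop) (J : P → M → Prop) (f : L → M) (q : ℕ) : Finset P :=
  {x : P | q + 1 ≤ 2 * dl I J f q x}

/-- The number of lines of `G` through `x`. -/
noncomputable def rr (I : P → L → Prop) (G : Finset L) (x : P) : ℕ := #{l ∈ G | I x l}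

/-- The number of points of `B` on `l`. -/
noncomputable def ss (I : P → L → Prop) (B : Finset P) (l : L) : ℕ := #{x ∈ B | I x l}

theorem mem_badL {I : P → L → Prop} {J : P → M → Prop} {f : L → M} {q : ℕ} {l : L} :
    l ∈ badL I J f q ↔ q + 1 ≤ 4 * dd I J f l := by
  simp [badL]

theorem mem_badP {I : P → L → Prop} {J : P → M → Prop} {f : L → M} {q : ℕ} {x : P} :
    x ∈ badP I J f q ↔ q + 1 ≤ 2 * dl I J f q x := by
  simp [badP]

/-- the points of `l` on `f l` and those not on `f l` -/
theorem Pln.split {I : P → L → Prop} {q : ℕ} (h : Pln I q) (J : P → M → Prop) (f : L → M) (l : L) :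
    #{x : P | I x l ∧ J x (f l)} + dd I J f l = q + 1 := by
  rw [← h.size l, dd, ← filter_filter, ← filter_filter]
  exact card_filter_add_card_filter_not _

/-- the points of `f l` which are not on `l` are `d(l)` in number -/
theorem Pln.split' {I : P → L → Prop} {J : P → M → Prop} {q : ℕ} (hI : Pln I q) (hJ : Pln J q)
    (f : L → M) (l : L) : #{x : P | J x (f l) ∧ ¬ I x l} = dd I J f l := by
  have h1 := hI.split J f l
  have h2 : #{x : P | J x (f l) ∧ I x l} + #{x : P | J x (f l) ∧ ¬ I x l} = q + 1 := by
    rw [← hJ.size (f l), ← filter_filter, ← filter_filter]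
    exact card_filter_add_card_filter_not _
  have h3 : #{x : P | J x (f l) ∧ I x l} = #{x : P | I x l ∧ J x (f l)} := by
    congr 1
    ext x
    simp [and_comm]
  omega

/-- double counting of the flags between a set of points and a set of lines -/
theorem sum_rr_eq_sum_ss (I : P → L → Prop) (B : Finset P) (G : Finset L) :
    ∑ x ∈ B, rr I G x = ∑ l ∈ G, ss I B l := by
  simp only [rr, ss, card_filter]
  exact sum_comm

end

end Pool.Agent.Lib.MP595dad.NR
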