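import Pool.Agent.Lib.MP_595dad_co.NR.SpecB

/-!
# MP_595dad_co, module EXF: exact lines through the point of a lost flag
-/

set_option autoImplicit false
set_option linter.unusedSectionVars false

namespace Pool.Agent.Lib.MP595dad.NR

open Finset
open scoped Classical

universe u

namespace EXFM

variable {P L M : Type u} [Fintype P] [Fintype L] [Fintype M]

theorem exact_iff {I : P → L → Prop} {J : P → M → Prop} {q : ℕ} (hI : Pln I q) (hJ : Pln J q)
    (f : L → M) (k : L) (hk : dd I J f k = 0) (y : P) : I y k ↔ J y (f k) := by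
  constructor
  · intro h
    by_contra hn
    have h1 : y ∈ ({x : P | I x k ∧ ¬ J x (f k)} : Finset P) := mem_filter.2 ⟨mem_univ _, h, hn⟩
    have h2 : ({x : P | I x k ∧ ¬ J x (f k)} : Finset P) = ∅ := card_eq_zero.1 hk
    rw [h2] at h1
    exact absurd h1 (notMem_empty _)
  · intro h
    by_contra hn
    have h1 : y ∈ ({x : P | J x (f k) ∧ ¬ I x k} : Finset P) := mem_filter.2 ⟨mem_univ _, h, hn⟩
    have h2 : ({x : P | J x (f k) ∧ ¬ I x k} : Finset P) = ∅ :=
      card_eq_zero.1 ((Pln.split' hI hJ f k).trans hk)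
    rw [h2] at h1
    exact absurd h1 (notMem_empty _)

end EXFM

open EXFM

theorem specEXF : SpecEXF.{u} := by
  intro P L M _ _ _ I J q hI hJ f x l hxl hxf
  have hex : ∀ k : L, ∃ w : P, (I x k ∧ dd I J f k = 0) → J w (f k) ∧ J w (f l) := by
    intro k
    by_cases hk : I x k ∧ dd I J f k = 0
    · have h1 : J x (f k) := (exact_iff hI hJ f k hk.2 x).1 hk.1
      have h2 : f k ≠ f l := fun h => hxf (h ▸ h1)
      obtain ⟨w, hw1, hw2⟩ := hJ.meet (f k) (f l) h2
      exact ⟨w, fun _ => ⟨hw1, hw2⟩⟩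
    · exact ⟨x, fun h => absurd h hk⟩
  choose w hw using hex
  rw [← Pln.split' hI hJ f l]
  refine card_le_card_of_injOn w ?_ ?_
  · intro k hk
    obtain ⟨_, hk1, hk2⟩ := mem_filter.1 (mem_coe.1 hk)
    obtain ⟨h1, h2⟩ := hw k ⟨hk1, hk2⟩
    rw [mem_coe, mem_filter]
    refine ⟨mem_univ _, h2, fun h3 => ?_⟩
    have h4 : I (w k) k := (exact_iff hI hJ f k hk2 (w k)).2 h1
    have h5 : x ≠ w k := fun h => hxf (h ▸ h2)
    have h6 : k = l := hI.line_eq h5 hk1 h4 hxl h3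
    exact hxf (h6 ▸ (exact_iff hI hJ f k hk2 x).1 hk1)
  · intro k hk k' hk' hkk
    obtain ⟨_, hk1, hk2⟩ := mem_filter.1 (mem_coe.1 hk)
    obtain ⟨_, hk1', hk2'⟩ := mem_filter.1 (mem_coe.1 hk')
    obtain ⟨h1, h2⟩ := hw k ⟨hk1, hk2⟩
    obtain ⟨h1', h2'⟩ := hw k' ⟨hk1', hk2'⟩
    have h4 : I (w k) k := (exact_iff hI hJ f k hk2 (w k)).2 h1
    have h4' : I (w k') k' := (exact_iff hI hJ f k' hk2' (w k')).2 h1'
    have h5 : x ≠ w k := fun h => hxf (h ▸ h2)
    have hkk' : w k = w k' := hkk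
    rw [← hkk'] at h4'
    exact hI.line_eq h5 hk1 h4 hk1' h4'

end Pool.Agent.Lib.MP595dad.NR
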