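import Pool.Agent.Lib.MP_595dad_co.NR.SpecC

/-!
# MP_595dad_co, module FIB: the sizes of the fibres
-/

set_option autoImplicit false

namespace Pool.Agent.Lib.MP595dad.NR

open Finset
open scoped Classical

universe u

namespace FIBM

variable {P L : Type u} [Fintype P] [Fintype L]

lemma line {I : P → L → Prop} {q : ℕ} (hI : Pln I q) {V : P} {a : L} {A : P} (hA : Reg I V a A) :
    ∃ k, k ≠ a ∧ I V k ∧ ∀ x, Col I V A x ↔ I x k := by
  obtain ⟨k, hVk, hAk⟩ := hI.join V A (Ne.symm hA.1)
  refine ⟨k, ?_, hVk, ?_⟩
  · rintro rfl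
    exact hA.2 hAk
  · intro x
    constructor
    · rintro ⟨m, h1, h2, h3⟩
      have : m = k := hI.line_eq (Ne.symm hA.1) h1 h2 hVk hAk
      rw [← this]
      exact h3
    · intro hx
      exact ⟨k, hVk, hAk, hx⟩

lemma split_reg (I : P → L → Prop) (V : P) (a : L) :
    #{x : P | Reg I V a x} + #{x : P | ¬ Reg I V a x} = Fintype.card P := by
  rw [← card_univ]
  exact card_filter_add_card_filter_not _

lemma split_col (I : P → L → Prop) (V : P) (a : L) (A : P) :
    #{x : P | Reg I V a x ∧ Col I V A x} + #{x : P | Reg I V a x ∧ ¬ Col I V A x} =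
      #{x : P | Reg I V a x} := by
  rw [← filter_filter, ← filter_filter]
  exact card_filter_add_card_filter_not _

lemma split_line {I : P → L → Prop} {q : ℕ} (hI : Pln I q) {V : P} {a : L} {A : P} {k : L}
    (hk : ∀ x, Col I V A x ↔ I x k) :
    #{x : P | Reg I V a x ∧ Col I V A x} + #{x : P | I x k ∧ ¬ Reg I V a x} = q + 1 := by
  have h1 : #{x : P | I x k ∧ Reg I V a x} + #{x : P | I x k ∧ ¬ Reg I V a x} = q + 1 := by
    rw [← hI.size k, ← filter_filter, ← filter_filter]
    exact card_filter_add_card_filter_not _
  have h2 : ({x : P | Reg I V a x ∧ Col I V A x} : Finset P) =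
      ({x : P | I x k ∧ Reg I V a x} : Finset P) := by
    ext x
    simp only [mem_filter, mem_univ, true_and, hk x]
    exact and_comm
  rw [h2]
  exact h1

end FIBM

open FIBM in
theorem specFIB : SpecFIB.{u} := by
  intro P L _ _ I q hI V a
  obtain ⟨t, rfl⟩ : ∃ t, q = t + 1 := ⟨q - 1, by have := hI.two; omega⟩
  have hP := hI.cardP
  have hs := split_reg I V a
  by_cases hV : I V a
  · have h1 : ({x : P | ¬ Reg I V a x} : Finset P) = ({x : P | I x a} : Finset P) := by
      ext x
      simp only [mem_filter, mem_univ, true_and, Reg, not_and, not_not]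
      constructor
      · intro h
        by_cases hx : x = V
        · rw [hx]; exact hV
        · exact h hx
      · intro h _
        exact h
    rw [h1, hI.size a, hP] at hs
    have hreg : #{x : P | Reg I V a x} = (t + 1) ^ 2 := by omega
    refine ⟨by omega, t + 1, Or.inl rfl, ?_⟩
    intro A hA
    obtain ⟨k, hka, hVk, hk⟩ := line hI hA
    have h2 := split_line (a := a) hI hk
    have h3 : ({x : P | I x k ∧ ¬ Reg I V a x} : Finset P) = {V} := by
      ext x
      simp only [mem_filter, mem_univ, true_and, Reg, not_and, not_not, mem_singleton]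
      constructor
      · rintro ⟨hx, hx'⟩
        by_contra hne
        exact hne (hI.point_eq hka hx hVk (hx' hne) hV)
      · rintro rfl
        exact ⟨hVk, fun h => absurd rfl h⟩
    rw [h3, card_singleton] at h2
    have h4 := split_col I V a A
    have h5 : #{x : P | Reg I V a x ∧ Col I V A x} = t + 1 := by omega
    refine ⟨h5, ?_⟩
    rw [h5, hreg] at h4
    have h6 : (t + 1) ^ 2 = (t + 1) + (t + 1) * (t + 1 - 1) := by
      rw [Nat.add_sub_cancel]; ring
    omega
  · have h1 : ({x : P | ¬ Reg I V a x} : Finset P) = insert V ({x : P | I x a} : Finset P) := by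
      ext x
      simp only [mem_filter, mem_univ, true_and, Reg, not_and, not_not, mem_insert]
      constructor
      · intro h
        by_cases hx : x = V
        · exact Or.inl hx
        · exact Or.inr (h hx)
      · rintro (h | h) h'
        · exact absurd h h'
        · exact h
    rw [h1, card_insert_of_notMem (by simpa using hV), hI.size a, hP] at hs
    have hreg : #{x : P | Reg I V a x} + 1 = (t + 1) ^ 2 := by omega
    refine ⟨by omega, t, Or.inr rfl, ?_⟩
    intro A hA
    obtain ⟨k, hka, hVk, hk⟩ := line hI hA
    obtain ⟨X, hXk, hXa⟩ := hI.meet k a hka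
    have hVX : V ≠ X := by
      rintro rfl
      exact hV hXa
    have h2 := split_line (a := a) hI hk
    have h3 : ({x : P | I x k ∧ ¬ Reg I V a x} : Finset P) = {V, X} := by
      ext x
      simp only [mem_filter, mem_univ, true_and, Reg, not_and, not_not, mem_singleton, mem_insert]
      constructor
      · rintro ⟨hx, hx'⟩
        by_cases hne : x = V
        · exact Or.inl hne
        · exact Or.inr (hI.point_eq hka hx hXk (hx' hne) hXa)
      · rintro (rfl | rfl)
        · exact ⟨hVk, fun h => absurd rfl h⟩
        · exact ⟨hXk, fun _ => hXa⟩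
    rw [h3, card_pair hVX] at h2
    have h4 := split_col I V a A
    have h5 : #{x : P | Reg I V a x ∧ Col I V A x} = t := by omega
    refine ⟨h5, ?_⟩
    rw [h5] at h4
    have h6 : (t + 1) ^ 2 = 1 + t + (t + 1) * (t + 1 - 1) := by
      rw [Nat.add_sub_cancel]; ring
    omega

end Pool.Agent.Lib.MP595dad.NR
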