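import Pool.Agent.Lib.MP_595dad_co.NR.SpecC

/-!
# MP_595dad_co, module FLG: the map of the points and the number of lost flags
-/

set_option autoImplicit false
set_option linter.unusedSectionVars false

namespace Pool.Agent.Lib.MP595dad.NR

open Finset
open scoped Classical

universe u

namespace FLGM

variable {P L : Type u} [Fintype P] [Fintype L]

theorem col_symm {I : P → L → Prop} {V x y : P} (h : Col I V x y) : Col I V y x := by
  obtain ⟨k, h1, h2, h3⟩ := h
  exact ⟨k, h1, h3, h2⟩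

theorem col_refl {I : P → L → Prop} {q : ℕ} (hI : Pln I q) {V x : P} (hx : x ≠ V) :
    Col I V x x := by
  obtain ⟨k, h1, h2⟩ := hI.join x V hx
  exact ⟨k, h2, h1, h1⟩

theorem col_trans {I : P → L → Prop} {q : ℕ} (hI : Pln I q) {V x y z : P} (hy : y ≠ V)
    (h : Col I V x y) (h' : Col I V y z) : Col I V x z := by
  obtain ⟨k, h1, h2, h3⟩ := h
  obtain ⟨k', h1', h2', h3'⟩ := h'
  have e := hI.line_eq hy h3 h1 h2' h1'
  subst e
  exact ⟨k, h1, h2, h3'⟩

theorem mem_of_col {I : P → L → Prop} {q : ℕ} (hI : Pln I q) {V x y : P} {k : L} (hx : x ≠ V)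
    (hV : I V k) (hxk : I x k) (h : Col I V x y) : I y k := by
  obtain ⟨k', h1, h2, h3⟩ := h
  have e := hI.line_eq hx h2 h1 hxk hV
  subst e
  exact h3

theorem line_of_col {I : P → L → Prop} {q : ℕ} (hI : Pln I q) {V x y : P} {l : L} (hxy : x ≠ y)
    (h : Col I V x y) (hx : I x l) (hy : I y l) : I V l := by
  obtain ⟨k, h1, h2, h3⟩ := h
  have e := hI.line_eq hxy h2 h3 hx hy
  subst e
  exact h1

/-- at most one point on two different lines -/
theorem meet_le {I : P → L → Prop} {q : ℕ} (hI : Pln I q) {l m : L} (h : l ≠ m) :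
    #{x : P | I x l ∧ I x m} ≤ 1 := by
  rw [card_le_one]
  intro x hx y hy
  rw [mem_filter] at hx hy
  exact hI.point_eq h hx.2.1 hy.2.1 hx.2.2 hy.2.2

/-- the regular points of a line off the lines `V A`, `V B` -/
theorem card_cs {I : P → L → Prop} {q : ℕ} (hI : Pln I q) {V : P} {a : L} {A B : P}
    (hA : Reg I V a A) (hB : Reg I V a B) {l : L} (hVl : ¬ I V l) (hla : l ≠ a) :
    q - 2 ≤ #{C : P | Reg I V a C ∧ ¬ Col I V A C ∧ ¬ Col I V B C ∧ I C l} := by
  obtain ⟨kA, hA1, hA2⟩ := hI.join A V hA.1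
  obtain ⟨kB, hB1, hB2⟩ := hI.join B V hB.1
  have hlA : l ≠ kA := fun h => hVl (h ▸ hA2)
  have hlB : l ≠ kB := fun h => hVl (h ▸ hB2)
  have h1 := meet_le hI hla
  have h2 := meet_le hI hlA
  have h3 := meet_le hI hlB
  obtain ⟨S0, e0⟩ : ∃ S0 : Finset P, S0 = ({C : P | Reg I V a C ∧ ¬ Col I V A C ∧
    ¬ Col I V B C ∧ I C l} : Finset P) := ⟨_, rfl⟩
  obtain ⟨S1, e1⟩ : ∃ S1 : Finset P, S1 = ({x : P | I x l ∧ I x a} : Finset P) := ⟨_, rfl⟩
  obtain ⟨S2, e2⟩ : ∃ S2 : Finset P, S2 = ({x : P | I x l ∧ I x kA} : Finset P) := ⟨_, rfl⟩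
  obtain ⟨S3, e3⟩ : ∃ S3 : Finset P, S3 = ({x : P | I x l ∧ I x kB} : Finset P) := ⟨_, rfl⟩
  rw [← e1] at h1
  rw [← e2] at h2
  rw [← e3] at h3
  rw [← e0]
  have h4 : ({x : P | I x l} : Finset P) ⊆ S0 ∪ (S1 ∪ (S2 ∪ S3)) := by
    intro x hx
    simp only [mem_filter, mem_univ, true_and] at hx
    rw [e0, e1, e2, e3]
    simp only [mem_union, mem_filter, mem_univ, true_and]
    by_cases c1 : I x a
    · exact Or.inr (Or.inl ⟨hx, c1⟩)
    by_cases c2 : I x kA
    · exact Or.inr (Or.inr (Or.inl ⟨hx, c2⟩))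
    by_cases c3 : I x kB
    · exact Or.inr (Or.inr (Or.inr ⟨hx, c3⟩))
    refine Or.inl ⟨⟨?_, c1⟩, ?_, ?_, hx⟩
    · rintro rfl
      exact hVl hx
    · exact fun h => c2 (mem_of_col hI hA.1 hA2 hA1 h)
    · exact fun h => c3 (mem_of_col hI hB.1 hB2 hB1 h)
  have h5 := card_le_card h4
  rw [hI.size l] at h5
  have h6 := card_union_le S0 (S1 ∪ (S2 ∪ S3))
  have h7 := card_union_le S1 (S2 ∪ S3)
  have h8 := card_union_le S2 S3
  omega

/-- the regular points of a line through the centre -/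
theorem card_fib {I : P → L → Prop} {q : ℕ} (hI : Pln I q) {V : P} {a : L} {A : P}
    (hA : Reg I V a A) : #{x : P | Reg I V a x ∧ Col I V A x} ≤ q := by
  obtain ⟨kA, hA1, hA2⟩ := hI.join A V hA.1
  have h1 : ({x : P | Reg I V a x ∧ Col I V A x} : Finset P) ⊆ ({x : P | I x kA} : Finset P).erase V := by
    intro x hx
    simp only [mem_filter, mem_univ, true_and] at hx
    rw [mem_erase, mem_filter]
    exact ⟨hx.1.1, mem_univ _, mem_of_col hI hA.1 hA2 hA1 hx.2⟩
  have h2 := card_le_card h1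
  rw [card_erase_of_mem (by rw [mem_filter]; exact ⟨mem_univ _, hA2⟩), hI.size kA] at h2
  omega

end FLGM

open FLGM in
theorem specFLG (hPEX : SpecPEX.{u}) (hLAM : SpecLAM.{u}) : SpecFLG.{u} := by
  intro P L _ _ I q hI hq V a A A' B hA hA' hAA hB hAB
  obtain ⟨ex, un, sy⟩ := hPEX P L I q hI V a
  obtain ⟨lam, lam1, lam2, lam3, lam4, lam5⟩ := hLAM P L I q hI V a A A' hA hA' hAA
  obtain ⟨B', hB'⟩ : ∃ B', B' = pm I V a A A' B := ⟨_, rfl⟩
  have TAB : Tr I V a A A' B B' := by
    rw [hB']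
    exact ex A A' B hA hA' hB hAA hAB
  have hRB' : Reg I V a B' := TAB.2.2.2.1
  have hBB : Col I V B B' := TAB.2.2.2.2.2.1
  obtain ⟨φ, hφ⟩ : ∃ φ : P → P, ∀ x, φ x = if Reg I V a x then
      (if Col I V A x then pm I V a B B' x else pm I V a A A' x) else x := ⟨_, fun _ => rfl⟩
  have φn : ∀ x, ¬ Reg I V a x → φ x = x := fun x hx => by rw [hφ, if_neg hx]
  have φ1 : ∀ x, Reg I V a x → ¬ Col I V A x → φ x = pm I V a A A' x := fun x hx h => by
    rw [hφ, if_pos hx, if_neg h]
  have φ2 : ∀ x, Reg I V a x → Col I V A x → φ x = pm I V a B B' x := fun x hx h => by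
    rw [hφ, if_pos hx, if_pos h]
  have nB : ∀ x, Reg I V a x → Col I V A x → ¬ Col I V B x := fun x hx h h' =>
    hAB (col_trans hI hx.1 h (col_symm h'))
  have T1 : ∀ x, Reg I V a x → ¬ Col I V A x → Tr I V a A A' x (φ x) := fun x hx h => by
    rw [φ1 x hx h]
    exact ex A A' x hA hA' hx hAA h
  have T2 : ∀ x, Reg I V a x → Col I V A x → Tr I V a B B' x (φ x) := fun x hx h => by
    rw [φ2 x hx h]
    exact ex B B' x hB hRB' hx hBB (nB x hx h)
  have φR : ∀ x, Reg I V a x → Reg I V a (φ x) ∧ Col I V x (φ x) := by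
    intro x hx
    by_cases h : Col I V A x
    · have := T2 x hx h
      exact ⟨this.2.2.2.1, this.2.2.2.2.2.1⟩
    · have := T1 x hx h
      exact ⟨this.2.2.2.1, this.2.2.2.2.2.1⟩
  have φinj : Function.Injective φ := by
    intro x y hxy
    by_cases hx : Reg I V a x
    · by_cases hy : Reg I V a y
      · have h1 := φR x hx
        have h2 := φR y hy
        rw [← hxy] at h2
        have h3 : Col I V x y := col_trans hI h1.1.1 h1.2 (col_symm h2.2)
        by_cases h : Col I V A x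
        · have h' : Col I V A y := col_trans hI hx.1 h h3
          have e1 := T2 x hx h
          have e2 := T2 y hy h'
          rw [← hxy] at e2
          exact un _ _ _ _ _ (sy _ _ _ _ e1).1 (sy _ _ _ _ e2).1
        · have h' : ¬ Col I V A y := fun h' => h (col_trans hI hy.1 h' (col_symm h3))
          have e1 := T1 x hx h
          have e2 := T1 y hy h'
          rw [← hxy] at e2
          exact un _ _ _ _ _ (sy _ _ _ _ e1).1 (sy _ _ _ _ e2).1
      · have h1 := (φR x hx).1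
        rw [hxy, φn y hy] at h1
        exact absurd h1 hy
    · by_cases hy : Reg I V a y
      · have h1 := (φR y hy).1
        rw [← hxy, φn x hx] at h1
        exact absurd h1 hx
      · rwa [φn x hx, φn y hy] at hxy
  have φbij : Function.Bijective φ := Finite.injective_iff_bijective.1 φinj
  have hline : ∀ l, I V l → ∀ x, I x l → I (φ x) l := by
    intro l hl x hx
    by_cases h : Reg I V a x
    · exact mem_of_col hI h.1 hl hx (φR x h).2
    · rw [φn x h]
      exact hx
  have haxis : ∀ x, I x a → φ x = x := fun x hx => φn x fun h => h.2 hx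
  have hφA : φ A = A' := by
    have hc : Col I V A A := col_refl hI hA.1
    exact un _ _ _ _ _ (T2 A hA hc) (sy _ _ _ _ TAB).2
  refine ⟨Equiv.ofBijective φ φbij, lam, ?_, ⟨lam2, haxis⟩, lam3, ⟨hφA, ?_⟩, ?_⟩
  · exact fun l hl => ⟨lam1 l hl, hline l hl⟩
  · intro l hAl x hx
    show I (φ x) (lam l)
    by_cases hVl : I V l
    · rw [lam1 l hVl]
      exact hline l hVl x hx
    have hla : l ≠ a := fun h => hA.2 (h ▸ hAl)
    by_cases hxR : Reg I V a x
    · by_cases hc : Col I V A x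
      · have hxA : x = A := by
          by_contra hne
          exact hVl (line_of_col hI (Ne.symm hne) hc hAl hx)
        rw [hxA, hφA]
        exact (lam4 l hAl hVl).1
      · rw [φ1 x hxR hc]
        exact (lam4 l hAl hVl).2 x hxR hc hx
    · rw [φn x hxR]
      have hxa : I x a := by
        by_contra h
        refine hxR ⟨?_, h⟩
        rintro rfl
        exact hVl hx
      exact (lam3 l hVl hla).2 x hxa hx
  · -- the count
    rw [← hB']
    have hJ : (fun x m => I ((Equiv.ofBijective φ φbij) x) m : P → L → Prop) =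
        fun x m => I (φ x) m := rfl
    rw [hJ]
    set Ls : Finset L := {l : L | ¬ I V l ∧ l ≠ a} with hLs
    have hLsm : ∀ l, l ∈ Ls ↔ ¬ I V l ∧ l ≠ a := by
      intro l
      rw [hLs, mem_filter]
      simp
    set Bl : L → Finset P := fun l =>
      {B : P | Reg I V a B ∧ ¬ Col I V A B ∧ I B l ∧ ¬ I (pm I V a A A' B) (lam l)} with hBl
    set Cx : L → Finset P := fun l =>
      {x : P | Reg I V a x ∧ Col I V A x ∧ I x l ∧ ¬ I (φ x) (lam l)} with hCx
    set Cs : L → Finset P := fun l =>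
      {C : P | Reg I V a C ∧ ¬ Col I V A C ∧ ¬ Col I V B C ∧ I C l} with hCs
    have hBlm : ∀ l x, x ∈ Bl l ↔ Reg I V a x ∧ ¬ Col I V A x ∧ I x l ∧
        ¬ I (pm I V a A A' x) (lam l) := by
      intro l x
      simp only [hBl, mem_filter, mem_univ, true_and]
    have hCxm : ∀ l x, x ∈ Cx l ↔ Reg I V a x ∧ Col I V A x ∧ I x l ∧ ¬ I (φ x) (lam l) := by
      intro l x
      simp only [hCx, mem_filter, mem_univ, true_and]
    have hCsm : ∀ l x, x ∈ Cs l ↔ Reg I V a x ∧ ¬ Col I V A x ∧ ¬ Col I V B x ∧ I x l := by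
      intro l x
      simp only [hCs, mem_filter, mem_univ, true_and]
    have hb : (q - 1) * ∑ l ∈ Ls, #(Bl l) ≤ uu I V a A A' := lam5
    -- `F ≤ b + G_A`
    have hF : FF I (fun x m => I (φ x) m) lam ≤ ∑ l ∈ Ls, #(Bl l) + ∑ l ∈ Ls, #(Cx l) := by
      have h0 : FF I (fun x m => I (φ x) m) lam =
          ∑ l ∈ Ls, dd I (fun x m => I (φ x) m) lam l := by
        rw [FF]
        refine (sum_subset (subset_univ _) fun l _ hl => ?_).symm
        rw [dd, card_eq_zero, filter_eq_empty_iff]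
        rintro x - ⟨hx1, hx2⟩
        apply hx2
        rw [hLsm] at hl
        by_cases hVl : I V l
        · show I (φ x) (lam l)
          rw [lam1 l hVl]
          exact hline l hVl x hx1
        · have hla : l = a := by
            by_contra h
            exact hl ⟨hVl, h⟩
          subst hla
          show I (φ x) (lam l)
          rw [lam2, haxis x hx1]
          exact hx1
      rw [h0, ← sum_add_distrib]
      refine sum_le_sum fun l hl => ?_
      obtain ⟨hVl, hla⟩ := (hLsm l).1 hl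
      refine (card_le_card ?_).trans (card_union_le _ _)
      intro x hx
      rw [mem_filter] at hx
      obtain ⟨-, hx1, hx2⟩ := hx
      have hx2' : ¬ I (φ x) (lam l) := hx2
      have hxR : Reg I V a x := by
        by_contra h
        rw [φn x h] at hx2'
        have hxa : I x a := by
          by_contra h'
          refine h ⟨?_, h'⟩
          rintro rfl
          exact hVl hx1
        exact hx2' ((lam3 l hVl hla).2 x hxa hx1)
      rw [mem_union]
      by_cases hc : Col I V A x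
      · exact Or.inr ((hCxm l x).2 ⟨hxR, hc, hx1, hx2'⟩)
      · refine Or.inl ((hBlm l x).2 ⟨hxR, hc, hx1, ?_⟩)
        rw [← φ1 x hxR hc]
        exact hx2'
    -- the triples
    obtain ⟨PS, hPS⟩ : ∃ PS : Finset (Σ _ : L, P), PS = Ls.sigma Cx := ⟨_, rfl⟩
    obtain ⟨T, hT⟩ : ∃ T : Finset (Σ _ : (Σ _ : L, P), P), T = PS.sigma fun p => Cs p.1 :=
      ⟨_, rfl⟩
    have hTm : ∀ t, t ∈ T ↔ (t.1.1 ∈ Ls ∧ t.1.2 ∈ Cx t.1.1) ∧ t.2 ∈ Cs t.1.1 := by
      intro t
      rw [hT, mem_sigma, hPS, mem_sigma]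
    have hPSc : #PS = ∑ l ∈ Ls, #(Cx l) := by rw [hPS, card_sigma]
    have hTc : (q - 2) * #PS ≤ #T := by
      rw [hT, card_sigma, mul_comm]
      refine card_nsmul_le_sum PS _ (q - 2) fun p hp => ?_
      rw [hPS, mem_sigma] at hp
      obtain ⟨hVl, hla⟩ := (hLsm _).1 hp.1
      exact card_cs hI hA hB hVl hla
    have hcase : ∀ t ∈ T, Fa I V a A A' B t.2 ∨ Fa I V a B B' t.2 t.1.2 ∨
        ¬ I (pm I V a A A' t.2) (lam t.1.1) := by
      rintro ⟨⟨l, x⟩, C⟩ ht
      obtain ⟨⟨h1, h2⟩, h3⟩ := (hTm _).1 ht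
      obtain ⟨hVl, hla⟩ := (hLsm l).1 h1
      obtain ⟨hxR, hxc, hxl, hxn⟩ := (hCxm l x).1 h2
      obtain ⟨hCR, hCA, hCB, hCl⟩ := (hCsm l C).1 h3
      show Fa I V a A A' B C ∨ Fa I V a B B' C x ∨ ¬ I (pm I V a A A' C) (lam l)
      by_contra hcon
      push Not at hcon
      obtain ⟨na, nb, nc⟩ := hcon
      have TAC : Tr I V a A A' C (pm I V a A A' C) := ex A A' C hA hA' hCR hAA hCA
      have hPer : Per I a B C (pm I V a A A' B) (pm I V a A A' C) := by
        by_contra h
        exact na ⟨hA, hA', hB, hCR, hAA, hAB, hCA, hCB, h⟩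
      rw [← hB'] at hPer
      have TBC : Tr I V a B B' C (pm I V a A A' C) :=
        ⟨hB, hRB', hCR, TAC.2.2.2.1, hBB, TAC.2.2.2.2.2.1, hCB, hPer⟩
      have hpm : pm I V a B B' C = pm I V a A A' C :=
        un _ _ _ _ _ (ex B B' C hB hRB' hCR hBB hCB) TBC
      have hCx : C ≠ x := by
        rintro rfl
        exact hCA hxc
      have hnc : ¬ Col I V C x := fun h => hVl (line_of_col hI hCx h hCl hxl)
      have hPer2 : Per I a C x (pm I V a B B' C) (pm I V a B B' x) := by
        by_contra h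
        exact nb ⟨hB, hRB', hCR, hxR, hBB, hCB, nB x hxR hxc, hnc, h⟩
      rw [hpm, ← φ2 x hxR hxc] at hPer2
      obtain ⟨X, m, m', p1, p2, p3, p4, p5, p6, p7⟩ := hPer2
      have hml : m = l := hI.line_eq hCx p2 p3 hCl hxl
      rw [hml] at p4
      have hXlam := (lam3 l hVl hla).2 X p1 p4
      have hne : pm I V a A A' C ≠ X := by
        intro h
        exact TAC.2.2.2.1.2 (h ▸ p1)
      have hm' : m' = lam l := hI.line_eq hne p5 p7 nc hXlam
      rw [hm'] at p6
      exact hxn p6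
    have hsub : T ⊆ T.filter (fun t => Fa I V a A A' B t.2) ∪
        (T.filter (fun t => Fa I V a B B' t.2 t.1.2) ∪
          T.filter (fun t => ¬ I (pm I V a A A' t.2) (lam t.1.1))) := by
      intro t ht
      rw [mem_union, mem_union, mem_filter, mem_filter, mem_filter]
      rcases hcase t ht with h | h | h
      · exact Or.inl ⟨ht, h⟩
      · exact Or.inr (Or.inl ⟨ht, h⟩)
      · exact Or.inr (Or.inr ⟨ht, h⟩)
    have hTle := card_le_card hsub
    have u1 := card_union_le (T.filter (fun t => Fa I V a A A' B t.2))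
      (T.filter (fun t => Fa I V a B B' t.2 t.1.2) ∪
          T.filter (fun t => ¬ I (pm I V a A A' t.2) (lam t.1.1)))
    have u2 := card_union_le (T.filter (fun t => Fa I V a B B' t.2 t.1.2))
      (T.filter (fun t => ¬ I (pm I V a A A' t.2) (lam t.1.1)))
    -- the line is determined
    have hdet : ∀ t ∈ T, ∀ t' ∈ T, t.1.2 = t'.1.2 → t.2 = t'.2 → t = t' := by
      rintro ⟨⟨l, x⟩, C⟩ ht ⟨⟨l', x'⟩, C'⟩ ht' e1 e2
      have e1' : x = x' := e1
      have e2' : C = C' := e2
      subst e1'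
      subst e2'
      obtain ⟨⟨h1, h2⟩, h3⟩ := (hTm _).1 ht
      obtain ⟨⟨h1', h2'⟩, h3'⟩ := (hTm _).1 ht'
      obtain ⟨hxR, hxc, hxl, hxn⟩ := (hCxm l x).1 h2
      obtain ⟨-, -, hxl', -⟩ := (hCxm l' x).1 h2'
      obtain ⟨hCR, hCA, hCB, hCl⟩ := (hCsm l C).1 h3
      obtain ⟨-, -, -, hCl'⟩ := (hCsm l' C).1 h3'
      have hCx : C ≠ x := by
        rintro rfl
        exact hCA hxc
      have e := hI.line_eq hCx hCl hxl hCl' hxl'
      subst e
      rfl
    have ca : #(T.filter (fun t => Fa I V a A A' B t.2)) ≤ q * gg I V a A A' B := by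
      have h1 : #(T.filter (fun t => Fa I V a A A' B t.2)) ≤
          #(({x : P | Reg I V a x ∧ Col I V A x} : Finset P) ×ˢ
            ({C : P | Fa I V a A A' B C} : Finset P)) := by
        refine card_le_card_of_injOn (fun t => (t.1.2, t.2)) ?_ ?_
        · intro t ht
          obtain ⟨ht1, ht2⟩ := mem_filter.1 (mem_coe.1 ht)
          obtain ⟨⟨h1, h2⟩, h3⟩ := (hTm _).1 ht1
          obtain ⟨hxR, hxc, -, -⟩ := (hCxm _ _).1 h2
          rw [mem_coe, mem_product, mem_filter, mem_filter]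
          exact ⟨⟨mem_univ _, hxR, hxc⟩, mem_univ _, ht2⟩
        · intro t ht t' ht' h
          have h' := Prod.mk.inj h
          exact hdet t (mem_filter.1 (mem_coe.1 ht)).1 t' (mem_filter.1 (mem_coe.1 ht')).1 h'.1 h'.2
      rw [card_product] at h1
      exact h1.trans (Nat.mul_le_mul_right _ (card_fib hI hA))
    have cb : #(T.filter (fun t => Fa I V a B B' t.2 t.1.2)) ≤ uu I V a B B' := by
      refine card_le_card_of_injOn (fun t => (t.2, t.1.2)) ?_ ?_
      · intro t ht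
        obtain ⟨ht1, ht2⟩ := mem_filter.1 (mem_coe.1 ht)
        rw [mem_coe, mem_filter]
        exact ⟨mem_univ _, ht2⟩
      · intro t ht t' ht' h
        have h' := Prod.mk.inj h
        exact hdet t (mem_filter.1 (mem_coe.1 ht)).1 t' (mem_filter.1 (mem_coe.1 ht')).1 h'.2 h'.1
    have cc : #(T.filter (fun t => ¬ I (pm I V a A A' t.2) (lam t.1.1))) ≤
        ∑ l ∈ Ls, #(Bl l) := by
      rw [← card_sigma]
      refine card_le_card_of_injOn (fun t => (⟨t.1.1, t.2⟩ : Σ _ : L, P)) ?_ ?_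
      · intro t ht
        obtain ⟨ht1, ht2⟩ := mem_filter.1 (mem_coe.1 ht)
        obtain ⟨⟨h1, h2⟩, h3⟩ := (hTm _).1 ht1
        obtain ⟨hCR, hCA, hCB, hCl⟩ := (hCsm _ _).1 h3
        rw [mem_coe, mem_sigma]
        exact ⟨h1, (hBlm _ _).2 ⟨hCR, hCA, hCl, ht2⟩⟩
      · rintro ⟨⟨l, x⟩, C⟩ ht ⟨⟨l', x'⟩, C'⟩ ht' h
        have ht1 := (mem_filter.1 (mem_coe.1 ht)).1
        have ht1' := (mem_filter.1 (mem_coe.1 ht')).1
        have e1 : l = l' := congrArg Sigma.fst h
        have e2 : C = C' := eq_of_heq (Sigma.mk.inj h).2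
        subst e1
        subst e2
        obtain ⟨⟨h1, h2⟩, h3⟩ := (hTm _).1 ht1
        obtain ⟨⟨h1', h2'⟩, h3'⟩ := (hTm _).1 ht1'
        obtain ⟨hVl, hla⟩ := (hLsm l).1 h1
        obtain ⟨hxR, hxc, hxl, hxn⟩ := (hCxm l x).1 h2
        obtain ⟨-, hxc', hxl', -⟩ := (hCxm l x').1 h2'
        have exx : x = x' := by
          by_contra hne
          exact hVl (line_of_col hI hne (col_trans hI hA.1 (col_symm hxc) hxc') hxl hxl')
        subst exx
        rfl
    -- the end
    obtain ⟨b, hbd⟩ : ∃ b, b = ∑ l ∈ Ls, #(Bl l) := ⟨_, rfl⟩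
    rw [← hbd] at hb hF cc
    rw [← hPSc] at hF
    have e1 : (q - 2) * #PS ≤ q * gg I V a A A' B + uu I V a B B' + b := by omega
    have e2 : (q - 2) * FF I (fun x m => I (φ x) m) lam ≤ (q - 2) * b + (q - 2) * #PS := by
      rw [← Nat.mul_add]
      exact Nat.mul_le_mul_left _ hF
    have e3 : (q - 1) * b = (q - 2) * b + b := by
      have : q - 1 = (q - 2) + 1 := by omega
      rw [this]
      ring
    omega

end Pool.Agent.Lib.MP595dad.NR
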