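import Pool.Agent.Lib.MP_595dad_co.NR.SpecB

/-!
# Module FST: after the two corrections at most `n / 32` flags are lost
-/

set_option autoImplicit false
set_option linter.unusedSectionVars false

namespace Pool.Agent.Lib.MP595dad.NR

open Finset
open scoped Classical

universe u

namespace FSTM

/-- The numerical part. -/
theorem numeric (q b β w : ℕ) (F : ℝ) (hq : 225 ≤ q)
    (hb : 1000 * (b : ℝ) ≤ q * √(q : ℝ)) (hβ : 1000 * (β : ℝ) ≤ q * √(q : ℝ)) (hw : w ≤ β)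
    (hF : F ≤ 64 * b + (64 * β + (2 + 3 * √(q : ℝ) / 1000) * b) +
      ((2 + 3 * √(q : ℝ) / 1000) * β + ((b : ℝ) * w / q + √((q : ℝ) * b * w)))) :
    32 * F ≤ (q : ℝ) ^ 2 + q + 1 := by
  set s : ℝ := √(q : ℝ) with hs
  have hq0 : (225 : ℝ) ≤ q := by exact_mod_cast hq
  have hqpos : (0 : ℝ) < q := by linarith
  have hss : s * s = q := Real.mul_self_sqrt hqpos.le
  have hs0 : 0 ≤ s := Real.sqrt_nonneg _
  have hs15 : 15 ≤ s := by
    by_contra hcon
    push Not at hcon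
    nlinarith
  have hb0 : (0 : ℝ) ≤ b := Nat.cast_nonneg _
  have hβ0 : (0 : ℝ) ≤ β := Nat.cast_nonneg _
  have hw0 : (0 : ℝ) ≤ w := Nat.cast_nonneg _
  have hwβ : (w : ℝ) ≤ β := by exact_mod_cast hw
  have hqs0 : 0 ≤ (q : ℝ) * s := mul_nonneg hqpos.le hs0
  -- the term `b w / q`
  have h1 : (b : ℝ) * w / q ≤ (q : ℝ) * q / 1000000 := by
    rw [div_le_iff₀ hqpos]
    have h2 : (1000 * (b : ℝ)) * (1000 * (w : ℝ)) ≤ (q * s) * (q * s) :=
      mul_le_mul hb (by linarith) (by linarith) hqs0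
    have h3 : ((q : ℝ) * s) * (q * s) = q * q * q := by
      calc ((q : ℝ) * s) * (q * s) = q * q * (s * s) := by ring
        _ = q * q * q := by rw [hss]
    rw [h3] at h2
    nlinarith
  -- the term `√(q b w)`
  have h4 : √((q : ℝ) * b * w) ≤ (q : ℝ) * q / 1000 := by
    apply Real.sqrt_le_iff.mpr
    refine ⟨by positivity, ?_⟩
    have h2 : (1000 * (b : ℝ)) * (1000 * (w : ℝ)) ≤ (q * s) * (q * s) :=
      mul_le_mul hb (by linarith) (by linarith) hqs0
    have h3 : ((q : ℝ) * s) * (q * s) = q * q * q := by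
      calc ((q : ℝ) * s) * (q * s) = q * q * (s * s) := by ring
        _ = q * q * q := by rw [hss]
    rw [h3] at h2
    have h5 : (q : ℝ) * ((1000 * (b : ℝ)) * (1000 * (w : ℝ))) ≤ q * (q * q * q) :=
      mul_le_mul_of_nonneg_left h2 hqpos.le
    nlinarith
  -- `q s ≤ q q / 15`
  have h6 : 15 * ((q : ℝ) * s) ≤ q * q := by
    have h7 : 15 * s ≤ q := by
      rw [← hss]
      exact mul_le_mul_of_nonneg_right hs15 hs0
    nlinarith
  -- `s b ≤ q q / 1000`
  have h8 : 1000 * (s * b) ≤ q * q := by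
    have : s * (1000 * (b : ℝ)) ≤ s * (q * s) := mul_le_mul_of_nonneg_left hb hs0
    have h9 : s * ((q : ℝ) * s) = q * q := by
      calc s * ((q : ℝ) * s) = q * (s * s) := by ring
        _ = q * q := by rw [hss]
    linarith
  have h10 : 1000 * (s * β) ≤ q * q := by
    have : s * (1000 * (β : ℝ)) ≤ s * (q * s) := mul_le_mul_of_nonneg_left hβ hs0
    have h9 : s * ((q : ℝ) * s) = q * q := by
      calc s * ((q : ℝ) * s) = q * (s * s) := by ring
        _ = q * q := by rw [hss]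
    linarith
  have h11 : (2 + 3 * s / 1000) * (b : ℝ) = 2 * b + 3 * (s * b) / 1000 := by ring
  have h12 : (2 + 3 * s / 1000) * (β : ℝ) = 2 * β + 3 * (s * β) / 1000 := by ring
  rw [h11, h12] at hF
  have hqq : 0 ≤ (q : ℝ) * q := by positivity
  have h13 : (q : ℝ) ^ 2 = q * q := by ring
  rw [h13]
  linarith

variable {P L M : Type u} [Fintype P] [Fintype L] [Fintype M]

/-- The lines of `G`: only the points of `B` count. -/
theorem sum_G {I : P → L → Prop} {J : P → M → Prop} {q : ℕ} (hI : Pln I q)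
    (f f' : L → M) (B Z : Finset P) (G : Finset L) (g : P ≃ P) (κ : ℝ) (hκ : 0 ≤ κ)
    (hiff : ∀ x ∉ B, ∀ l ∈ G, (I x l ↔ J x (f l))) (hff : ∀ l ∈ G, f' l = f l)
    (hg : ∀ x ∉ B, g x = x)
    (hZ : ∀ x ∈ B, x ∉ Z → (#{l ∈ G | I x l ∧ ¬ J (g x) (f l)} : ℝ) ≤ κ) :
    (∑ l ∈ G, (dd I (fun x m => J (g x) m) f' l : ℝ)) ≤ (q + 1) * #Z + κ * #B := by
  have h1 : (∑ l ∈ G, (dd I (fun x m => J (g x) m) f' l : ℝ)) =
      ∑ x : P, (#{l ∈ G | I x l ∧ ¬ J (g x) (f l)} : ℝ) := by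
    have h2 : ∑ l ∈ G, dd I (fun x m => J (g x) m) f' l =
        ∑ x : P, #{l ∈ G | I x l ∧ ¬ J (g x) (f l)} := by
      have h3 : ∀ l ∈ G, dd I (fun x m => J (g x) m) f' l =
          #{x : P | I x l ∧ ¬ J (g x) (f l)} := by
        intro l hl
        rw [dd, hff l hl]
      rw [sum_congr rfl h3]
      simp only [card_filter]
      exact sum_comm
    exact_mod_cast h2
  rw [h1]
  have h4 : ∀ x : P, (#{l ∈ G | I x l ∧ ¬ J (g x) (f l)} : ℝ) ≤
      (if x ∈ Z then ((q : ℝ) + 1) else 0) + (if x ∈ B then κ else 0) := by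
    intro x
    by_cases hxB : x ∈ B
    · by_cases hxZ : x ∈ Z
      · rw [if_pos hxZ, if_pos hxB]
        have h5 : #{l ∈ G | I x l ∧ ¬ J (g x) (f l)} ≤ q + 1 := by
          rw [← hI.deg x]
          apply card_le_card
          intro l hl
          rw [mem_filter] at hl ⊢
          exact ⟨mem_univ _, hl.2.1⟩
        have h6 : (#{l ∈ G | I x l ∧ ¬ J (g x) (f l)} : ℝ) ≤ q + 1 := by exact_mod_cast h5
        linarith
      · rw [if_neg hxZ, if_pos hxB, zero_add]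
        exact hZ x hxB hxZ
    · have h5 : #{l ∈ G | I x l ∧ ¬ J (g x) (f l)} = 0 := by
        rw [card_eq_zero, filter_eq_empty_iff]
        intro l hl hcon
        rw [hg x hxB] at hcon
        exact hcon.2 ((hiff x hxB l hl).mp hcon.1)
      rw [h5, if_neg hxB, add_zero, Nat.cast_zero]
      split_ifs
      · positivity
      · exact le_rfl
  refine (sum_le_sum fun x _ => h4 x).trans (le_of_eq ?_)
  rw [sum_add_distrib, sum_ite_mem, sum_ite_mem, univ_inter, univ_inter, sum_const, sum_const,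
    nsmul_eq_mul, nsmul_eq_mul]
  ring

/-- The lines of `G' \ G`. -/
theorem sum_H (hDEV : SpecDEV.{u}) {I : P → L → Prop} {J : P → M → Prop} {q : ℕ}
    (hJ : Pln J q) (f' : L → M) (B : Finset P) (H : Finset L) (g : P ≃ P)
    (κ : ℝ) (hg : ∀ x ∉ B, g x = x) (hinj : ∀ l ∈ H, ∀ m ∈ H, f' l = f' m → l = m)
    (hH : ∀ l ∈ H, (#{x : P | I x l ∧ (x ∈ B ∨ ¬ J x (f' l))} : ℝ) ≤ ss J B (f' l) + κ) :
    (∑ l ∈ H, (dd I (fun x m => J (g x) m) f' l : ℝ)) ≤
      κ * #H + ((#B : ℝ) * #H / q + √((q : ℝ) * #B * #H)) := by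
  have h1 : ∀ l ∈ H, (dd I (fun x m => J (g x) m) f' l : ℝ) ≤ ss J B (f' l) + κ := by
    intro l hl
    refine le_trans ?_ (hH l hl)
    have h2 : dd I (fun x m => J (g x) m) f' l ≤ #{x : P | I x l ∧ (x ∈ B ∨ ¬ J x (f' l))} := by
      rw [dd]
      apply card_le_card
      intro x hx
      rw [mem_filter] at hx ⊢
      refine ⟨mem_univ _, hx.2.1, ?_⟩
      by_cases hxB : x ∈ B
      · exact Or.inl hxB
      · right
        have h3 := hx.2.2
        rw [hg x hxB] at h3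
        exact h3
    exact_mod_cast h2
  have h4 : (∑ l ∈ H, (ss J B (f' l) : ℝ)) = ∑ x ∈ B, (rr J (H.image f') x : ℝ) := by
    have h5 : ∑ x ∈ B, rr J (H.image f') x = ∑ l ∈ H, ss J B (f' l) := by
      rw [sum_rr_eq_sum_ss]
      exact sum_image fun l hl m hm hlm => hinj l hl m hm hlm
    exact_mod_cast h5.symm
  have h6 : #(H.image f') = #H := card_image_of_injOn fun l hl m hm hlm => hinj l hl m hm hlm
  have h7 := (hDEV P M J q hJ (H.image f')).2.1 B
  rw [h6] at h7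
  calc (∑ l ∈ H, (dd I (fun x m => J (g x) m) f' l : ℝ))
      ≤ ∑ l ∈ H, ((ss J B (f' l) : ℝ) + κ) := sum_le_sum h1
    _ = (∑ l ∈ H, (ss J B (f' l) : ℝ)) + κ * #H := by
        rw [sum_add_distrib, sum_const, nsmul_eq_mul]
        ring
    _ ≤ κ * #H + ((#B : ℝ) * #H / q + √((q : ℝ) * #B * #H)) := by
        rw [h4]
        linarith

end FSTM

theorem specFST (hDEV : SpecDEV.{u}) (hLN : SpecLN.{u}) (hPN : SpecPN.{u}) : SpecFST.{u} := by
  intro P L M _ _ _ I J q hI hJ hq f B G hinj hiff hB hG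
  obtain ⟨f', G', hGG', hff, hinj', hG', hH⟩ := hLN P L M I J q hI hJ hq f B G hinj hiff hB hG
  obtain ⟨g, Z, hg, hZ, hZ'⟩ := hPN P L M I J q hI hJ hq f B G hinj hiff hB hG
  refine ⟨g, f', hg, ?_⟩
  set κ : ℝ := 2 + 3 * √(q : ℝ) / 1000 with hκdef
  have hκ : 0 ≤ κ := by positivity
  set J' : P → M → Prop := fun x m => J (g x) m with hJ'
  -- the three sums
  have h1 : (∑ l ∈ G, (dd I J' f' l : ℝ)) ≤ (q + 1) * #Z + κ * #B :=
    FSTM.sum_G hI f f' B Z G g κ hκ hiff hff hg hZ'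
  have h2 : (∑ l ∈ G' \ G, (dd I J' f' l : ℝ)) ≤
      κ * #(G' \ G) + ((#B : ℝ) * #(G' \ G) / q + √((q : ℝ) * #B * #(G' \ G))) := by
    apply FSTM.sum_H hDEV hJ f' B (G' \ G) g κ hg
    · intro l hl m hm hlm
      exact hinj' l (mem_sdiff.mp hl).1 m (mem_sdiff.mp hm).1 hlm
    · intro l hl
      exact hH l (mem_sdiff.mp hl).1 (mem_sdiff.mp hl).2
  have h3 : (∑ l ∈ univ \ G', (dd I J' f' l : ℝ)) ≤ (q + 1) * #{l : L | l ∉ G'} := by
    have h4 : ∀ l ∈ univ \ G', (dd I J' f' l : ℝ) ≤ q + 1 := by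
      intro l _
      have h5 := hI.split J' f' l
      have h6 : dd I J' f' l ≤ q + 1 := by omega
      exact_mod_cast h6
    refine (sum_le_sum h4).trans (le_of_eq ?_)
    rw [sum_const, nsmul_eq_mul]
    have h7 : univ \ G' = ({l : L | l ∉ G'} : Finset L) := by
      ext l
      simp
    rw [h7]
    ring
  have h8 : (FF I J' f' : ℝ) = (∑ l ∈ univ \ G', (dd I J' f' l : ℝ)) +
      ((∑ l ∈ G' \ G, (dd I J' f' l : ℝ)) + ∑ l ∈ G, (dd I J' f' l : ℝ)) := by
    rw [sum_sdiff hGG', sum_sdiff (subset_univ G'), FF]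
    push_cast
    rfl
  have h9 : #(G' \ G) ≤ #{l : L | l ∉ G} := by
    apply card_le_card
    intro l hl
    rw [mem_filter]
    exact ⟨mem_univ _, (mem_sdiff.mp hl).2⟩
  have h9' : (#(G' \ G) : ℝ) ≤ #{l : L | l ∉ G} := by exact_mod_cast h9
  have h10 : ((q : ℝ) + 1) * #{l : L | l ∉ G'} ≤ 64 * #B := by exact_mod_cast hG'
  have h11 : ((q : ℝ) + 1) * #Z ≤ 64 * #{l : L | l ∉ G} := by exact_mod_cast hZ
  have h12 := FSTM.numeric q #B #{l : L | l ∉ G} #(G' \ G) (FF I J' f' : ℝ) hq hB hG h9 (by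
    have h13 : κ * (#(G' \ G) : ℝ) ≤ κ * #{l : L | l ∉ G} := mul_le_mul_of_nonneg_left h9' hκ
    rw [h8, ← hκdef]
    linarith)
  exact_mod_cast h12

end Pool.Agent.Lib.MP595dad.NR
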