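import Pool.Agent.Lib.MP_595dad_co.NR.SpecB

/-!
# MP_595dad_co, module FW4: no flag of a good point and a good line is lost, with many exact lines
-/

set_option autoImplicit false
set_option linter.unusedSectionVars false

namespace Pool.Agent.Lib.MP595dad.NR

open Finset
open scoped Classical

universe u

namespace FW4M

variable {P L M : Type u} [Fintype P] [Fintype L] [Fintype M]

theorem defect_card (I : P → L → Prop) (J : P → M → Prop) (f : L → M) {D : ℝ} :
    D * (#({K : L | D ≤ (dd I J f K : ℝ)} : Finset L) : ℝ) ≤ (FF I J f : ℝ) := by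
  unfold FF
  rw [Nat.cast_sum, mul_comm, ← nsmul_eq_mul]
  have h1 : #({K : L | D ≤ (dd I J f K : ℝ)} : Finset L) • D ≤
      ∑ K ∈ ({K : L | D ≤ (dd I J f K : ℝ)} : Finset L), (dd I J f K : ℝ) :=
    card_nsmul_le_sum _ _ _ fun K hK => (mem_filter.1 hK).2
  refine h1.trans ?_
  exact sum_le_sum_of_subset_of_nonneg (subset_univ _) fun K _ _ => Nat.cast_nonneg _

/-- the points of `B` on distinct lines through a point off `B` -/
theorem sum_ss {I : P → L → Prop} {q : ℕ} (hI : Pln I q) (B : Finset P) {x : P} (hx : x ∉ B)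
    (Z : Finset P) (N : P → L) (hN : ∀ z ∈ Z, I x (N z))
    (hinj : ∀ z ∈ Z, ∀ z' ∈ Z, N z = N z' → z = z') :
    ∑ z ∈ Z, ss I B (N z) ≤ #B := by
  have e : ∑ z ∈ Z, ss I B (N z) = ∑ y ∈ B, #{z ∈ Z | I y (N z)} := by
    simp only [ss, card_filter]
    exact sum_comm
  rw [e, card_eq_sum_ones]
  refine sum_le_sum fun y hy => ?_
  rw [card_le_one]
  intro z hz z' hz'
  rw [mem_filter] at hz hz'
  refine hinj z hz.1 z' hz'.1 ?_
  exact hI.line_eq (show y ≠ x from fun h => hx (h ▸ hy)) hz.2 (hN z hz.1) hz'.2 (hN z' hz'.1)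

end FW4M

open FW4M in
theorem specFW4 (hINJ : SpecINJ.{u}) (hWIT : SpecWIT.{u}) (hEXF : SpecEXF.{u}) :
    SpecFW4.{u} := by
  intro P L M _ _ _ I J q hI hJ f B D hD h8 hexact hF x l hxB hl hss hxl
  by_contra hxf
  obtain ⟨Z, N, hZ, hN, hNinj⟩ := hWIT P L M I J q hI hJ f x l hl hxl hxf
  rw [mem_badL] at hl
  have hδ : ∀ z, z ∉ B → 8 * dl I J f q z < q + 1 := by
    intro z hz
    by_contra h
    exact hz (h8 z (by omega))
  have hδx := hδ x hxB
  -- the old line through two points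
  have hjn : ∀ y z : P, ∃ K : L, y ≠ z → I y K ∧ I z K := by
    intro y z
    by_cases h : y = z
    · exact ⟨l, fun h' => absurd h h'⟩
    · obtain ⟨K, h1, h2⟩ := hI.join y z h
      exact ⟨K, fun _ => ⟨h1, h2⟩⟩
  choose jn hjn using hjn
  -- the points of `Z` off `B`
  set Z' : Finset P := {z ∈ Z | z ∉ B} with hZ'
  have hZ'mem : ∀ z, z ∈ Z' ↔ z ∈ Z ∧ z ∉ B := by
    intro z
    rw [hZ', mem_filter]
  have hZZ' : #Z ≤ #Z' + ss I B l := by
    unfold ss
    refine le_trans (card_le_card ?_) (card_union_le _ _)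
    intro z hz
    rw [mem_union, hZ'mem, mem_filter]
    by_cases h : z ∈ B
    · exact Or.inr ⟨h, (hN z hz).1⟩
    · exact Or.inl ⟨hz, h⟩
  let S : P → Finset P := fun z => {y : P | (I y (N z) ∧ J y (f (N z))) ∧ y ≠ x ∧ y ∉ B ∧
    jn y z ∉ badL I J f q ∧ J z (f (jn y z))}
  have hSmem : ∀ z y, y ∈ S z ↔ (I y (N z) ∧ J y (f (N z))) ∧ y ≠ x ∧ y ∉ B ∧
      jn y z ∉ badL I J f q ∧ J z (f (jn y z)) := by
    intro z y
    simp only [S, mem_filter, mem_univ, true_and]
  have hScard : ∀ z ∈ Z', 5 * q ≤ 8 * (#(S z) + ss I B (N z)) := by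
    intro z hz
    obtain ⟨hzZ, hzB⟩ := (hZ'mem z).1 hz
    obtain ⟨-, -, h3, h4, h5, -, h7⟩ := hN z hzZ
    have h6 := hI.split J f (N z)
    have hδz := hδ z hzB
    -- the bad choices
    have hbad : #({y : P | I y (N z) ∧ (jn y z ∈ badL I J f q ∨ ¬ J z (f (jn y z)))} : Finset P) ≤
        dl I J f q z := by
      unfold dl
      have hyz : ∀ y, I y (N z) → y ≠ z := fun y hy h => h7 (h ▸ hy)
      refine card_le_card_of_injOn (fun y => jn y z) ?_ ?_
      · intro y hy
        rw [mem_coe, mem_filter] at hy ⊢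
        exact ⟨mem_univ _, (hjn y z (hyz y hy.2.1)).2, hy.2.2⟩
      · intro y hy y' hy' h
        rw [mem_coe, mem_filter] at hy hy'
        obtain ⟨k1, k2⟩ := hjn y z (hyz y hy.2.1)
        obtain ⟨l1, l2⟩ := hjn y' z (hyz y' hy'.2.1)
        have h : jn y z = jn y' z := h
        have hKN : jn y z ≠ N z := by
          intro e
          rw [e] at k2
          exact h7 k2
        exact hI.point_eq hKN k1 (by rw [h]; exact l1) hy.2.1 hy'.2.1
    have hsub : ({y : P | I y (N z) ∧ J y (f (N z))} : Finset P) ⊆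
        ((S z ∪ {x}) ∪ ({y ∈ B | I y (N z)} : Finset P)) ∪
        ({y : P | I y (N z) ∧ (jn y z ∈ badL I J f q ∨ ¬ J z (f (jn y z)))} : Finset P) := by
      intro y hy
      rw [mem_filter] at hy
      simp only [mem_union, mem_singleton, hSmem, mem_filter, mem_univ, true_and]
      by_cases c1 : y = x
      · exact Or.inl (Or.inl (Or.inr c1))
      by_cases c2 : y ∈ B
      · exact Or.inl (Or.inr ⟨c2, hy.2.1⟩)
      by_cases c3 : jn y z ∈ badL I J f q
      · exact Or.inr ⟨hy.2.1, Or.inl c3⟩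
      by_cases c4 : J z (f (jn y z))
      · exact Or.inl (Or.inl (Or.inl ⟨hy.2, c1, c2, c3, c4⟩))
      · exact Or.inr ⟨hy.2.1, Or.inr c4⟩
    have h9 := card_le_card hsub
    have h10 : #(((S z ∪ {x}) ∪ ({y ∈ B | I y (N z)} : Finset P)) ∪
        ({y : P | I y (N z) ∧ (jn y z ∈ badL I J f q ∨ ¬ J z (f (jn y z)))} : Finset P)) ≤
        #(S z) + 1 + ss I B (N z) + dl I J f q z := by
      refine (card_union_le _ _).trans (add_le_add ((card_union_le _ _).trans
        (add_le_add ((card_union_le _ _).trans ?_) ?_)) hbad)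
      · rw [card_singleton]
      · exact le_refl _
    rw [mem_badL] at h3
    omega
  -- the injection
  have hne : ∀ z ∈ Z, ∀ y ∈ S z, y ≠ z := by
    intro z hz y hy h
    obtain ⟨-, -, -, -, -, -, h7⟩ := hN z hz
    rw [h] at hy
    exact h7 ((hSmem z z).1 hy).1.1
  have hcard : #(Z'.sigma S) ≤ #({K : L | D ≤ (dd I J f K : ℝ)} : Finset L) := by
    refine card_le_card_of_injOn (fun p => jn p.2 p.1) ?_ ?_
    · rintro ⟨z, y⟩ hp
      rw [mem_coe, mem_sigma] at hp
      obtain ⟨hz', hy⟩ := hp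
      obtain ⟨hz, hzB⟩ := (hZ'mem z).1 hz'
      obtain ⟨h1, h2, h3, h4, h5, h6, h7⟩ := hN z hz
      obtain ⟨h8', h9, h10, h11, h12⟩ := (hSmem z y).1 hy
      obtain ⟨k1, k2⟩ := hjn y z (hne z hz y hy)
      rw [mem_coe, mem_filter]
      refine ⟨mem_univ _, ?_⟩
      change D ≤ (dd I J f (jn y z) : ℝ)
      have hyf : ¬ J y (f (jn y z)) := by
        intro hcon
        have e1 := hJ.line_eq (hne z hz y hy) hcon h12 h8'.2 h6
        have e2 := hINJ P L M I J q hI hJ f (jn y z) (N z) h11 h3 e1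
        rw [e2] at k2
        exact h7 k2
      have h13 := hEXF P L M I J q hI hJ f y (jn y z) k1 hyf
      have h14 : D ≤ (#{k : L | I y k ∧ dd I J f k = 0} : ℝ) := by
        by_contra hcon
        exact h10 (hexact y (not_le.1 hcon))
      refine h14.trans ?_
      exact_mod_cast h13
    · rintro ⟨z, y⟩ hp ⟨z', y'⟩ hp' h
      rw [mem_coe, mem_sigma] at hp hp'
      obtain ⟨hz0, hy⟩ := hp
      obtain ⟨hz0', hy'⟩ := hp'
      have hz := ((hZ'mem z).1 hz0).1
      have hz' := ((hZ'mem z').1 hz0').1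
      have h : jn y z = jn y' z' := h
      obtain ⟨h1, h2, h3, h4, h5, h6, h7⟩ := hN z hz
      obtain ⟨g1, -, -, g4, -, -, g7⟩ := hN z' hz'
      obtain ⟨h8', h9, -⟩ := (hSmem z y).1 hy
      obtain ⟨g8, g9, -⟩ := (hSmem z' y').1 hy'
      obtain ⟨k1, k2⟩ := hjn y z (hne z hz y hy)
      obtain ⟨l1, l2⟩ := hjn y' z' (hne z' hz' y' hy')
      have hKl : jn y z ≠ l := by
        intro e
        rw [e] at k1
        have e2 : l = N z := hI.line_eq h9 k1 hxl h8'.1 h4
        rw [e2] at h1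
        exact h7 h1
      have hzz : z = z' := hI.point_eq hKl k2 (by rw [h]; exact l2) h1 g1
      subst hzz
      have hKN : jn y z ≠ N z := by
        intro e
        rw [e] at k2
        exact h7 k2
      have hyy : y = y' := hI.point_eq hKN k1 (by rw [h]; exact l1) h8'.1 g8.1
      subst hyy
      rfl
  rw [card_sigma] at hcard
  have hsB := sum_ss hI B hxB Z' N (fun z hz => (hN z ((hZ'mem z).1 hz).1).2.2.2.1)
    (fun z hz z' hz' h => hNinj z ((hZ'mem z).1 hz).1 z' ((hZ'mem z').1 hz').1 h)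
  have hsum : #Z' * (5 * q) ≤ 8 * (∑ z ∈ Z', #(S z) + ∑ z ∈ Z', ss I B (N z)) := by
    rw [← sum_add_distrib, mul_sum, ← smul_eq_mul, ← sum_const]
    exact sum_le_sum hScard
  have hZc : 3 * q + 8 ≤ 8 * #Z' := by omega
  have h1 : (3 * q + 8) * (5 * q) ≤
      64 * (#({K : L | D ≤ (dd I J f K : ℝ)} : Finset L) + #B) := by
    calc (3 * q + 8) * (5 * q) ≤ (8 * #Z') * (5 * q) := Nat.mul_le_mul_right _ hZc
      _ = 8 * (#Z' * (5 * q)) := by ring
      _ ≤ 8 * (8 * (∑ z ∈ Z', #(S z) + ∑ z ∈ Z', ss I B (N z))) := Nat.mul_le_mul_left _ hsum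
      _ ≤ 8 * (8 * (#({K : L | D ≤ (dd I J f K : ℝ)} : Finset L) + #B)) :=
        Nat.mul_le_mul_left _ (Nat.mul_le_mul_left _ (add_le_add hcard hsB))
      _ = 64 * (#({K : L | D ≤ (dd I J f K : ℝ)} : Finset L) + #B) := by ring
  have h2 := defect_card I J f (D := D)
  have h3 : ((3 * (q : ℝ) + 8) * (5 * q)) ≤
      64 * ((#({K : L | D ≤ (dd I J f K : ℝ)} : Finset L) : ℝ) + #B) := by
    exact_mod_cast h1
  have hq : (0 : ℝ) ≤ q := Nat.cast_nonneg q
  have h4 : 15 * ((q : ℝ) + 1) ^ 2 / 64 - 3 * (q + 1) / 8 - #B ≤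
      (#({K : L | D ≤ (dd I J f K : ℝ)} : Finset L) : ℝ) := by
    nlinarith
  have h5 := mul_le_mul_of_nonneg_left h4 hD
  linarith

end Pool.Agent.Lib.MP595dad.NR
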