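import Pool.Agent.Lib.MP_595dad_co.NR.SpecA

/-!
# MP_595dad_co, module FWD: no flag of a good point and a good line is lost
-/

set_option autoImplicit false
set_option linter.unusedSectionVars false

namespace Pool.Agent.Lib.MP595dad.NR

open Finset
open scoped Classical

universe u

namespace FWDM

variable {P L M : Type u} [Fintype P] [Fintype L] [Fintype M]

theorem defect_card (I : P → L → Prop) (J : P → M → Prop) (f : L → M) :
    #({K : L | 1 ≤ dd I J f K} : Finset L) ≤ FF I J f := by
  unfold FF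
  rw [card_eq_sum_ones, sum_filter]
  refine sum_le_sum fun K _ => ?_
  split_ifs with h
  · exact h
  · exact Nat.zero_le _

end FWDM

open FWDM in
theorem specFWD (hINJ : SpecINJ.{u}) (_ : SpecCNT.{u}) (hWIT : SpecWIT.{u}) : SpecFWD.{u} := by
  intro P L M _ _ _ I J q hI hJ f hF x l hx hl hxl
  by_contra hxf
  obtain ⟨Z, N, hZ, hN, hNinj⟩ := hWIT P L M I J q hI hJ f x l hl hxl hxf
  rw [mem_badL] at hl
  rw [mem_badP] at hx
  -- the old line through two points
  have hjn : ∀ y z : P, ∃ K : L, y ≠ z → I y K ∧ I z K := by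
    intro y z
    by_cases h : y = z
    · exact ⟨l, fun h' => absurd h h'⟩
    · obtain ⟨K, h1, h2⟩ := hI.join y z h
      exact ⟨K, fun _ => ⟨h1, h2⟩⟩
  choose jn hjn using hjn
  let S : P → Finset P := fun z => {y : P | (I y (N z) ∧ J y (f (N z))) ∧ y ≠ x}
  have hSmem : ∀ z y, y ∈ S z ↔ (I y (N z) ∧ J y (f (N z))) ∧ y ≠ x := by
    intro z y
    simp only [S, mem_filter, mem_univ, true_and]
  have hScard : ∀ z ∈ Z, 3 * q ≤ 4 * #(S z) := by
    intro z hz
    obtain ⟨-, -, h3, h4, h5, -, -⟩ := hN z hz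
    have h6 := hI.split J f (N z)
    have h7 : #{y : P | I y (N z) ∧ J y (f (N z))} = #(S z) + 1 := by
      have e : ({y : P | I y (N z) ∧ J y (f (N z))} : Finset P) = insert x (S z) := by
        ext y
        simp only [mem_insert, hSmem, mem_filter, mem_univ, true_and]
        constructor
        · intro h
          by_cases hy : y = x
          · exact Or.inl hy
          · exact Or.inr ⟨h, hy⟩
        · rintro (rfl | h)
          · exact ⟨h4, h5⟩
          · exact h.1
      rw [e, card_insert_of_notMem]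
      intro h
      exact ((hSmem z x).1 h).2 rfl
    rw [mem_badL] at h3
    omega
  -- the injection
  have hne : ∀ z ∈ Z, ∀ y ∈ S z, y ≠ z := by
    intro z hz y hy h
    obtain ⟨-, -, -, -, -, -, h7⟩ := hN z hz
    rw [h] at hy
    exact h7 ((hSmem z z).1 hy).1.1
  have hcard : #(Z.sigma S) ≤ #({K : L | 1 ≤ dd I J f K} : Finset L) := by
    refine card_le_card_of_injOn (fun p => jn p.2 p.1) ?_ ?_
    · rintro ⟨z, y⟩ hp
      rw [mem_coe, mem_sigma] at hp
      obtain ⟨hz, hy⟩ := hp
      obtain ⟨h1, h2, h3, h4, h5, h6, h7⟩ := hN z hz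
      obtain ⟨h8, h9⟩ := (hSmem z y).1 hy
      obtain ⟨k1, k2⟩ := hjn y z (hne z hz y hy)
      rw [mem_coe, mem_filter]
      refine ⟨mem_univ _, ?_⟩
      change 1 ≤ dd I J f (jn y z)
      by_contra h0
      have hd : dd I J f (jn y z) = 0 := by omega
      have hall : ∀ w : P, I w (jn y z) → J w (f (jn y z)) := by
        intro w hw
        by_contra hcon
        have hw' : w ∈ ({w : P | I w (jn y z) ∧ ¬ J w (f (jn y z))} : Finset P) := by
          rw [mem_filter]
          exact ⟨mem_univ _, hw, hcon⟩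
        unfold dd at hd
        rw [card_eq_zero] at hd
        rw [hd] at hw'
        exact absurd hw' (notMem_empty _)
      have e1 := hJ.line_eq (hne z hz y hy) (hall y k1) (hall z k2) h8.2 h6
      have e2 := hINJ P L M I J q hI hJ f (jn y z) (N z) (by rw [mem_badL]; omega) h3 e1
      rw [e2] at k2
      exact h7 k2
    · rintro ⟨z, y⟩ hp ⟨z', y'⟩ hp' h
      rw [mem_coe, mem_sigma] at hp hp'
      obtain ⟨hz, hy⟩ := hp
      obtain ⟨hz', hy'⟩ := hp'
      have h : jn y z = jn y' z' := h
      obtain ⟨h1, h2, h3, h4, h5, h6, h7⟩ := hN z hz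
      obtain ⟨g1, -, -, g4, -, -, g7⟩ := hN z' hz'
      obtain ⟨h8, h9⟩ := (hSmem z y).1 hy
      obtain ⟨g8, g9⟩ := (hSmem z' y').1 hy'
      obtain ⟨k1, k2⟩ := hjn y z (hne z hz y hy)
      obtain ⟨l1, l2⟩ := hjn y' z' (hne z' hz' y' hy')
      have hKl : jn y z ≠ l := by
        intro e
        rw [e] at k1
        have e2 : l = N z := hI.line_eq h9 k1 hxl h8.1 h4
        rw [e2] at h1
        exact h7 h1
      have hzz : z = z' := hI.point_eq hKl k2 (by rw [h]; exact l2) h1 g1
      subst hzz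
      have hKN : jn y z ≠ N z := by
        intro e
        rw [e] at k2
        exact h7 k2
      have hyy : y = y' := hI.point_eq hKN k1 (by rw [h]; exact l1) h8.1 g8.1
      subst hyy
      rfl
  rw [card_sigma] at hcard
  have hD := defect_card I J f
  have hsum : #Z * (3 * q) ≤ 4 * ∑ z ∈ Z, #(S z) := by
    rw [mul_sum, ← smul_eq_mul, ← sum_const]
    exact sum_le_sum hScard
  have hZc : q + 4 ≤ 4 * #Z := by omega
  have hq := hI.two
  have h1 : (q + 4) * (3 * q) ≤ 16 * FF I J f := by
    calc (q + 4) * (3 * q) ≤ (4 * #Z) * (3 * q) := Nat.mul_le_mul_right _ hZc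
      _ = 4 * (#Z * (3 * q)) := by ring
      _ ≤ 4 * (4 * ∑ z ∈ Z, #(S z)) := Nat.mul_le_mul_left _ hsum
      _ ≤ 4 * (4 * FF I J f) := by
        exact Nat.mul_le_mul_left _ (Nat.mul_le_mul_left _ (hcard.trans hD))
      _ = 16 * FF I J f := by ring
  nlinarith

end Pool.Agent.Lib.MP595dad.NR
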