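import Pool.Agent.Lib.MP_595dad_co.NR.SpecA

set_option autoImplicit false

namespace Pool.Agent.Lib.MP595dad.NR

open Finset
open scoped Classical

universe u

theorem specINJ : SpecINJ.{u} := by
  intro P L M _ _ _ I J q hI hJ f l m hl hm hf
  rw [mem_badL, not_le] at hl hm
  have h1 := hI.split J f l
  have h2 := hI.split J f m
  rw [← hf] at h2
  have h3 := hJ.size (f l)
  have hA : ({x : P | I x l ∧ J x (f l)} : Finset P) ⊆ ({x : P | J x (f l)} : Finset P) := by
    intro x hx
    exact mem_filter.2 ⟨mem_univ x, (mem_filter.1 hx).2.2⟩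
  have hB : ({x : P | I x m ∧ J x (f l)} : Finset P) ⊆ ({x : P | J x (f l)} : Finset P) := by
    intro x hx
    exact mem_filter.2 ⟨mem_univ x, (mem_filter.1 hx).2.2⟩
  have h4 := card_union_add_card_inter ({x : P | I x l ∧ J x (f l)} : Finset P)
    ({x : P | I x m ∧ J x (f l)} : Finset P)
  have h5 := card_le_card (union_subset hA hB)
  rw [h3] at h5
  have h6 : 1 < #(({x : P | I x l ∧ J x (f l)} : Finset P) ∩
      ({x : P | I x m ∧ J x (f l)} : Finset P)) := by
    have := hI.two
    omega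
  obtain ⟨x, hx, y, hy, hxy⟩ := one_lt_card.1 h6
  rw [mem_inter] at hx hy
  exact hI.line_eq hxy (mem_filter.1 hx.1).2.1 (mem_filter.1 hy.1).2.1 (mem_filter.1 hx.2).2.1
    (mem_filter.1 hy.2).2.1

end Pool.Agent.Lib.MP595dad.NR
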