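import Pool.Agent.Lib.MP_595dad_co.NR.SpecC

/-!
# Module LAM: the images of the lines under the perspectivity `A ↦ A'`
-/

set_option autoImplicit false
set_option linter.unusedSectionVars false

namespace Pool.Agent.Lib.MP595dad.NR

open Finset
open scoped Classical

universe u

namespace LAMM

variable {P L : Type u} [Fintype P] [Fintype L]

/-- the set `T` of the line `l` -/
noncomputable def T (I : P → L → Prop) (V : P) (a : L) (A : P) (l : L) : Finset P :=
  {B : P | Reg I V a B ∧ ¬ Col I V A B ∧ I B l}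

lemma mem_T {I : P → L → Prop} {V : P} {a : L} {A : P} {l : L} {B : P} :
    B ∈ T I V a A l ↔ Reg I V a B ∧ ¬ Col I V A B ∧ I B l := by
  simp [T]

lemma card_T {I : P → L → Prop} {q : ℕ} (hI : Pln I q) {V : P} {a : L} {A : P} {l : L}
    (hA : Reg I V a A) (hV : ¬ I V l) (hla : l ≠ a) : q - 1 ≤ #(T I V a A l) := by
  obtain ⟨X, hX1, hX2⟩ := hI.meet l a hla
  obtain ⟨k, hk1, hk2⟩ := hI.join V A (fun h => hA.1 h.symm)
  have hkl : k ≠ l := fun h => hV (h ▸ hk1)
  obtain ⟨Y, hY1, hY2⟩ := hI.meet k l hkl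
  have h1 : (({x : P | I x l} : Finset P) \ {X, Y}) ⊆ T I V a A l := by
    intro x hx
    simp only [mem_sdiff, mem_filter, mem_univ, true_and, mem_insert, mem_singleton,
      not_or] at hx
    obtain ⟨hxl, hxX, hxY⟩ := hx
    rw [mem_T]
    refine ⟨⟨fun h => hV (h ▸ hxl), fun h => hxX ?_⟩, ?_, hxl⟩
    · exact hI.point_eq hla hxl hX1 h hX2
    · rintro ⟨k', h1, h2, h3⟩
      have h4 : k' = k := hI.line_eq (fun h => hA.1 h.symm) h1 h2 hk1 hk2
      subst h4
      exact hxY (hI.point_eq hkl h3 hY1 hxl hY2)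
  have h2 := card_le_card h1
  have h3 : #({x : P | I x l} : Finset P) - #({X, Y} : Finset P) ≤
      #(({x : P | I x l} : Finset P) \ {X, Y}) := le_card_sdiff _ _
  rw [hI.size l] at h3
  have h4 : #({X, Y} : Finset P) ≤ 2 := card_le_two
  omega

/-- the image of one line -/
lemma one_line (hPEX : SpecPEX.{u}) {I : P → L → Prop} {q : ℕ} (hI : Pln I q) {V : P} {a : L}
    {A A' : P} (hA : Reg I V a A) (hA' : Reg I V a A') (hc : Col I V A A') {l : L}
    (hV : ¬ I V l) (hla : l ≠ a) :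
    ∃ m : L, m ≠ a ∧ (∀ X, I X a → I X l → I X m) ∧
      (I A l → I A' m ∧ ∀ B ∈ T I V a A l, I (pm I V a A A' B) m) ∧
      (q - 1) * #{B ∈ T I V a A l | ¬ I (pm I V a A A' B) m} ≤
        #{t : P × P | Fa I V a A A' t.1 t.2 ∧ t.1 ≠ t.2 ∧ I t.1 l ∧ I t.2 l} := by
  obtain ⟨X, hX1, hX2⟩ := hI.meet l a hla
  have hTr : ∀ B ∈ T I V a A l, Tr I V a A A' B (pm I V a A A' B) := by
    intro B hB
    rw [mem_T] at hB
    exact (hPEX P L I q hI V a).1 A A' B hA hA' hB.1 hc hB.2.1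
  have hpX : ∀ B ∈ T I V a A l, X ≠ pm I V a A A' B := by
    intro B hB h
    have h1 := (hTr B hB).2.2.2.1.2
    rw [← h] at h1
    exact h1 hX2
  have hcex : ∀ B : P, ∃ m : L, B ∈ T I V a A l → I X m ∧ I (pm I V a A A' B) m := by
    intro B
    by_cases hB : B ∈ T I V a A l
    · obtain ⟨m, hm⟩ := hI.join X _ (hpX B hB)
      exact ⟨m, fun _ => hm⟩
    · exact ⟨a, fun h => absurd h hB⟩
  choose c hc1 using hcex
  -- the line `c B` is the only line through `X` and `pm B`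
  have hcu : ∀ B ∈ T I V a A l, ∀ m, I X m → I (pm I V a A A' B) m → m = c B := by
    intro B hB m h1 h2
    exact hI.line_eq (hpX B hB) h1 h2 (hc1 B hB).1 (hc1 B hB).2
  have hTcard := card_T hI (A := A) hA hV hla
  have hq := hI.two
  have hTne : (T I V a A l).Nonempty := by
    rw [← card_pos]
    omega
  obtain ⟨B₀, hB₀, hmax⟩ := exists_max_image (T I V a A l)
    (fun B => #{C ∈ T I V a A l | c C = c B}) hTne
  refine ⟨c B₀, ?_, ?_, ?_, ?_⟩
  · intro h
    have h1 := (hc1 B₀ hB₀).2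
    rw [h] at h1
    exact (hTr B₀ hB₀).2.2.2.1.2 h1
  · intro X' h1 h2
    have h3 : X' = X := hI.point_eq hla h2 hX1 h1 hX2
    rw [h3]
    exact (hc1 B₀ hB₀).1
  · intro hAl
    have key : ∀ B ∈ T I V a A l, I A' (c B) := by
      intro B hB
      obtain ⟨X₁, m₁, m₂, h1, h2, h3, h4, h5, h6, h7⟩ := (hTr B hB).2.2.2.2.2.2.2
      have hB' := mem_T.mp hB
      have hAB : A ≠ B := by
        intro h
        apply hB'.2.1
        obtain ⟨k, hk1, hk2, _⟩ := hc
        exact ⟨k, hk1, hk2, h ▸ hk2⟩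
      have h8 : m₁ = l := hI.line_eq hAB h2 h3 hAl hB'.2.2
      rw [h8] at h4
      have h9 : X₁ = X := hI.point_eq hla h4 hX1 h1 hX2
      rw [h9] at h7
      rw [← hcu B hB m₂ h7 h6]
      exact h5
    have hA'X : A' ≠ X := fun h => hA'.2 (h ▸ hX2)
    have key2 : ∀ B ∈ T I V a A l, c B = c B₀ := by
      intro B hB
      exact hI.line_eq hA'X (key B hB) (hc1 B hB).1 (key B₀ hB₀) (hc1 B₀ hB₀).1
    refine ⟨key B₀ hB₀, fun B hB => ?_⟩
    rw [← key2 B hB]
    exact (hc1 B hB).2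
  · have h1 : #{B ∈ T I V a A l | ¬ I (pm I V a A A' B) (c B₀)} ≤
        #{B ∈ T I V a A l | ¬ c B = c B₀} := by
      apply card_le_card
      intro B hB
      rw [mem_filter] at hB ⊢
      refine ⟨hB.1, fun h => hB.2 ?_⟩
      rw [← h]
      exact (hc1 B hB.1).2
    have h2 : ∀ B ∈ T I V a A l, #{B ∈ T I V a A l | ¬ c B = c B₀} ≤
        #{C ∈ T I V a A l | ¬ c C = c B} := by
      intro B hB
      have h3 := card_filter_add_card_filter_not (s := T I V a A l) (fun C => c C = c B)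
      have h4 := card_filter_add_card_filter_not (s := T I V a A l) (fun C => c C = c B₀)
      have h5 := hmax B hB
      omega
    have h3 : (q - 1) * #{B ∈ T I V a A l | ¬ I (pm I V a A A' B) (c B₀)} ≤
        ∑ B ∈ T I V a A l, #{C ∈ T I V a A l | ¬ c C = c B} := by
      calc (q - 1) * #{B ∈ T I V a A l | ¬ I (pm I V a A A' B) (c B₀)}
          ≤ #(T I V a A l) * #{B ∈ T I V a A l | ¬ c B = c B₀} := Nat.mul_le_mul hTcard h1
        _ = ∑ B ∈ T I V a A l, #{B ∈ T I V a A l | ¬ c B = c B₀} := by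
            rw [sum_const, smul_eq_mul]
        _ ≤ _ := sum_le_sum h2
    refine h3.trans ?_
    rw [← card_sigma]
    apply card_le_card_of_injOn (fun s => (s.1, s.2))
    · rintro ⟨B, C⟩ hs
      simp only [coe_sigma, Set.mem_sigma_iff, mem_coe, mem_filter] at hs
      obtain ⟨hB, hC, hBC⟩ := hs
      have hB' := mem_T.mp hB
      have hC' := mem_T.mp hC
      have hne : B ≠ C := fun h => hBC (by rw [h])
      rw [mem_coe, mem_filter]
      refine ⟨mem_univ _, ⟨hA, hA', hB'.1, hC'.1, hc, hB'.2.1, hC'.2.1, ?_, ?_⟩, hne, hB'.2.2, hC'.2.2⟩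
      · rintro ⟨k, h1, h2, h3⟩
        have h4 : k = l := hI.line_eq hne h2 h3 hB'.2.2 hC'.2.2
        exact hV (h4 ▸ h1)
      · rintro ⟨X₁, m₁, m₂, h1, h2, h3, h4, h5, h6, h7⟩
        have h8 : m₁ = l := hI.line_eq hne h2 h3 hB'.2.2 hC'.2.2
        rw [h8] at h4
        have h9 : X₁ = X := hI.point_eq hla h4 hX1 h1 hX2
        rw [h9] at h7
        exact hBC ((hcu C hC m₂ h7 h6).symm.trans (hcu B hB m₂ h7 h5))
    · rintro ⟨B, C⟩ _ ⟨B', C'⟩ _ h
      simp only [Prod.mk.injEq] at h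
      obtain ⟨h1, h2⟩ := h
      subst h1 h2
      rfl

end LAMM

open LAMM in
theorem specLAM (hPEX : SpecPEX.{u}) : SpecLAM.{u} := by
  intro P L _ _ I q hI V a A A' hA hA' hc
  have hex : ∀ l : L, ∃ m : L, (¬ I V l → l ≠ a → m ≠ a ∧ (∀ X, I X a → I X l → I X m) ∧
      (I A l → I A' m ∧ ∀ B ∈ T I V a A l, I (pm I V a A A' B) m) ∧
      (q - 1) * #{B ∈ T I V a A l | ¬ I (pm I V a A A' B) m} ≤
        #{t : P × P | Fa I V a A A' t.1 t.2 ∧ t.1 ≠ t.2 ∧ I t.1 l ∧ I t.2 l}) ∧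
      (I V l ∨ l = a → m = l) := by
    intro l
    by_cases h : I V l ∨ l = a
    · refine ⟨l, ?_, fun _ => rfl⟩
      intro h1 h2
      rcases h with h | h
      · exact absurd h h1
      · exact absurd h h2
    · push Not at h
      obtain ⟨m, hm⟩ := one_line hPEX hI hA hA' hc h.1 h.2
      refine ⟨m, fun _ _ => hm, ?_⟩
      rintro (h1 | h1)
      · exact absurd h1 h.1
      · exact absurd h1 h.2
  choose lam hlam1 hlam2 using hex
  refine ⟨lam, fun l hl => hlam2 l (Or.inl hl), hlam2 a (Or.inr rfl),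
    fun l h1 h2 => ⟨(hlam1 l h1 h2).1, (hlam1 l h1 h2).2.1⟩, ?_, ?_⟩
  · intro l hAl hVl
    have hla : l ≠ a := fun h => hA.2 (h ▸ hAl)
    obtain ⟨h1, h2⟩ := (hlam1 l hVl hla).2.2.1 hAl
    exact ⟨h1, fun B hB hAB hBl => h2 B (mem_T.mpr ⟨hB, hAB, hBl⟩)⟩
  · rw [mul_sum]
    calc ∑ l ∈ ({l : L | ¬ I V l ∧ l ≠ a} : Finset L), (q - 1) *
          #{B : P | Reg I V a B ∧ ¬ Col I V A B ∧ I B l ∧ ¬ I (pm I V a A A' B) (lam l)}
        ≤ ∑ l ∈ ({l : L | ¬ I V l ∧ l ≠ a} : Finset L),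
          #{t : P × P | Fa I V a A A' t.1 t.2 ∧ t.1 ≠ t.2 ∧ I t.1 l ∧ I t.2 l} := by
          refine sum_le_sum fun l hl => ?_
          rw [mem_filter] at hl
          have h1 := (hlam1 l hl.2.1 hl.2.2).2.2.2
          have h2 : ({B : P | Reg I V a B ∧ ¬ Col I V A B ∧ I B l ∧
              ¬ I (pm I V a A A' B) (lam l)} : Finset P) =
              {B ∈ T I V a A l | ¬ I (pm I V a A A' B) (lam l)} := by
            ext B
            simp only [mem_filter, mem_univ, true_and, mem_T, and_assoc]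
          rw [h2]
          exact h1
      _ ≤ uu I V a A A' := by
          rw [← card_biUnion]
          · unfold uu
            apply card_le_card
            intro t ht
            rw [mem_biUnion] at ht
            obtain ⟨l, _, hl⟩ := ht
            rw [mem_filter] at hl ⊢
            exact ⟨mem_univ _, hl.2.1⟩
          · intro l _ m _ hlm
            change Disjoint _ _
            rw [disjoint_left]
            intro t h1 h2
            rw [mem_filter] at h1 h2
            exact hlm (hI.line_eq h1.2.2.1 h1.2.2.2.1 h1.2.2.2.2 h2.2.2.2.1 h2.2.2.2.2)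

end Pool.Agent.Lib.MP595dad.NR
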