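import Pool.Agent.Lib.MP_595dad_co.NR.SpecA

/-!
# MP_595dad_co, module LIN: from an isomorphism off `B` to a bijection of all the lines
-/

set_option autoImplicit false
set_option linter.unusedSectionVars false

namespace Pool.Agent.Lib.MP595dad.NR

open Finset
open scoped Classical

universe u

namespace LINM

variable {P L M : Type u} [Fintype P] [Fintype L] [Fintype M]

/-- the points of a line off `B` -/
theorem off_card {J : P → M → Prop} {q : ℕ} (hJ : Pln J q) (B : Finset P) (m : M) :
    q + 1 ≤ #{x : P | J x m ∧ x ∉ B} + #B := by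
  rw [← hJ.size m]
  have h1 : ({x : P | J x m} : Finset P) ⊆ ({x : P | J x m ∧ x ∉ B} : Finset P) ∪ B := by
    intro x hx
    rw [mem_union, mem_filter]
    by_cases hxB : x ∈ B
    · exact Or.inr hxB
    · exact Or.inl ⟨mem_univ _, (mem_filter.1 hx).2, hxB⟩
  exact (card_le_card h1).trans (card_union_le _ _)

/-- two different lines have at most one common point -/
theorem two_lines {J : P → M → Prop} {q : ℕ} (hJ : Pln J q) {m m' : M} (h : m ≠ m')
    (X : Finset P) (hX : ∀ x ∈ X, J x m) : #{x ∈ X | J x m'} ≤ 1 := by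
  rw [card_le_one]
  intro x hx y hy
  rw [mem_filter] at hx hy
  exact hJ.point_eq h (hX x hx.1) (hX y hy.1) hx.2 hy.2

theorem count_new {I : P → L → Prop} {J : P → M → Prop} {q : ℕ} (hI : Pln I q) (hJ : Pln J q)
    (f : L → M) (B : Finset P) (G : Finset L) (hinj : ∀ l ∈ G, ∀ m ∈ G, f l = f m → l = m)
    (hiff : ∀ x ∉ B, ∀ l ∈ G, (I x l ↔ J x (f l))) {x : P} (hx : x ∉ B) :
    #{k ∈ ({l : L | l ∉ G} : Finset L) | I x k} =
      #{m ∈ ({m : M | m ∉ G.image f} : Finset M) | J x m} := by
  have h1 : #{k ∈ G | I x k} + #{k ∈ ({l : L | l ∉ G} : Finset L) | I x k} = q + 1 := by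
    rw [← hI.deg x, ← card_union_of_disjoint]
    · congr 1
      ext k
      simp only [mem_union, mem_filter, mem_univ, true_and]
      tauto
    · rw [disjoint_left]
      intro k hk hk'
      simp only [mem_filter, mem_univ, true_and] at hk hk'
      exact hk'.1 hk.1
  have h2 : #{m ∈ G.image f | J x m} + #{m ∈ ({m : M | m ∉ G.image f} : Finset M) | J x m} =
      q + 1 := by
    rw [← hJ.deg x, ← card_union_of_disjoint]
    · congr 1
      ext k
      simp only [mem_union, mem_filter, mem_univ, true_and]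
      tauto
    · rw [disjoint_left]
      intro k hk hk'
      simp only [mem_filter, mem_univ, true_and] at hk hk'
      exact hk'.1 hk.1
  have h3 : #{m ∈ G.image f | J x m} = #{k ∈ G | I x k} := by
    have e : ({m ∈ G.image f | J x m} : Finset M) = ({k ∈ G | I x k} : Finset L).image f := by
      ext m
      simp only [mem_filter, mem_image]
      constructor
      · rintro ⟨⟨l, hl, rfl⟩, h⟩
        exact ⟨l, ⟨hl, (hiff x hx l hl).2 h⟩, rfl⟩
      · rintro ⟨l, ⟨hl, h⟩, rfl⟩
        exact ⟨⟨l, hl, rfl⟩, (hiff x hx l hl).1 h⟩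
    rw [e]
    refine card_image_of_injOn ?_
    intro l hl m hm h
    have hl' := (mem_filter.1 hl).1
    have hm' := (mem_filter.1 hm).1
    exact hinj l hl' m hm' h
  omega

theorem arith {t u β : ℕ} (h2 : 2 ≤ t) (htu : t ≤ u) (hβ : β + 2 ≤ u) (hβ1 : 1 ≤ β)
    (h : t * (u + 1 - t) ≤ u + (β - 1)) : t = u := by
  by_contra hne
  have htl : t + 1 ≤ u := by omega
  obtain ⟨a, rfl⟩ := Nat.exists_eq_add_of_le h2
  obtain ⟨c, rfl⟩ := Nat.exists_eq_add_of_le htl
  have e : 2 + a + 1 + c + 1 - (2 + a) = c + 2 := by omega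
  rw [e] at h
  have e2 : (2 + a) * (c + 2) = 4 + 2 * c + 2 * a + a * c := by ring
  rw [e2] at h
  have h5 := Nat.zero_le (a * c)
  omega

end LINM

open LINM in
theorem specLIN (hNP : SpecNP.{u}) : SpecLIN.{u} := by
  intro P L M _ _ _ I J q hI hJ f B G hinj hiff hb hb2
  -- the number of new lines outside the image
  have hW : #({m : M | m ∉ G.image f} : Finset M) = #{l : L | l ∉ G} := by
    have h1 : #G + #{l : L | l ∉ G} = q ^ 2 + q + 1 := by
      rw [← hI.cardL, ← card_univ, ← card_union_of_disjoint]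
      · congr 1
        ext k
        simp only [mem_union, mem_filter, mem_univ, true_and, iff_true]
        tauto
      · rw [disjoint_left]
        intro k hk hk'
        simp only [mem_filter, mem_univ, true_and] at hk'
        exact hk' hk
    have h2 : #(G.image f) + #({m : M | m ∉ G.image f} : Finset M) = q ^ 2 + q + 1 := by
      rw [← hJ.cardL, ← card_univ, ← card_union_of_disjoint]
      · congr 1
        ext k
        simp only [mem_union, mem_filter, mem_univ, true_and, iff_true]
        tauto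
      · rw [disjoint_left]
        intro k hk hk'
        simp only [mem_filter, mem_univ, true_and] at hk'
        exact hk' hk
    have h3 : #(G.image f) = #G := card_image_of_injOn fun l hl m hm h => hinj l hl m hm h
    omega
  -- the old line which belongs to a new line
  have hex : ∀ m : M, ∃ l : L, (m ∈ G.image f → l ∈ G ∧ f l = m) ∧ ∀ x ∉ B, J x m → I x l := by
    intro S
    by_cases hS : S ∈ G.image f
    · obtain ⟨l, hl, rfl⟩ := mem_image.1 hS
      exact ⟨l, fun _ => ⟨hl, rfl⟩, fun x hx h => (hiff x hx l hl).2 h⟩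
    set X : Finset P := {x : P | J x S ∧ x ∉ B} with hXdef
    have hXmem : ∀ x, x ∈ X ↔ J x S ∧ x ∉ B := by
      intro x
      rw [hXdef, mem_filter]
      simp
    have hXc := off_card hJ B S
    rw [← hXdef] at hXc
    have hSW : S ∈ ({m : M | m ∉ G.image f} : Finset M) := by
      rw [mem_filter]
      exact ⟨mem_univ _, hS⟩
    have hβ : 1 ≤ #{l : L | l ∉ G} := by
      rw [← hW]
      exact card_pos.2 ⟨S, hSW⟩
    obtain ⟨k, hk, h2, h3, h4, -⟩ := hNP P L X {l : L | l ∉ G} I (by omega)
      (by
        intro x hx y hy hxy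
        obtain ⟨l, h1, h2⟩ := hI.join x y hxy
        refine ⟨l, ?_, h1, h2⟩
        rw [mem_filter]
        refine ⟨mem_univ _, fun hl => hS ?_⟩
        have hx' := (hXmem x).1 hx
        have hy' := (hXmem y).1 hy
        have h5 := hJ.line_eq hxy ((hiff x hx'.2 l hl).1 h1) ((hiff y hy'.2 l hl).1 h2)
          hx'.1 hy'.1
        rw [← h5]
        exact mem_image_of_mem f hl)
      (fun x _ y _ hxy k _ k' _ h1 h2 h3 h4 => hI.line_eq hxy h1 h2 h3 h4)
    have hsum : ∑ x ∈ X, #{k ∈ ({l : L | l ∉ G} : Finset L) | I x k} ≤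
        #X + (#{l : L | l ∉ G} - 1) := by
      have e1 : ∑ x ∈ X, #{k ∈ ({l : L | l ∉ G} : Finset L) | I x k} =
          ∑ x ∈ X, rr J ({m : M | m ∉ G.image f} : Finset M) x :=
        sum_congr rfl fun x hx => count_new hI hJ f B G hinj hiff ((hXmem x).1 hx).2
      rw [e1, sum_rr_eq_sum_ss, ← add_sum_erase _ _ hSW]
      refine add_le_add (card_le_card (filter_subset _ _)) ?_
      rw [← hW, ← card_erase_of_mem hSW]
      have h5 : ∀ m ∈ ({m : M | m ∉ G.image f} : Finset M).erase S, ss J X m ≤ 1 := by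
        intro m hm
        exact two_lines hJ (mem_erase.1 hm).1.symm X fun x hx => ((hXmem x).1 hx).1
      exact (sum_le_card_nsmul _ _ 1 h5).trans (by simp)
    have ht : #{x ∈ X | I x k} = #X :=
      arith (β := #{l : L | l ∉ G}) h2 h3 (by omega) hβ (h4.trans hsum)
    refine ⟨k, fun h => absurd h hS, fun x hx hJx => ?_⟩
    have h6 : ({x ∈ X | I x k} : Finset P) = X := eq_of_subset_of_card_le (filter_subset _ _) ht.ge
    have h7 : x ∈ ({x ∈ X | I x k} : Finset P) := by
      rw [h6]
      exact (hXmem x).2 ⟨hJx, hx⟩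
    exact (mem_filter.1 h7).2
  choose κ hκ1 hκ2 using hex
  have hκinj : Function.Injective κ := by
    intro m m' h
    by_contra hne
    have h1 := off_card hJ B m
    have h2 := off_card hJ B m'
    have h3 : #(({x : P | J x m ∧ x ∉ B} : Finset P) ∪ ({x : P | J x m' ∧ x ∉ B} : Finset P)) ≤
        q + 1 := by
      rw [← hI.size (κ m)]
      refine card_le_card fun x hx => ?_
      rw [mem_filter]
      rcases mem_union.1 hx with hx | hx
      · rw [mem_filter] at hx
        exact ⟨mem_univ _, hκ2 m x hx.2.2 hx.2.1⟩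
      · rw [mem_filter] at hx
        rw [h]
        exact ⟨mem_univ _, hκ2 m' x hx.2.2 hx.2.1⟩
    have h4 : #(({x : P | J x m ∧ x ∉ B} : Finset P) ∩ ({x : P | J x m' ∧ x ∉ B} : Finset P)) ≤
        1 := by
      rw [card_le_one]
      intro x hx y hy
      simp only [mem_inter, mem_filter, mem_univ, true_and] at hx hy
      exact hJ.point_eq hne hx.1.1 hy.1.1 hx.2.1 hy.2.1
    have h5 := card_union_add_card_inter ({x : P | J x m ∧ x ∉ B} : Finset P)
      ({x : P | J x m' ∧ x ∉ B} : Finset P)
    omega
  have hκbij : Function.Bijective κ :=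
    (Fintype.bijective_iff_injective_and_card κ).2 ⟨hκinj, by rw [hI.cardL, hJ.cardL]⟩
  let e : M ≃ L := Equiv.ofBijective κ hκbij
  refine ⟨e.symm, fun l hl => ?_, fun x hx l => ?_⟩
  · rw [Equiv.symm_apply_eq]
    obtain ⟨h1, h2⟩ := hκ1 (f l) (mem_image_of_mem f hl)
    exact (hinj _ h1 l hl h2).symm
  · have h1 : ({m : M | J x m} : Finset M).image κ = ({l : L | I x l} : Finset L) := by
      refine eq_of_subset_of_card_le ?_ ?_
      · intro l hl
        obtain ⟨m, hm, rfl⟩ := mem_image.1 hl
        rw [mem_filter] at hm ⊢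
        exact ⟨mem_univ _, hκ2 m x hx hm.2⟩
      · rw [card_image_of_injective _ hκinj, hI.deg, hJ.deg]
    constructor
    · intro h
      have h2 : l ∈ ({m : M | J x m} : Finset M).image κ := by
        rw [h1, mem_filter]
        exact ⟨mem_univ _, h⟩
      obtain ⟨m, hm, hml⟩ := mem_image.1 h2
      have h3 : e.symm l = m := by
        rw [Equiv.symm_apply_eq]
        exact hml.symm
      rw [h3]
      exact (mem_filter.1 hm).2
    · intro h
      have h2 := hκ2 _ x hx h
      have h3 : κ (e.symm l) = l := e.apply_symm_apply l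
      rwa [h3] at h2

end Pool.Agent.Lib.MP595dad.NR
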