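import Pool.Agent.Lib.MP_595dad_co.NR.SpecB

/-!
# MP_595dad_co, module LN: a better map of the lines
-/

set_option autoImplicit false
set_option linter.unusedSectionVars false

namespace Pool.Agent.Lib.MP595dad.NR

open Finset
open scoped Classical

universe u

namespace LNM

variable {P L M : Type u} [Fintype P] [Fintype L] [Fintype M]

/-- the points of a line off `B` -/
theorem off_card {J : P → M → Prop} {q : ℕ} (hJ : Pln J q) (B : Finset P) (m : M) :
    #{x : P | J x m ∧ x ∉ B} + ss J B m = q + 1 := by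
  rw [← hJ.size m, ss, ← card_union_of_disjoint]
  · congr 1
    ext x
    simp only [mem_union, mem_filter, mem_univ, true_and]
    tauto
  · rw [disjoint_left]
    intro x hx hx'
    simp only [mem_filter, mem_univ, true_and] at hx hx'
    exact hx.2 hx'.1

/-- two different lines have at most one common point -/
theorem two_lines {J : P → M → Prop} {q : ℕ} (hJ : Pln J q) {m m' : M} (h : m ≠ m')
    (X : Finset P) (hX : ∀ x ∈ X, J x m) : #{x ∈ X | J x m'} ≤ 1 := by
  rw [card_le_one]
  intro x hx y hy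
  rw [mem_filter] at hx hy
  exact hJ.point_eq h (hX x hx.1) (hX y hy.1) hx.2 hy.2

theorem count_new {I : P → L → Prop} {J : P → M → Prop} {q : ℕ} (hI : Pln I q) (hJ : Pln J q)
    (f : L → M) (B : Finset P) (G : Finset L) (hinj : ∀ l ∈ G, ∀ m ∈ G, f l = f m → l = m)
    (hiff : ∀ x ∉ B, ∀ l ∈ G, (I x l ↔ J x (f l))) {x : P} (hx : x ∉ B) :
    #{k ∈ ({l : L | l ∉ G} : Finset L) | I x k} =
      #{m ∈ ({m : M | m ∉ G.image f} : Finset M) | J x m} := by
  have h1 : #{k ∈ G | I x k} + #{k ∈ ({l : L | l ∉ G} : Finset L) | I x k} = q + 1 := by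
    rw [← hI.deg x, ← card_union_of_disjoint]
    · congr 1
      ext k
      simp only [mem_union, mem_filter, mem_univ, true_and]
      tauto
    · rw [disjoint_left]
      intro k hk hk'
      simp only [mem_filter, mem_univ, true_and] at hk hk'
      exact hk'.1 hk.1
  have h2 : #{m ∈ G.image f | J x m} + #{m ∈ ({m : M | m ∉ G.image f} : Finset M) | J x m} =
      q + 1 := by
    rw [← hJ.deg x, ← card_union_of_disjoint]
    · congr 1
      ext k
      simp only [mem_union, mem_filter, mem_univ, true_and]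
      tauto
    · rw [disjoint_left]
      intro k hk hk'
      simp only [mem_filter, mem_univ, true_and] at hk hk'
      exact hk'.1 hk.1
  have h3 : #{m ∈ G.image f | J x m} = #{k ∈ G | I x k} := by
    have e : ({m ∈ G.image f | J x m} : Finset M) = ({k ∈ G | I x k} : Finset L).image f := by
      ext m
      simp only [mem_filter, mem_image]
      constructor
      · rintro ⟨⟨l, hl, rfl⟩, h⟩
        exact ⟨l, ⟨hl, (hiff x hx l hl).2 h⟩, rfl⟩
      · rintro ⟨l, ⟨hl, h⟩, rfl⟩
        exact ⟨⟨l, hl, rfl⟩, (hiff x hx l hl).1 h⟩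
    rw [e]
    refine card_image_of_injOn ?_
    intro l hl m hm h
    have hl' := (mem_filter.1 hl).1
    have hm' := (mem_filter.1 hm).1
    exact hinj l hl' m hm' h
  omega

/-- complements -/
theorem card_compl_add {T : Type u} [Fintype T] (G : Finset T) :
    #G + #({l : T | l ∉ G} : Finset T) = Fintype.card T := by
  rw [← card_univ, ← card_union_of_disjoint]
  · congr 1
    ext k
    simp only [mem_union, mem_filter, mem_univ, true_and, iff_true]
    tauto
  · rw [disjoint_left]
    intro k hk hk'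
    simp only [mem_filter, mem_univ, true_and] at hk'
    exact hk' hk

end LNM

open LNM in
theorem specLN (hDEV : SpecDEV.{u}) (hNPQ : SpecNPQ.{u}) : SpecLN.{u} := by
  intro P L M _ _ _ I J q hI hJ hq f B G hinj hiff hB hβ
  have hqR : (225 : ℝ) ≤ q := by exact_mod_cast hq
  set s : ℝ := √(q : ℝ) with hs
  have hs0 : 0 ≤ s := Real.sqrt_nonneg _
  have hss : s * s = q := Real.mul_self_sqrt (by linarith)
  have hs15 : 15 ≤ s := by
    rw [hs]
    apply Real.le_sqrt_of_sq_le
    linarith
  have hsq : s ≤ q := by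
    rw [← hss]
    nlinarith
  -- the number of new lines outside the image
  have hW : #({m : M | m ∉ G.image f} : Finset M) = #{l : L | l ∉ G} := by
    have h1 := card_compl_add G
    have h2 := card_compl_add (G.image f)
    rw [hI.cardL] at h1
    rw [hJ.cardL] at h2
    have h3 : #(G.image f) = #G := card_image_of_injOn fun l hl m hm h => hinj l hl m hm h
    omega
  -- the exceptional new lines
  set W₀ : Finset M := {m : M | m ∉ G.image f ∧ q + 1 ≤ 4 * ss J B m} with hW₀
  have hW₀mem : ∀ m, m ∈ W₀ ↔ m ∉ G.image f ∧ q + 1 ≤ 4 * ss J B m := by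
    intro m
    rw [hW₀, mem_filter]
    simp
  have hW₀c : (q + 1) * #W₀ ≤ 64 * #B := by
    have h1 := (hDEV M P (fun m x => J x m) q hJ.dual B).1 (by
      have h2 : (8 * (#B : ℝ)) ≤ ((q ^ 2 + q + 1 : ℕ) : ℝ) := by
        push_cast
        nlinarith
      exact_mod_cast h2)
    refine (Nat.mul_le_mul_left (q + 1) (card_le_card ?_)).trans h1
    intro m hm
    rw [mem_filter]
    exact ⟨mem_univ _, ((hW₀mem m).1 hm).2⟩
  have hLne : Nonempty L := by
    rw [← Fintype.card_pos_iff, hI.cardL]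
    omega
  have hMne : Nonempty M := by
    rw [← Fintype.card_pos_iff, hJ.cardL]
    omega
  obtain ⟨l₀⟩ := hLne
  obtain ⟨m₀⟩ := hMne
  -- the old line which belongs to a new line
  have hex : ∀ m : M, ∃ l : L, (m ∈ G.image f → l ∈ G ∧ f l = m) ∧
      (m ∉ G.image f → m ∉ W₀ → l ∉ G ∧ (#{x : P | J x m ∧ x ∉ B} : ℝ) ≤
        #{x ∈ ({x : P | J x m ∧ x ∉ B} : Finset P) | I x l} + (2 + 3 * s / 1000)) := by
    intro S
    by_cases hS : S ∈ G.image f
    · obtain ⟨l, hl, rfl⟩ := mem_image.1 hS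
      exact ⟨l, fun _ => ⟨hl, rfl⟩, fun h => absurd hS h⟩
    by_cases hS0 : S ∈ W₀
    · exact ⟨l₀, fun h => absurd h hS, fun _ h => absurd hS0 h⟩
    set X : Finset P := {x : P | J x S ∧ x ∉ B} with hXdef
    have hXmem : ∀ x, x ∈ X ↔ J x S ∧ x ∉ B := by
      intro x
      rw [hXdef, mem_filter]
      simp
    have hXc := off_card hJ B S
    rw [← hXdef] at hXc
    have hss4 : 4 * ss J B S < q + 1 := by
      by_contra h
      exact hS0 ((hW₀mem S).2 ⟨hS, by omega⟩)
    have hSW : S ∈ ({m : M | m ∉ G.image f} : Finset M) := by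
      rw [mem_filter]
      exact ⟨mem_univ _, hS⟩
    have hsum : ∑ x ∈ X, #{k ∈ ({l : L | l ∉ G} : Finset L) | I x k} ≤
        #X + #{l : L | l ∉ G} := by
      have e1 : ∑ x ∈ X, #{k ∈ ({l : L | l ∉ G} : Finset L) | I x k} =
          ∑ x ∈ X, rr J ({m : M | m ∉ G.image f} : Finset M) x :=
        sum_congr rfl fun x hx => count_new hI hJ f B G hinj hiff ((hXmem x).1 hx).2
      rw [e1, sum_rr_eq_sum_ss, ← add_sum_erase _ _ hSW]
      refine add_le_add (card_le_card (filter_subset _ _)) ?_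
      rw [← hW]
      have h5 : ∀ m ∈ ({m : M | m ∉ G.image f} : Finset M).erase S, ss J X m ≤ 1 := by
        intro m hm
        exact two_lines hJ (mem_erase.1 hm).1.symm X fun x hx => ((hXmem x).1 hx).1
      refine (sum_le_card_nsmul _ _ 1 h5).trans ?_
      rw [smul_eq_mul, mul_one]
      exact card_le_card (erase_subset _ _)
    obtain ⟨k, hk, h2⟩ := hNPQ P L X {l : L | l ∉ G} I q #{l : L | l ∉ G} hq (by omega) (by omega)
      hβ
      (by
        intro x hx y hy hxy
        obtain ⟨l, h1, h2⟩ := hI.join x y hxy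
        refine ⟨l, ?_, h1, h2⟩
        rw [mem_filter]
        refine ⟨mem_univ _, fun hl => hS ?_⟩
        have hx' := (hXmem x).1 hx
        have hy' := (hXmem y).1 hy
        have h5 := hJ.line_eq hxy ((hiff x hx'.2 l hl).1 h1) ((hiff y hy'.2 l hl).1 h2)
          hx'.1 hy'.1
        rw [← h5]
        exact mem_image_of_mem f hl)
      (fun x _ y _ hxy k _ k' _ h1 h2 h3 h4 => hI.line_eq hxy h1 h2 h3 h4) hsum
    exact ⟨k, fun h => absurd h hS, fun _ _ => ⟨(mem_filter.1 hk).2, h2⟩⟩
  choose K hK1 hK2 using hex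
  have hKinj : ∀ m, m ∉ W₀ → ∀ m', m' ∉ W₀ → K m = K m' → m = m' := by
    intro m hm m' hm' h
    by_cases h1 : m ∈ G.image f
    · have h3 := hK1 m h1
      by_cases h2 : m' ∈ G.image f
      · have h4 := hK1 m' h2
        rw [← h3.2, ← h4.2, h]
      · exact absurd (h ▸ h3.1) (hK2 m' h2 hm').1
    · by_cases h2 : m' ∈ G.image f
      · exact absurd (h.symm ▸ (hK1 m' h2).1) (hK2 m h1 hm).1
      · by_contra hne
        have a1 := (hK2 m h1 hm).2
        have a2 := (hK2 m' h2 hm').2
        have c1 := off_card hJ B m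
        have c2 := off_card hJ B m'
        have d1 : 4 * ss J B m < q + 1 := by
          by_contra h'
          exact hm ((hW₀mem m).2 ⟨h1, by omega⟩)
        have d2 : 4 * ss J B m' < q + 1 := by
          by_contra h'
          exact hm' ((hW₀mem m').2 ⟨h2, by omega⟩)
        rw [← h] at a2
        have b1 : #({x ∈ ({x : P | J x m ∧ x ∉ B} : Finset P) | I x (K m)} ∪
            {x ∈ ({x : P | J x m' ∧ x ∉ B} : Finset P) | I x (K m)}) ≤ q + 1 := by
          rw [← hI.size (K m)]
          refine card_le_card fun x hx => ?_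
          rw [mem_filter]
          rcases mem_union.1 hx with hx | hx
          · exact ⟨mem_univ _, (mem_filter.1 hx).2⟩
          · exact ⟨mem_univ _, (mem_filter.1 hx).2⟩
        have b2 : #({x ∈ ({x : P | J x m ∧ x ∉ B} : Finset P) | I x (K m)} ∩
            {x ∈ ({x : P | J x m' ∧ x ∉ B} : Finset P) | I x (K m)}) ≤ 1 := by
          rw [card_le_one]
          intro x hx y hy
          simp only [mem_inter, mem_filter, mem_univ, true_and] at hx hy
          exact hJ.point_eq hne hx.1.1.1 hy.1.1.1 hx.2.1.1 hy.2.1.1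
        have b3 := card_union_add_card_inter
          ({x ∈ ({x : P | J x m ∧ x ∉ B} : Finset P) | I x (K m)} : Finset P)
          ({x ∈ ({x : P | J x m' ∧ x ∉ B} : Finset P) | I x (K m)} : Finset P)
        have b4 : (#{x ∈ ({x : P | J x m ∧ x ∉ B} : Finset P) | I x (K m)} : ℝ) +
            #{x ∈ ({x : P | J x m' ∧ x ∉ B} : Finset P) | I x (K m)} ≤ q + 2 := by
          have : #{x ∈ ({x : P | J x m ∧ x ∉ B} : Finset P) | I x (K m)} +
            #{x ∈ ({x : P | J x m' ∧ x ∉ B} : Finset P) | I x (K m)} ≤ q + 2 := by omega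
          exact_mod_cast this
        have e1 : 3 * ((q : ℝ) + 1) ≤ 4 * #{x : P | J x m ∧ x ∉ B} := by
          have : 3 * (q + 1) ≤ 4 * #{x : P | J x m ∧ x ∉ B} := by omega
          exact_mod_cast this
        have e2 : 3 * ((q : ℝ) + 1) ≤ 4 * #{x : P | J x m' ∧ x ∉ B} := by
          have : 3 * (q + 1) ≤ 4 * #{x : P | J x m' ∧ x ∉ B} := by omega
          exact_mod_cast this
        nlinarith
  -- the new map
  set D : Finset M := {m : M | m ∉ W₀} with hD
  have hDmem : ∀ m, m ∈ D ↔ m ∉ W₀ := by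
    intro m
    rw [hD, mem_filter]
    simp
  obtain ⟨f', hf'⟩ : ∃ f' : L → M, ∀ l, f' l = if h : ∃ m, m ∉ W₀ ∧ K m = l then h.choose else m₀ :=
    ⟨_, fun _ => rfl⟩
  have hf'K : ∀ m, m ∉ W₀ → f' (K m) = m := by
    intro m hm
    have hex : ∃ m', m' ∉ W₀ ∧ K m' = K m := ⟨m, hm, rfl⟩
    rw [hf', dif_pos hex]
    exact hKinj _ hex.choose_spec.1 m hm hex.choose_spec.2
  have hGK : ∀ l ∈ G, f l ∉ W₀ ∧ K (f l) = l := by
    intro l hl
    have h1 : f l ∈ G.image f := mem_image_of_mem f hl
    refine ⟨fun h => ((hW₀mem _).1 h).1 h1, ?_⟩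
    have h2 := hK1 (f l) h1
    exact hinj _ h2.1 l hl h2.2
  refine ⟨f', D.image K, ?_, ?_, ?_, ?_, ?_⟩
  · intro l hl
    obtain ⟨h1, h2⟩ := hGK l hl
    exact mem_image.2 ⟨f l, (hDmem _).2 h1, h2⟩
  · intro l hl
    obtain ⟨h1, h2⟩ := hGK l hl
    have h3 := hf'K (f l) h1
    rwa [h2] at h3
  · intro l hl l' hl' h
    obtain ⟨m, hm, rfl⟩ := mem_image.1 hl
    obtain ⟨m', hm', rfl⟩ := mem_image.1 hl'
    rw [hf'K m ((hDmem m).1 hm), hf'K m' ((hDmem m').1 hm')] at h
    rw [h]
  · have h1 := card_compl_add (D.image K)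
    have h2 := card_compl_add W₀
    rw [hI.cardL] at h1
    rw [hJ.cardL, ← hD] at h2
    have h3 : #(D.image K) = #D := card_image_of_injOn fun m hm m' hm' h =>
      hKinj m ((hDmem m).1 hm) m' ((hDmem m').1 hm') h
    have h4 : #{l : L | l ∉ D.image K} = #W₀ := by omega
    rw [h4]
    exact hW₀c
  · intro l hl hlG
    obtain ⟨m, hm, rfl⟩ := mem_image.1 hl
    have hm' := (hDmem m).1 hm
    rw [hf'K m hm']
    have h1 : m ∉ G.image f := fun h => hlG (hK1 m h).1
    have h2 := (hK2 m h1 hm').2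
    have h3 : #{x : P | I x (K m) ∧ (x ∈ B ∨ ¬ J x m)} +
        #{x ∈ ({x : P | J x m ∧ x ∉ B} : Finset P) | I x (K m)} = q + 1 := by
      rw [← hI.size (K m), ← card_union_of_disjoint]
      · congr 1
        ext x
        simp only [mem_union, mem_filter, mem_univ, true_and]
        tauto
      · rw [disjoint_left]
        intro x hx hx'
        simp only [mem_filter, mem_univ, true_and] at hx hx'
        rcases hx.2 with h | h
        · exact hx'.1.2 h
        · exact h hx'.1.1
    have h4 := off_card hJ B m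
    have h5 : (#{x : P | I x (K m) ∧ (x ∈ B ∨ ¬ J x m)} : ℝ) +
        #{x ∈ ({x : P | J x m ∧ x ∉ B} : Finset P) | I x (K m)} = q + 1 := by
      exact_mod_cast h3
    have h6 : (#{x : P | J x m ∧ x ∉ B} : ℝ) + ss J B m = q + 1 := by
      exact_mod_cast h4
    linarith

end Pool.Agent.Lib.MP595dad.NR
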