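import Pool.Agent.Lib.MP_595dad_co.NR.SpecB

/-!
# MOV: the number of moved points of an isomorphism near a matching
-/

set_option autoImplicit false
set_option linter.unusedSectionVars false

namespace Pool.Agent.Lib.MP595dad.NR

open Finset
open scoped Classical

universe u

namespace MOVM

/-- the final numerical contradiction -/
lemma num (q a b F S s : ℝ) (hq : 225 ≤ q) (hs : s = √q) (ha : 1 ≤ a)
    (h1 : 1000 * a ≤ q * s) (h2 : 10 * F < (q + 1) * a) (h3 : (q + 1) * b ≤ 4 * F + 64 * a)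
    (h4 : q * a ≤ F + S) (h5 : S ≤ a * b / q + √(q * a * b)) : False := by
  have hs0 : 0 ≤ s := by rw [hs]; exact Real.sqrt_nonneg _
  have hs2 : s * s = q := by rw [hs]; exact Real.mul_self_sqrt (by linarith)
  have hs15 : 15 ≤ s := by nlinarith
  have hb1 : b ≤ 0.69 * a := by
    have h6 : (q + 1) * b ≤ (q + 1) * (0.69 * a) := by nlinarith
    exact le_of_mul_le_mul_left h6 (by linarith)
  have h6 : √(q * a * b) ≤ 0.84 * (s * a) := by
    rw [Real.sqrt_le_left (by positivity)]
    have h7 : q * a * b ≤ q * a * (0.69 * a) := mul_le_mul_of_nonneg_left hb1 (by nlinarith)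
    have h8 : 0 ≤ s * s * (a * a) := by positivity
    have h9 : (0.84 * (s * a)) ^ 2 = 0.7056 * (s * s * (a * a)) := by ring
    rw [h9]
    have h10 : q * a * (0.69 * a) = 0.69 * (s * s * (a * a)) := by rw [hs2]; ring
    linarith
  have h7 : s * 15 ≤ q := by nlinarith
  have h8 : a * b / q ≤ 0.001 * (q * a) := by
    rw [div_le_iff₀ (by linarith)]
    have h9 : a * b ≤ a * (0.69 * a) := mul_le_mul_of_nonneg_left hb1 (by linarith)
    have h10 : a * (1000 * a) ≤ a * (q * s) := mul_le_mul_of_nonneg_left h1 (by linarith)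
    have h11 : a * (q * s) ≤ a * (q * q) :=
      mul_le_mul_of_nonneg_left (mul_le_mul_of_nonneg_left (by linarith) (by linarith))
        (by linarith)
    have h12 : 0 ≤ a * (q * q) := by positivity
    nlinarith
  have h9 : s * a * 15 ≤ q * a := by nlinarith
  have h10 : 0 < q * a := by nlinarith
  have h11 : a ≤ q * a / 225 := by nlinarith
  linarith

end MOVM

open MOVM in
theorem specMOV (hDEV : SpecDEV.{u}) : SpecMOV.{u} := by
  intro P L M _ _ _ I J q hI hJ hq f g τ hiso hA1
  by_contra hcon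
  rw [not_le] at hcon
  obtain ⟨A, hAdef⟩ : ∃ A : Finset P, A = ({x : P | g x ≠ x} : Finset P) := ⟨_, rfl⟩
  rw [← hAdef] at hcon hA1
  have hmA : ∀ x, x ∈ A ↔ g x ≠ x := by intro x; rw [hAdef]; simp
  obtain ⟨H, hHdef⟩ : ∃ H : Finset L, H = ({l : L | τ.symm (f l) ≠ l} : Finset L) :=
    ⟨_, rfl⟩
  have hmH : ∀ l, l ∈ H ↔ τ.symm (f l) ≠ l := by intro l; rw [hHdef]; simp
  have key : ∀ x l, J x (f l) ↔ I (g.symm x) (τ.symm (f l)) := by
    intro x l
    rw [hiso, Equiv.apply_symm_apply, Equiv.apply_symm_apply]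
  have hgs : ∀ x, x ∉ A → g.symm x = x := by
    intro x hx
    rw [hmA, not_not] at hx
    rw [Equiv.symm_apply_eq]
    exact hx.symm
  have hgs' : ∀ x, x ∈ A → g.symm x ≠ x := by
    intro x hx h
    rw [hmA] at hx
    rw [Equiv.symm_apply_eq] at h
    exact hx h.symm
  -- (1)
  have hone : ∀ l ∈ H, 4 * ss I A l < q + 1 → q + 1 ≤ 4 * dd I J f l := by
    intro l hl h4
    have h1 : ({x : P | I x l} : Finset P) ⊆
        ({x ∈ A | I x l} ∪ ({x : P | I x l ∧ ¬ J x (f l)} : Finset P)) ∪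
          ({x : P | x ∉ A ∧ I x l ∧ J x (f l)} : Finset P) := by
      intro x hx
      simp only [mem_filter, mem_univ, true_and, mem_union] at hx ⊢
      by_cases h5 : x ∈ A
      · exact Or.inl (Or.inl ⟨h5, hx⟩)
      · by_cases h6 : J x (f l)
        · exact Or.inr ⟨h5, hx, h6⟩
        · exact Or.inl (Or.inr ⟨hx, h6⟩)
    have h2 : #({x : P | x ∉ A ∧ I x l ∧ J x (f l)} : Finset P) ≤ 1 := by
      rw [card_le_one]
      intro x hx y hy
      simp only [mem_filter, mem_univ, true_and] at hx hy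
      have h5 := (key x l).1 hx.2.2
      have h6 := (key y l).1 hy.2.2
      rw [hgs x hx.1] at h5
      rw [hgs y hy.1] at h6
      exact hI.point_eq ((hmH l).1 hl) h5 h6 hx.2.1 hy.2.1
    have h3 := (card_le_card h1).trans ((card_union_le _ _).trans
      (Nat.add_le_add_right (card_union_le _ _) _))
    rw [hI.size l] at h3
    have h4' : #{x ∈ A | I x l} = ss I A l := rfl
    have h5 : #{x : P | I x l ∧ ¬ J x (f l)} = dd I J f l := rfl
    have h6 := hI.two
    omega
  have hFb : (q + 1) * #{l : L | q + 1 ≤ 4 * dd I J f l} ≤ 4 * FF I J f := by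
    have h1 : #{l : L | q + 1 ≤ 4 * dd I J f l} • (q + 1) ≤
        ∑ l ∈ ({l : L | q + 1 ≤ 4 * dd I J f l} : Finset L), 4 * dd I J f l :=
      card_nsmul_le_sum _ _ _ fun l hl => by
        simpa using hl
    rw [smul_eq_mul, mul_comm] at h1
    refine h1.trans ?_
    unfold FF
    rw [mul_sum]
    exact sum_le_sum_of_subset (filter_subset _ _)
  have hn8 : 8 * #A ≤ q ^ 2 + q + 1 := by
    have h1 : √(q : ℝ) ≤ q := by
      rw [Real.sqrt_le_left (by positivity)]
      have : (225 : ℝ) ≤ q := by exact_mod_cast hq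
      nlinarith
    have h2 : (q : ℝ) * √(q : ℝ) ≤ q * q := mul_le_mul_of_nonneg_left h1 (by positivity)
    have h3 : (8 : ℝ) * #A ≤ (q : ℝ) ^ 2 + q + 1 := by
      have : (0 : ℝ) ≤ #A := Nat.cast_nonneg _
      have : (0 : ℝ) ≤ q := Nat.cast_nonneg _
      nlinarith
    exact_mod_cast h3
  have hD1 : (q + 1) * #{l : L | q + 1 ≤ 4 * ss I A l} ≤ 64 * #A :=
    (hDEV L P (fun l x => I x l) q hI.dual A).1 hn8
  have hHb : (q + 1) * #H ≤ 4 * FF I J f + 64 * #A := by
    have h1 : H ⊆ ({l : L | q + 1 ≤ 4 * dd I J f l} : Finset L) ∪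
        ({l : L | q + 1 ≤ 4 * ss I A l} : Finset L) := by
      intro l hl
      simp only [mem_union, mem_filter, mem_univ, true_and]
      by_cases h2 : q + 1 ≤ 4 * ss I A l
      · exact Or.inr h2
      · exact Or.inl (hone l hl (by omega))
    have h2 := (card_le_card h1).trans (card_union_le _ _)
    calc (q + 1) * #H ≤ (q + 1) * (#{l : L | q + 1 ≤ 4 * dd I J f l} +
          #{l : L | q + 1 ≤ 4 * ss I A l}) := Nat.mul_le_mul_left _ h2
      _ ≤ 4 * FF I J f + 64 * #A := by rw [mul_add]; exact Nat.add_le_add hFb hD1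
  -- (2)
  have htwo : ∀ x ∈ A, q + 1 ≤ #{l : L | I x l ∧ ¬ J x (f l)} + rr I H x + 1 := by
    intro x hx
    have h1 : ({l : L | I x l} : Finset L) ⊆
        (({l : L | I x l ∧ ¬ J x (f l)} : Finset L) ∪ {l ∈ H | I x l}) ∪
          ({l : L | l ∉ H ∧ I x l ∧ J x (f l)} : Finset L) := by
      intro l hl
      simp only [mem_filter, mem_univ, true_and, mem_union] at hl ⊢
      by_cases h5 : l ∈ H
      · exact Or.inl (Or.inr ⟨h5, hl⟩)
      · by_cases h6 : J x (f l)
        · exact Or.inr ⟨h5, hl, h6⟩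
        · exact Or.inl (Or.inl ⟨hl, h6⟩)
    have h2 : #({l : L | l ∉ H ∧ I x l ∧ J x (f l)} : Finset L) ≤ 1 := by
      rw [card_le_one]
      intro l hl m hm
      simp only [mem_filter, mem_univ, true_and] at hl hm
      have h5 := (key x l).1 hl.2.2
      have h6 := (key x m).1 hm.2.2
      have h7 : τ.symm (f l) = l := by
        by_contra h
        exact hl.1 ((hmH l).2 h)
      have h8 : τ.symm (f m) = m := by
        by_contra h
        exact hm.1 ((hmH m).2 h)
      rw [h7] at h5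
      rw [h8] at h6
      exact hI.line_eq (hgs' x hx) h5 hl.2.1 h6 hm.2.1
    have h3 := (card_le_card h1).trans ((card_union_le _ _).trans
      (Nat.add_le_add_right (card_union_le _ _) _))
    rw [hI.deg x] at h3
    have h4' : #{l ∈ H | I x l} = rr I H x := rfl
    omega
  have hFs : ∑ x ∈ A, #{l : L | I x l ∧ ¬ J x (f l)} ≤ FF I J f := by
    have h1 : FF I J f = ∑ x : P, #{l : L | I x l ∧ ¬ J x (f l)} := by
      unfold FF dd
      simp only [card_filter]
      exact sum_comm
    rw [h1]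
    exact sum_le_sum_of_subset (subset_univ _)
  have hsum : q * #A ≤ FF I J f + ∑ x ∈ A, rr I H x := by
    have h1 : ∑ _x ∈ A, (q + 1) ≤
        ∑ x ∈ A, (#{l : L | I x l ∧ ¬ J x (f l)} + rr I H x + 1) := sum_le_sum htwo
    rw [sum_const, smul_eq_mul, sum_add_distrib, sum_add_distrib, sum_const, smul_eq_mul,
      mul_one, Nat.mul_succ, mul_comm] at h1
    omega
  have hD2 := (hDEV P L I q hI H).2.1 A
  have ha1 : 1 ≤ #A := by
    by_contra h
    have h0 : #A = 0 := by omega
    rw [h0, mul_zero] at hcon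
    omega
  refine num (q : ℝ) (#A : ℝ) (#H : ℝ) (FF I J f : ℝ) (∑ x ∈ A, (rr I H x : ℝ)) (√(q : ℝ))
    (by exact_mod_cast hq) rfl (by exact_mod_cast ha1) hA1
    (by exact_mod_cast hcon) (by exact_mod_cast hHb) (by exact_mod_cast hsum) hD2

end Pool.Agent.Lib.MP595dad.NR
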