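import Pool.Agent.Lib.MP_595dad_co.NR.SpecA

set_option autoImplicit false
set_option linter.unusedSectionVars false

namespace Pool.Agent.Lib.MP595dad.NR

open Finset
open scoped Classical

universe u

theorem specNP : SpecNP.{u} := by
  intro α β X K R hX hjoin huniq
  obtain ⟨x₀, hx₀, y₀, hy₀, hxy₀⟩ := Finset.one_lt_card.1 (by omega : 1 < #X)
  obtain ⟨k₀, hk₀, hxk₀, hyk₀⟩ := hjoin x₀ hx₀ y₀ hy₀ hxy₀
  obtain ⟨k, hk, hmax⟩ := Finset.exists_max_image K (fun k => #{x ∈ X | R x k}) ⟨k₀, hk₀⟩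
  have h2 : 2 ≤ #{x ∈ X | R x k} := by
    refine le_trans ?_ (hmax k₀ hk₀)
    have h3 : ({x₀, y₀} : Finset α) ⊆ {x ∈ X | R x k₀} := by
      intro z hz
      rw [Finset.mem_insert, Finset.mem_singleton] at hz
      rcases hz with rfl | rfl
      · exact Finset.mem_filter.2 ⟨hx₀, hxk₀⟩
      · exact Finset.mem_filter.2 ⟨hy₀, hyk₀⟩
    calc 2 = #({x₀, y₀} : Finset α) := (Finset.card_pair hxy₀).symm
      _ ≤ _ := Finset.card_le_card h3
  have hle : #{x ∈ X | R x k} ≤ #X := Finset.card_filter_le _ _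
  refine ⟨k, hk, h2, hle, ?_, ?_⟩
  · -- first inequality
    set t := #{x ∈ X | R x k} with ht
    have hoff : ∀ x ∈ X, ¬ R x k → t ≤ #{k' ∈ K | R x k'} := by
      intro x hx hxk
      have hne : ∀ y ∈ ({x ∈ X | R x k} : Finset α), x ≠ y := by
        rintro y hy rfl
        exact hxk (Finset.mem_filter.1 hy).2
      have hch : ∀ y : α, ∃ k' : β, y ∈ ({x ∈ X | R x k} : Finset α) → (k' ∈ K ∧ R x k' ∧ R y k') := by
        intro y
        by_cases hy : y ∈ ({x ∈ X | R x k} : Finset α)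
        · obtain ⟨k', h1, h2, h3⟩ := hjoin x hx y (Finset.mem_filter.1 hy).1 (hne y hy)
          exact ⟨k', fun _ => ⟨h1, h2, h3⟩⟩
        · exact ⟨k, fun h => absurd h hy⟩
      choose g hg using hch
      rw [ht]
      refine Finset.card_le_card_of_injOn g ?_ ?_
      · intro y hy
        have h := hg y hy
        exact Finset.mem_coe.2 (Finset.mem_filter.2 ⟨h.1, h.2.1⟩)
      · intro y hy y' hy' hyy
        by_contra hcon
        have h := hg y hy
        have h' := hg y' hy'
        rw [← hyy] at h'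
        have h1 := Finset.mem_filter.1 hy
        have h1' := Finset.mem_filter.1 hy'
        have h4 := huniq y h1.1 y' h1'.1 hcon (g y) h.1 k hk h.2.2 h'.2.2 h1.2 h1'.2
        exact hxk (h4 ▸ h.2.1)
    have hon : ∀ x ∈ X, R x k → 1 ≤ #{k' ∈ K | R x k'} := by
      intro x _ hxk
      exact Finset.card_pos.2 ⟨k, Finset.mem_filter.2 ⟨hk, hxk⟩⟩
    have hsplit : ∑ x ∈ X, #{k' ∈ K | R x k'} =
        ∑ x ∈ X with R x k, #{k' ∈ K | R x k'} + ∑ x ∈ X with ¬ R x k, #{k' ∈ K | R x k'} :=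
      (Finset.sum_filter_add_sum_filter_not X (fun x => R x k) _).symm
    have hA : t ≤ ∑ x ∈ X with R x k, #{k' ∈ K | R x k'} := by
      calc t = ∑ _x ∈ X with R _x k, 1 := by rw [Finset.sum_const, smul_eq_mul, mul_one]
        _ ≤ _ := Finset.sum_le_sum fun x hx =>
          hon x (Finset.mem_filter.1 hx).1 (Finset.mem_filter.1 hx).2
    have hcard : #{x ∈ X | ¬ R x k} = #X - t := by
      have := Finset.card_filter_add_card_filter_not (s := X) (fun x => R x k)
      omega
    have hB : (#X - t) * t ≤ ∑ x ∈ X with ¬ R x k, #{k' ∈ K | R x k'} := by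
      calc (#X - t) * t = ∑ _x ∈ X with ¬ R _x k, t := by
            rw [Finset.sum_const, smul_eq_mul, hcard]
        _ ≤ _ := Finset.sum_le_sum fun x hx =>
          hoff x (Finset.mem_filter.1 hx).1 (Finset.mem_filter.1 hx).2
    rw [hsplit]
    have h5 : t * (#X + 1 - t) = t + (#X - t) * t := by
      have : #X + 1 - t = (#X - t) + 1 := by omega
      rw [this]
      ring
    omega
  · -- second inequality
    have hx : ∀ x ∈ X, #X - 1 ≤ (#{x ∈ X | R x k} - 1) * #{k' ∈ K | R x k'} := by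
      intro x hx
      have hsub : X.erase x ⊆ ({k' ∈ K | R x k'} : Finset β).biUnion
          (fun k' => ({y ∈ X | R y k'} : Finset α).erase x) := by
        intro y hy
        rw [Finset.mem_erase] at hy
        obtain ⟨k', h1, h2, h3⟩ := hjoin x hx y hy.2 (Ne.symm hy.1)
        rw [Finset.mem_biUnion]
        exact ⟨k', Finset.mem_filter.2 ⟨h1, h2⟩,
          Finset.mem_erase.2 ⟨hy.1, Finset.mem_filter.2 ⟨hy.2, h3⟩⟩⟩
      calc #X - 1 = #(X.erase x) := (Finset.card_erase_of_mem hx).symm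
        _ ≤ _ := Finset.card_le_card hsub
        _ ≤ ∑ k' ∈ ({k' ∈ K | R x k'} : Finset β), #(({y ∈ X | R y k'} : Finset α).erase x) :=
            Finset.card_biUnion_le
        _ ≤ ∑ _k' ∈ ({k' ∈ K | R x k'} : Finset β), (#{x ∈ X | R x k} - 1) := by
            refine Finset.sum_le_sum fun k' hk' => ?_
            rw [Finset.mem_filter] at hk'
            rw [Finset.card_erase_of_mem (Finset.mem_filter.2 ⟨hx, hk'.2⟩)]
            have := hmax k' hk'.1
            omega
        _ = (#{x ∈ X | R x k} - 1) * #{k' ∈ K | R x k'} := by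
            rw [Finset.sum_const, smul_eq_mul, mul_comm]
    calc #X * (#X - 1) = ∑ _x ∈ X, (#X - 1) := by rw [Finset.sum_const, smul_eq_mul]
      _ ≤ ∑ x ∈ X, (#{x ∈ X | R x k} - 1) * #{k' ∈ K | R x k'} := Finset.sum_le_sum hx
      _ = _ := by rw [Finset.mul_sum]

end Pool.Agent.Lib.MP595dad.NR
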