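import Pool.Agent.Lib.MP_595dad_co.NR.SpecB

/-!
# MP_595dad_co, module NPQ: the near pencil lemma, quantitative form
-/

set_option autoImplicit false
set_option linter.unusedSectionVars false

namespace Pool.Agent.Lib.MP595dad.NR

open Finset
open scoped Classical

universe u

namespace NPQM

theorem key (u t c s : ℝ) (hs : 15 ≤ s) (hu1 : 3 * (s ^ 2 + 1) < 4 * u) (_hu2 : u ≤ s ^ 2 + 1)
    (hc0 : 0 ≤ c) (hc : 1000 * c ≤ s ^ 3) (ht2 : 2 ≤ t) (htu : t ≤ u)
    (h1 : t * (u + 1 - t) ≤ u + c) (h2 : u * (u - 1) ≤ (t - 1) * (u + c)) :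
    u - t ≤ 2 + 3 * s / 1000 := by
  have hs0 : 0 < s := by linarith
  have hu : 169 < u := by nlinarith
  rcases le_or_gt (u + 1) (2 * t) with h3 | h3
  · by_contra hcon
    push Not at hcon
    have h4 : (u + 1 - t) * (u + 1) ≤ 2 * (u + c) := by nlinarith
    have h5 : (3 + 3 * s / 1000) * (u + 1) < 2 * (u + c) := by
      have : (3 + 3 * s / 1000) * (u + 1) < (u + 1 - t) * (u + 1) := by
        apply mul_lt_mul_of_pos_right _ (by linarith)
        linarith
      linarith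
    have h6 : s * (3 * (s ^ 2 + 1)) < s * (4 * u) := mul_lt_mul_of_pos_left hu1 hs0
    have h7 : s ^ 3 = s * s ^ 2 := by ring
    nlinarith
  · exfalso
    have h4 : t * (u + 1) < 2 * (u + c) := by
      have : t * ((u + 1) / 2) < t * (u + 1 - t) := by
        apply mul_lt_mul_of_pos_left _ (by linarith)
        linarith
      linarith
    have hcu : 750 * c ≤ s * u := by
      have h6 : s * (3 * (s ^ 2 + 1)) < s * (4 * u) := mul_lt_mul_of_pos_left hu1 hs0
      have h7 : s ^ 3 = s * s ^ 2 := by ring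
      nlinarith
    have huc : 0 < u + c := by linarith
    have h5 : u * (u - 1) * (u + 1) < 2 * (u + c) ^ 2 := by
      have h6 : u * (u - 1) * (u + 1) ≤ (t - 1) * (u + c) * (u + 1) :=
        mul_le_mul_of_nonneg_right h2 (by linarith)
      have h7 : (t - 1) * (u + c) * (u + 1) < t * (u + 1) * (u + c) := by nlinarith
      have h8 : t * (u + 1) * (u + c) < 2 * (u + c) * (u + c) :=
        mul_lt_mul_of_pos_right h4 huc
      nlinarith
    have h6 : 750 * (u + c) ≤ (750 + s) * u := by nlinarith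
    have h7 : (750 * (u + c)) ^ 2 ≤ ((750 + s) * u) ^ 2 := by
      apply pow_le_pow_left₀ (by linarith) h6
    have h8 : 750 ^ 2 * (u * (u - 1) * (u + 1)) < 2 * ((750 + s) * u) ^ 2 := by nlinarith
    have h9 : 750 ^ 2 * (u ^ 2 - 1) < 2 * (750 + s) ^ 2 * u := by
      have h10 : 750 ^ 2 * (u * (u - 1) * (u + 1)) = u * (750 ^ 2 * (u ^ 2 - 1)) := by ring
      have h11 : 2 * ((750 + s) * u) ^ 2 = u * (2 * (750 + s) ^ 2 * u) := by ring
      rw [h10, h11] at h8
      exact lt_of_mul_lt_mul_left h8 (by linarith)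
    -- `2 (750 + s) ^ 2 ≤ 2 * 51 ^ 2 * s ^ 2`
    have h12 : (750 + s) ^ 2 ≤ (51 * s) ^ 2 := by
      apply pow_le_pow_left₀ (by linarith)
      linarith
    have h13 : 2 * (750 + s) ^ 2 * u ≤ 2 * (51 * s) ^ 2 * u := by
      apply mul_le_mul_of_nonneg_right _ (by linarith)
      linarith
    have h14 : s ^ 2 < 4 / 3 * u := by linarith
    have h15 : 2 * (51 * s) ^ 2 * u ≤ 2 * 51 ^ 2 * (4 / 3 * u) * u := by
      apply mul_le_mul_of_nonneg_right _ (by linarith)
      nlinarith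
    nlinarith

end NPQM

open NPQM in
theorem specNPQ (hNP : SpecNP.{u}) : SpecNPQ.{u} := by
  intro α β X K R q c hq hX1 hX2 hc hex huq hsum
  have hX : 2 ≤ #X := by omega
  obtain ⟨k, hk, ht2, htu, h1, h2⟩ := hNP α β X K R hX hex huq
  refine ⟨k, hk, ?_⟩
  set t := #{x ∈ X | R x k} with ht
  set S := ∑ x ∈ X, #{k ∈ K | R x k} with hS
  have hs : (15 : ℝ) ≤ √(q : ℝ) := by
    rw [Real.le_sqrt' (by norm_num)]
    norm_num
    exact_mod_cast hq
  have hsq : √(q : ℝ) ^ 2 = q := Real.sq_sqrt (Nat.cast_nonneg q)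
  have e1 : (t : ℝ) * ((#X : ℝ) + 1 - t) ≤ #X + c := by
    have h3 : t * (#X + 1 - t) ≤ #X + c := h1.trans hsum
    have h4 : ((t * (#X + 1 - t) : ℕ) : ℝ) ≤ ((#X + c : ℕ) : ℝ) := by exact_mod_cast h3
    rw [Nat.cast_mul, Nat.cast_sub (by omega)] at h4
    push_cast at h4
    exact h4
  have e2 : (#X : ℝ) * ((#X : ℝ) - 1) ≤ ((t : ℝ) - 1) * (#X + c) := by
    have h3 : #X * (#X - 1) ≤ (t - 1) * (#X + c) := h2.trans (Nat.mul_le_mul_left _ hsum)
    have h4 : ((#X * (#X - 1) : ℕ) : ℝ) ≤ (((t - 1) * (#X + c) : ℕ) : ℝ) := by exact_mod_cast h3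
    rw [Nat.cast_mul, Nat.cast_mul, Nat.cast_sub (by omega), Nat.cast_sub (by omega)] at h4
    push_cast at h4
    exact h4
  have h5 := key (#X : ℝ) t c (√(q : ℝ)) hs (by
      rw [hsq]
      exact_mod_cast hX1) (by
      rw [hsq]
      exact_mod_cast hX2) (Nat.cast_nonneg c) (by
      have : √(q : ℝ) ^ 3 = q * √(q : ℝ) := by
        rw [pow_succ, hsq]
      rw [this]
      exact hc) (by exact_mod_cast ht2) (by exact_mod_cast htu) e1 e2
  linarith

end Pool.Agent.Lib.MP595dad.NR
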