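import Pool.Agent.Lib.MP_595dad_co.NR.SpecB

/-!
# MP_595dad_co, module NR: near isomorphisms
-/

set_option autoImplicit false

namespace Pool.Agent.Lib.MP595dad.NR

open Finset
open scoped Classical

universe u

namespace NRM

theorem num_s {q s E : ℝ} (hq : 2 ≤ q) (hs : 0 ≤ s) (hss : s * s = q)
    (hE : E ≤ q ^ 2 + q + 1) (h : 10 ^ 4 * (q * s) ≤ E) : 5000 ≤ s := by
  by_contra hcon
  rw [not_le] at hcon
  have h0 : 0 < s := by
    rcases hs.eq_or_lt with h1 | h1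
    · rw [← h1] at hss; linarith
    · exact h1
  have h1 : q ^ 2 + q + 1 ≤ 2 * q ^ 2 := by nlinarith
  have h2 : q < 5000 * s := by nlinarith
  have h3 : q * q < q * (5000 * s) := mul_lt_mul_of_pos_left h2 (by linarith)
  nlinarith

/-- the bound for the number of points with few exact lines -/
theorem num_one {q s E N : ℝ} (hq : 25000000 ≤ q) (hs : 0 < s) (hss : s * s = q) (hN : 0 ≤ N)
    (hE : 10 ^ 4 * (q * s) ≤ E)
    (h : N * E * (q + 1) ^ 2 ≤ 4 * q * (q ^ 2 + q + 1) ^ 2) : N ≤ 4004 / 10 ^ 7 * (q * s) := by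
  have hq0 : 0 < q := by linarith
  have h1 : N * (10 ^ 4 * (q * s)) * (q + 1) ^ 2 ≤ 4 * q * (q ^ 2 + q + 1) ^ 2 := by
    refine le_trans ?_ h
    exact mul_le_mul_of_nonneg_right (mul_le_mul_of_nonneg_left hE hN) (by positivity)
  have h2 : N * (10 ^ 4 * s) * (q + 1) ^ 2 ≤ 4 * (q ^ 2 + q + 1) ^ 2 := by
    have e1 : N * (10 ^ 4 * (q * s)) * (q + 1) ^ 2 = q * (N * (10 ^ 4 * s) * (q + 1) ^ 2) := by
      ring
    have e2 : 4 * q * (q ^ 2 + q + 1) ^ 2 = q * (4 * (q ^ 2 + q + 1) ^ 2) := by ring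
    rw [e1, e2] at h1
    exact le_of_mul_le_mul_left h1 hq0
  have h3 : (q ^ 2 + q + 1) ≤ (q + 1) ^ 2 := by nlinarith
  have h4 : 4 * (q ^ 2 + q + 1) ^ 2 ≤ 4 * (q ^ 2 + q + 1) * (q + 1) ^ 2 := by
    have : (0 : ℝ) ≤ 4 * (q ^ 2 + q + 1) := by positivity
    nlinarith [mul_le_mul_of_nonneg_left h3 this]
  have h5 : N * (10 ^ 4 * s) ≤ 4 * (q ^ 2 + q + 1) := by
    have h6 : (0 : ℝ) < (q + 1) ^ 2 := by positivity
    exact le_of_mul_le_mul_right (h2.trans h4) h6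
  have h7 : q ^ 2 + q + 1 ≤ 1001 / 1000 * q ^ 2 := by nlinarith
  have h8 : N * (10 ^ 4 * s) ≤ (4004 / 1000 * (q * s)) * s := by
    have e : (4004 / 1000 * (q * s)) * s = 4004 / 1000 * (q * (s * s)) := by ring
    rw [e, hss]
    nlinarith
  have h9 : N * 10 ^ 4 ≤ 4004 / 1000 * (q * s) := by
    have e : N * (10 ^ 4 * s) = N * 10 ^ 4 * s := by ring
    rw [e] at h8
    exact le_of_mul_le_mul_right h8 hs
  nlinarith

theorem num_two {q s F N : ℝ} (hq : 0 < q) (hN : 0 ≤ N) (hF : 10 ^ 5 * F ≤ q ^ 2 * s)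
    (h : (q + 1) * N ≤ 40 * F) : N ≤ 4 / 10 ^ 4 * (q * s) := by
  have h1 : q * N ≤ q * (4 / 10 ^ 4 * (q * s)) := by
    have e : q * (4 / 10 ^ 4 * (q * s)) = 4 / 10 ^ 4 * (q ^ 2 * s) := by ring
    rw [e]
    nlinarith
  exact le_of_mul_le_mul_left h1 hq

theorem num_T {q s : ℝ} (hs : 5000 ≤ s) (hss : s * s = q) : 5000 * (q * s) ≤ q ^ 2 := by
  have h1 : 5000 * s ≤ q := by nlinarith
  have hq : 0 ≤ q := by nlinarith
  nlinarith

theorem num_fw {q s F b : ℝ} (hq : 25000000 ≤ q) (hs : 5000 ≤ s) (hss : s * s = q)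
    (hF : 10 ^ 5 * F ≤ q ^ 2 * s) (hb : b ≤ 9 / 10 ^ 4 * (q * s)) :
    F < 1250 * s * (15 * (q + 1) ^ 2 / 64 - 3 * (q + 1) / 8 - b) := by
  have hT := num_T hs hss
  have h1 : q ^ 2 / 5 ≤ 15 * (q + 1) ^ 2 / 64 - 3 * (q + 1) / 8 - b := by nlinarith
  have h2 : 1250 * s * (q ^ 2 / 5) ≤ 1250 * s * (15 * (q + 1) ^ 2 / 64 - 3 * (q + 1) / 8 - b) :=
    mul_le_mul_of_nonneg_left h1 (by linarith)
  have h3 : 0 < q ^ 2 * s := by positivity
  nlinarith

theorem num_beta {q s F b β : ℝ} (hq : 25000000 ≤ q) (hs : 0 < s)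
    (hF : 10 ^ 5 * F ≤ q ^ 2 * s) (hb : b ≤ 9 / 10 ^ 4 * (q * s)) (hβ : 0 ≤ β)
    (h : (q + 1) * β ≤ 4 * F + 64 * b) : β ≤ 5 / 10 ^ 5 * (q * s) := by
  have hq0 : 0 < q := by linarith
  have h0 : 0 < q * s := by positivity
  have h1 : q * β ≤ q * (5 / 10 ^ 5 * (q * s)) := by
    have h2 : q * (q * s) = q ^ 2 * s := by ring
    have h3 : 25000000 * (q * s) ≤ q * (q * s) := mul_le_mul_of_nonneg_right hq h0.le
    nlinarith
  exact le_of_mul_le_mul_left h1 hq0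

theorem num_three {q s N β : ℝ} (hq : 25000000 ≤ q) (hs : 0 < s)
    (hβ : β ≤ 5 / 10 ^ 5 * (q * s)) (hN : 0 ≤ N)
    (h : (q + 1) * N ≤ 64 * β) : N ≤ 1 / 10 ^ 5 * (q * s) := by
  have hq0 : 0 < q := by linarith
  have h0 : 0 < q * s := by positivity
  have h1 : q * N ≤ q * (1 / 10 ^ 5 * (q * s)) := by
    have h3 : 25000000 * (q * s) ≤ q * (q * s) := mul_le_mul_of_nonneg_right hq h0.le
    nlinarith
  exact le_of_mul_le_mul_left h1 hq0

theorem card_le_n {P L : Type u} [Fintype P] [Fintype L] {I : P → L → Prop} {q : ℕ}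
    (h : Pln I q) (S : Finset L) : (#S : ℝ) ≤ (q : ℝ) ^ 2 + q + 1 := by
  have h1 : #S ≤ q ^ 2 + q + 1 := by
    rw [← h.cardL]
    exact card_le_univ S
  calc (#S : ℝ) ≤ ((q ^ 2 + q + 1 : ℕ) : ℝ) := by exact_mod_cast h1
    _ = _ := by push_cast; ring

end NRM

open NRM in
theorem specNR (hINJ : SpecINJ.{u}) (hCNT : SpecCNT.{u}) (hBP : SpecBP.{u}) (hDEV : SpecDEV.{u})
    (hCP : SpecCP.{u}) (hFW4 : SpecFW4.{u}) (hBW4 : SpecBW4.{u}) (hMOV : SpecMOV.{u}) :
    SpecNR.{u} := by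
  intro P L M _ _ _ I J q hI hJ f hcase
  rcases hcase with h32 | ⟨hF, hE⟩
  · obtain ⟨g, τ, h1, h2, -⟩ := hBP P L M I J q hI hJ f h32
    refine ⟨g, τ, h1, ?_⟩
    have h3 := (hCNT P L M I J q hI hJ f).2 2
    refine le_trans (Nat.mul_le_mul_left _ (card_le_card ?_)) h3
    intro x hx
    rw [mem_filter] at hx ⊢
    refine ⟨mem_univ _, ?_⟩
    by_contra hcon
    refine hx.2 (h2 x fun hb => hcon ?_)
    exact mem_badP.1 hb
  · set s : ℝ := √(q : ℝ) with hs_def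
    have hs0 : 0 ≤ s := Real.sqrt_nonneg _
    have hss : s * s = (q : ℝ) := Real.mul_self_sqrt (Nat.cast_nonneg q)
    have hq2 : (2 : ℝ) ≤ q := by exact_mod_cast hI.two
    set Gx : Finset L := {l : L | dd I J f l = 0} with hGx
    have hs := num_s hq2 hs0 hss (card_le_n hI Gx) hE
    have hsp : 0 < s := by linarith
    have hq : (25000000 : ℝ) ≤ q := by nlinarith
    have hT := num_T hs hss
    have hTp : 0 < (q : ℝ) * s := by positivity
    have hGpos : 0 < #Gx := by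
      have h1 : (0 : ℝ) < #Gx := lt_of_lt_of_le (by positivity) hE
      exact_mod_cast h1
    -- the points on few exact lines
    set N1 : Finset P := {x : P | (rr I Gx x : ℝ) < 1250 * s} with hN1
    have hc := (hDEV P L I q hI Gx).2.2 (1250 * s) hGpos (by
      have h1 : 2 * (1250 * s) * ((q : ℝ) ^ 2 + q + 1) ≤
          10 ^ 4 * ((q : ℝ) * s) * (q + 1) := by
        have h2 : s * ((q : ℝ) ^ 2 + q + 1) ≤ s * (4 * (q * (q + 1))) :=
          mul_le_mul_of_nonneg_left (by nlinarith) hs0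
        nlinarith
      exact h1.trans (mul_le_mul_of_nonneg_right hE (by positivity)))
    have hN1b : (#N1 : ℝ) ≤ 4004 / 10 ^ 7 * (q * s) :=
      num_one hq hsp hss (Nat.cast_nonneg _) hE hc
    set N2 : Finset P := {x : P | q + 1 ≤ 8 * dl I J f q x} with hN2
    have hN2b : (#N2 : ℝ) ≤ 4 / 10 ^ 4 * (q * s) := by
      have h1 := (hCNT P L M I J q hI hJ f).2 8
      have h2 : ((q : ℝ) + 1) * #N2 ≤ 40 * (FF I J f : ℝ) := by
        have h3 : (q + 1) * #N2 ≤ 40 * FF I J f := by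
          refine h1.trans (le_of_eq ?_)
          ring
        exact_mod_cast h3
      exact num_two (by linarith) (Nat.cast_nonneg _) hF h2
    set B₁ : Finset P := N1 ∪ N2 with hB₁
    have hB₁b : (#B₁ : ℝ) ≤ 801 / 10 ^ 6 * (q * s) := by
      have h1 : (#B₁ : ℝ) ≤ #N1 + #N2 := by exact_mod_cast card_union_le N1 N2
      nlinarith
    have hB₁c : (#B₁ : ℝ) ≤ 9 / 10 ^ 4 * (q * s) := by nlinarith
    have hfw := hFW4 P L M I J q hI hJ f B₁ (1250 * s) (by positivity)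
      (fun z hz => mem_union_right _ (by rw [hN2, mem_filter]; exact ⟨mem_univ _, hz⟩))
      (fun z hz => mem_union_left _ (by
        rw [hN1, mem_filter]
        refine ⟨mem_univ _, ?_⟩
        have e : rr I Gx z = #{k : L | I z k ∧ dd I J f k = 0} := by
          unfold rr
          congr 1
          ext k
          simp only [hGx, mem_filter, mem_univ, true_and]
          exact and_comm
        rw [e]
        exact hz))
      (num_fw hq hs hss hF hB₁c)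
    set G₁ : Finset L := {l : L | l ∉ badL I J f q ∧ 4 * ss I B₁ l < q + 1} with hG₁
    have memG : ∀ l, l ∈ G₁ ↔ l ∉ badL I J f q ∧ 4 * ss I B₁ l < q + 1 := by
      intro l
      rw [hG₁, mem_filter]
      exact ⟨fun h => h.2, fun h => ⟨mem_univ _, h⟩⟩
    -- the number of lines outside G₁
    set C₁ : Finset L := {l : L | l ∉ G₁} with hC₁
    have hC₁b : (#C₁ : ℝ) ≤ 5 / 10 ^ 5 * (q * s) := by
      have h8 : 8 * #B₁ ≤ q ^ 2 + q + 1 := by
        have h1 : ((8 * #B₁ : ℕ) : ℝ) ≤ ((q ^ 2 + q + 1 : ℕ) : ℝ) := by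
          push_cast
          nlinarith
        exact_mod_cast h1
      have h1 := (hDEV L P (fun l x => I x l) q hI.dual B₁).1 h8
      have h2 := (hCNT P L M I J q hI hJ f).1
      have h3 : #C₁ ≤ #(badL I J f q) + #{l : L | q + 1 ≤ 4 * rr (fun l x => I x l) B₁ l} := by
        refine le_trans (card_le_card ?_) (card_union_le _ _)
        intro l hl
        rw [hC₁, mem_filter, memG] at hl
        rw [mem_union, mem_filter]
        by_contra hcon
        rw [not_or] at hcon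
        refine hl.2 ⟨hcon.1, ?_⟩
        by_contra h5
        exact hcon.2 ⟨mem_univ _, not_lt.1 h5⟩
      have h4 : (q + 1) * #C₁ ≤ 4 * FF I J f + 64 * #B₁ := by
        calc (q + 1) * #C₁ ≤ (q + 1) * (#(badL I J f q) +
              #{l : L | q + 1 ≤ 4 * rr (fun l x => I x l) B₁ l}) := Nat.mul_le_mul_left _ h3
          _ = (q + 1) * #(badL I J f q) +
              (q + 1) * #{l : L | q + 1 ≤ 4 * rr (fun l x => I x l) B₁ l} := Nat.mul_add _ _ _
          _ ≤ _ := Nat.add_le_add h2 h1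
      have h5 : ((q : ℝ) + 1) * #C₁ ≤ 4 * (FF I J f : ℝ) + 64 * #B₁ := by exact_mod_cast h4
      exact num_beta hq hsp hF hB₁c (Nat.cast_nonneg _) h5
    set N3 : Finset P := {x : P | q + 1 ≤ 4 * rr I C₁ x} with hN3
    have hN3b : (#N3 : ℝ) ≤ 1 / 10 ^ 5 * (q * s) := by
      have h8 : 8 * #C₁ ≤ q ^ 2 + q + 1 := by
        have h1 : ((8 * #C₁ : ℕ) : ℝ) ≤ ((q ^ 2 + q + 1 : ℕ) : ℝ) := by
          push_cast
          nlinarith
        exact_mod_cast h1
      have h1 := (hDEV P L I q hI C₁).1 h8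
      have h2 : ((q : ℝ) + 1) * #N3 ≤ 64 * (#C₁ : ℝ) := by exact_mod_cast h1
      exact num_three hq hsp hC₁b (Nat.cast_nonneg _) h2
    set B₂ : Finset P := B₁ ∪ N3 with hB₂
    have hB₂b : 1000 * (#B₂ : ℝ) ≤ q * s := by
      have h1 : (#B₂ : ℝ) ≤ #B₁ + #N3 := by exact_mod_cast card_union_le B₁ N3
      nlinarith
    have hN3' : ∀ x ∉ B₂, 2 * rr I C₁ x ≤ q + 1 := by
      intro x hx
      rw [hB₂, mem_union, not_or, hN3, mem_filter] at hx
      have h1 : ¬ q + 1 ≤ 4 * rr I C₁ x := fun h => hx.2 ⟨mem_univ _, h⟩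
      omega
    have hB₂₁ : ∀ x ∉ B₂, x ∉ B₁ := fun x hx h => hx (mem_union_left _ h)
    have hfw' : ∀ x ∉ B₁, ∀ l ∈ G₁, I x l → J x (f l) := fun x hx l hl hxl =>
      hfw x l hx ((memG l).1 hl).1 ((memG l).1 hl).2 hxl
    have hbw := hBW4 P L M I J q hI hJ f B₁ G₁ (fun l hl => (memG l).1 hl) hfw'
    have hagree : ∀ x ∉ B₂, ∀ l ∈ G₁, (I x l ↔ J x (f l)) := by
      intro x hx l hl
      refine ⟨hfw' x (hB₂₁ x hx) l hl, fun hj => ?_⟩
      exact hbw x l (hB₂₁ x hx) (hN3' x hx) hl hj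
    have hinj : ∀ l ∈ G₁, ∀ m ∈ G₁, f l = f m → l = m := fun l hl m hm h =>
      hINJ P L M I J q hI hJ f l m ((memG l).1 hl).1 ((memG m).1 hm).1 h
    obtain ⟨g, τ, h1, h2, -⟩ := hCP P L M I J q hI hJ f B₂ G₁ hinj hagree hB₂b (by
      change 1000 * (#C₁ : ℝ) ≤ q * s
      nlinarith)
    refine ⟨g, τ, h1, ?_⟩
    refine hMOV P L M I J q hI hJ ?_ f g τ h1 ?_
    · have h3 : (225 : ℝ) ≤ q := by linarith
      exact_mod_cast h3
    · refine le_trans ?_ hB₂b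
      have h3 : #{x : P | g x ≠ x} ≤ #B₂ := by
        refine card_le_card fun x hx => ?_
        rw [mem_filter] at hx
        by_contra hcon
        exact hx.2 (h2 x hcon (hN3' x hcon))
      have h4 : (#{x : P | g x ≠ x} : ℝ) ≤ #B₂ := by exact_mod_cast h3
      linarith

end Pool.Agent.Lib.MP595dad.NR
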