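import Pool.Agent.Lib.MP_595dad_co.NR.SpecC

/-!
# PEX: existence, uniqueness and symmetry of perspectivities
-/

set_option autoImplicit false

namespace Pool.Agent.Lib.MP595dad.NR

open Finset
open scoped Classical

universe u

namespace PEXM

section

variable {P L : Type u} [Fintype P] [Fintype L]

theorem col_symm {I : P → L → Prop} {V x y : P} (h : Col I V x y) : Col I V y x := by
  obtain ⟨k, h1, h2, h3⟩ := h
  exact ⟨k, h1, h3, h2⟩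

theorem ne_of_not_col {I : P → L → Prop} {q : ℕ} (hI : Pln I q) {V x y : P} (hx : x ≠ V)
    (h : ¬ Col I V x y) : x ≠ y := by
  rintro rfl
  obtain ⟨k, h1, h2⟩ := hI.join x V hx
  exact h ⟨k, h2, h1, h1⟩

theorem ex {I : P → L → Prop} {q : ℕ} (hI : Pln I q) {V : P} {a : L} {A A' B : P}
    (hA : Reg I V a A) (hA' : Reg I V a A') (hB : Reg I V a B) (hAA : Col I V A A')
    (hAB : ¬ Col I V A B) : ∃ B', Tr I V a A A' B B' := by
  obtain ⟨c, c1, c2, c3⟩ := hAA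
  have hne : A ≠ B := ne_of_not_col hI hA.1 hAB
  obtain ⟨l, l1, l2⟩ := hI.join A B hne
  have hla : l ≠ a := fun h => hA.2 (h ▸ l1)
  obtain ⟨X, X1, X2⟩ := hI.meet l a hla
  have hXA : X ≠ A := fun h => hA.2 (h ▸ X2)
  have hXB : X ≠ B := fun h => hB.2 (h ▸ X2)
  have hXA' : A' ≠ X := fun h => hA'.2 (h.symm ▸ X2)
  obtain ⟨m', m1, m2⟩ := hI.join A' X hXA'
  obtain ⟨k, k1, k2⟩ := hI.join B V hB.1
  have hmk : m' ≠ k := by
    intro h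
    have hck : c = k := hI.line_eq hA'.1 c3 c1 (h ▸ m1) k2
    exact hAB ⟨k, k2, hck ▸ c2, k1⟩
  obtain ⟨B', B1, B2⟩ := hI.meet m' k hmk
  have hBV : B' ≠ V := by
    intro h
    have hmc : m' = c := hI.line_eq hA'.1 m1 (h ▸ B1) c3 c1
    have hcl : c = l := hI.line_eq hXA (hmc ▸ m2) c2 X1 l1
    exact hAB ⟨l, hcl ▸ c1, l1, l2⟩
  have hBa : ¬ I B' a := by
    intro h
    have hma : m' ≠ a := fun h => hA'.2 (h ▸ m1)
    have hBX : B' = X := hI.point_eq hma B1 m2 h X2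
    have hkl : k = l := hI.line_eq hXB (hBX ▸ B2) k1 X1 l2
    exact hAB ⟨l, hkl ▸ k2, l1, l2⟩
  exact ⟨B', hA, hA', hB, ⟨hBV, hBa⟩, ⟨c, c1, c2, c3⟩, ⟨k, k2, k1, B2⟩, hAB,
    ⟨X, l, m', X2, l1, l2, X1, m1, B1, m2⟩⟩

theorem uq {I : P → L → Prop} {q : ℕ} (hI : Pln I q) {V : P} {a : L} {A A' B B' B'' : P}
    (h1 : Tr I V a A A' B B') (h2 : Tr I V a A A' B B'') : B' = B'' := by
  obtain ⟨hA, hA', hB, -, ⟨c, c1, c2, c3⟩, ⟨k, k1, k2, k3⟩, hAB,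
    ⟨X, m, m', x1, x2, x3, x4, x5, x6, x7⟩⟩ := h1
  obtain ⟨-, -, -, -, -, ⟨k', k1', k2', k3'⟩, -,
    ⟨X', n, n', y1, y2, y3, y4, y5, y6, y7⟩⟩ := h2
  have hne : A ≠ B := ne_of_not_col hI hA.1 hAB
  have hmn : n = m := hI.line_eq hne y2 y3 x2 x3
  subst hmn
  have hma : n ≠ a := fun h => hA.2 (h ▸ x2)
  have hXX : X' = X := hI.point_eq hma y4 x4 y1 x1
  subst hXX
  have hXA' : A' ≠ X' := fun h => hA'.2 (h.symm ▸ x1)
  have hmm : n' = m' := hI.line_eq hXA' y5 y7 x5 x7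
  subst hmm
  have hkk : k' = k := hI.line_eq hB.1 k2' k1' k2 k1
  subst hkk
  have hne2 : n' ≠ k' := by
    intro h
    have hck : c = k' := hI.line_eq hA'.1 c3 c1 (h ▸ x5) k1
    exact hAB ⟨k', k1, hck ▸ c2, k2⟩
  exact hI.point_eq hne2 x6 y6 k3 k3'

theorem sy1 {I : P → L → Prop} {q : ℕ} (hI : Pln I q) {V : P} {a : L} {A A' B B' : P}
    (h1 : Tr I V a A A' B B') : Tr I V a A' A B' B := by
  obtain ⟨hA, hA', hB, hB', ⟨c, c1, c2, c3⟩, ⟨k, k1, k2, k3⟩, hAB,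
    ⟨X, m, m', x1, x2, x3, x4, x5, x6, x7⟩⟩ := h1
  refine ⟨hA', hA, hB', hB, ⟨c, c1, c3, c2⟩, ⟨k, k1, k3, k2⟩, ?_,
    ⟨X, m', m, x1, x5, x6, x7, x2, x3, x4⟩⟩
  rintro ⟨j, j1, j2, j3⟩
  have hcj : c = j := hI.line_eq hA'.1 c3 c1 j2 j1
  have hkj : k = j := hI.line_eq hB'.1 k3 k1 j3 j1
  exact hAB ⟨j, j1, hcj ▸ c2, hkj ▸ k2⟩

theorem sy2 {I : P → L → Prop} {V : P} {a : L} {A A' B B' : P}
    (h1 : Tr I V a A A' B B') : Tr I V a B B' A A' := by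
  obtain ⟨hA, hA', hB, hB', hAA, hBB, hAB, ⟨X, m, m', x1, x2, x3, x4, x5, x6, x7⟩⟩ := h1
  exact ⟨hB, hB', hA, hA', hBB, hAA, fun h => hAB (col_symm h),
    ⟨X, m, m', x1, x3, x2, x4, x6, x5, x7⟩⟩

end

end PEXM

open PEXM in
theorem specPEX : SpecPEX.{u} := by
  intro P L _ _ I q hI V a
  refine ⟨?_, ?_, ?_⟩
  · intro A A' B hA hA' hB hAA hAB
    have h := ex hI hA hA' hB hAA hAB
    rw [pm, dif_pos h]
    exact h.choose_spec
  · intro A A' B B' B'' h1 h2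
    exact uq hI h1 h2
  · intro A A' B B' h
    exact ⟨sy1 hI h, sy2 h⟩

end Pool.Agent.Lib.MP595dad.NR
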