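import Pool.Agent.Lib.MP_595dad_co.NR.SpecB

/-!
# MP_595dad_co, module PN: the better permutation of the points
-/

set_option autoImplicit false
set_option linter.unusedSectionVars false

namespace Pool.Agent.Lib.MP595dad.NR

open Finset
open scoped Classical

universe u

namespace PNM

variable {P L M : Type u} [Fintype P] [Fintype L] [Fintype M]

theorem card_on {I : P → L → Prop} {J : P → M → Prop} {q : ℕ} (hI : Pln I q) (hJ : Pln J q)
    (f : L → M) (B : Finset P) {l : L} (hiff : ∀ x ∉ B, (I x l ↔ J x (f l))) :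
    #{y ∈ B | J y (f l)} = #{y ∈ B | I y l} := by
  have h1 : #{y ∈ B | I y l} + #({y : P | y ∉ B ∧ I y l} : Finset P) = q + 1 := by
    rw [← hI.size l, ← card_union_of_disjoint]
    · congr 1
      ext k
      simp only [mem_union, mem_filter, mem_univ, true_and]
      tauto
    · rw [disjoint_left]
      intro k hk hk'
      simp only [mem_filter, mem_univ, true_and] at hk hk'
      exact hk'.1 hk.1
  have h2 : #{y ∈ B | J y (f l)} + #({y : P | y ∉ B ∧ J y (f l)} : Finset P) = q + 1 := by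
    rw [← hJ.size (f l), ← card_union_of_disjoint]
    · congr 1
      ext k
      simp only [mem_union, mem_filter, mem_univ, true_and]
      tauto
    · rw [disjoint_left]
      intro k hk hk'
      simp only [mem_filter, mem_univ, true_and] at hk hk'
      exact hk'.1 hk.1
  have h3 : ({y : P | y ∉ B ∧ I y l} : Finset P) = ({y : P | y ∉ B ∧ J y (f l)} : Finset P) := by
    ext y
    simp only [mem_filter, mem_univ, true_and]
    constructor
    · rintro ⟨h, h'⟩
      exact ⟨h, (hiff y h).1 h'⟩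
    · rintro ⟨h, h'⟩
      exact ⟨h, (hiff y h).2 h'⟩
  rw [h3] at h1
  omega

theorem sqrt_le {q : ℕ} (hq : 225 ≤ q) : √(q : ℝ) ≤ q := by
  have h1 : (1 : ℝ) ≤ q := by
    have : (225 : ℝ) ≤ q := by exact_mod_cast hq
    linarith
  rw [Real.sqrt_le_left (by linarith)]
  nlinarith

theorem extend (h : P → P) (s : Finset P) (hs : Set.InjOn h s) :
    ∃ g : P ≃ P, ∀ x ∈ s, g x = h x := by
  obtain ⟨g, hg⟩ := Finset.exists_equiv_extend_of_card_eq (t := (univ : Finset P))
    (show Fintype.card P = #(univ : Finset P) from card_univ.symm) (s := s) (f := h)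
    (subset_univ _) hs
  exact ⟨g.trans (Equiv.subtypeUnivEquiv fun x => mem_univ x), fun x hx => hg x hx⟩

end PNM

open PNM in
theorem specPN (hDEV : SpecDEV.{u}) (hNPQ : SpecNPQ.{u}) : SpecPN.{u} := by
  intro P L M _ _ _ I J q hI hJ hq f B G hinj hiff hb hβ
  have hsq := sqrt_le hq
  have hqr : (225 : ℝ) ≤ q := by exact_mod_cast hq
  have hs0 : 0 ≤ √(q : ℝ) := Real.sqrt_nonneg _
  set κ : ℝ := 2 + 3 * √(q : ℝ) / 1000 with hκ
  have h8 : 8 * #({l : L | l ∉ G} : Finset L) ≤ q ^ 2 + q + 1 := by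
    have h1 : (8 * (#({l : L | l ∉ G} : Finset L) : ℝ)) ≤ (q : ℝ) ^ 2 + q + 1 := by
      have h2 : (q : ℝ) * √(q : ℝ) ≤ q * q := mul_le_mul_of_nonneg_left hsq (by linarith)
      nlinarith
    exact_mod_cast h1
  have hdev := (hDEV P L I q hI ({l : L | l ∉ G} : Finset L)).1 h8
  set Z : Finset P := {x ∈ B | q + 1 ≤ 4 * rr I ({l : L | l ∉ G} : Finset L) x} with hZ
  have hZmem : ∀ x, x ∈ Z ↔ x ∈ B ∧ q + 1 ≤ 4 * rr I ({l : L | l ∉ G} : Finset L) x := by
    intro x
    rw [hZ, mem_filter]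
  -- the lines of `G` through a point off `Z`
  have hXcard : ∀ x, #{l ∈ G | I x l} + rr I ({l : L | l ∉ G} : Finset L) x = q + 1 := by
    intro x
    unfold rr
    rw [← hI.deg x, ← card_union_of_disjoint]
    · congr 1
      ext k
      simp only [mem_union, mem_filter, mem_univ, true_and]
      tauto
    · rw [disjoint_left]
      intro k hk hk'
      simp only [mem_filter, mem_univ, true_and] at hk hk'
      exact hk'.1 hk.1
  have hX34 : ∀ x ∈ B, x ∉ Z → 3 * (q + 1) < 4 * #{l ∈ G | I x l} := by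
    intro x hx hxZ
    have h1 : ¬ q + 1 ≤ 4 * rr I ({l : L | l ∉ G} : Finset L) x := fun h =>
      hxZ ((hZmem x).2 ⟨hx, h⟩)
    have h2 := hXcard x
    omega
  have hex : ∀ x : P, ∃ y : P, x ∈ B → x ∉ Z → y ∈ B ∧
      (#{l ∈ G | I x l} : ℝ) ≤ #{l ∈ G | I x l ∧ J y (f l)} + κ := by
    intro x
    by_cases hx : x ∈ B
    swap
    · exact ⟨x, fun h => absurd h hx⟩
    by_cases hxZ : x ∈ Z
    · exact ⟨x, fun _ h => absurd hxZ h⟩
    set X : Finset L := {l ∈ G | I x l} with hXdef
    have hXmem : ∀ l, l ∈ X ↔ l ∈ G ∧ I x l := by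
      intro l
      rw [hXdef, mem_filter]
    have hX1 := hX34 x hx hxZ
    rw [← hXdef] at hX1
    have hX2 : #X ≤ q + 1 := by
      have := hXcard x
      rw [← hXdef] at this
      omega
    obtain ⟨y, hy, h1⟩ := hNPQ L P X B (fun l y => J y (f l)) q (#B) hq hX1 hX2 hb
      (by
        intro l hl l' hl' hll
        have hl1 := (hXmem l).1 hl
        have hl1' := (hXmem l').1 hl'
        have hne : f l ≠ f l' := fun h => hll (hinj l hl1.1 l' hl1'.1 h)
        obtain ⟨y, h1, h2⟩ := hJ.meet (f l) (f l') hne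
        refine ⟨y, ?_, h1, h2⟩
        by_contra hyB
        have h3 := (hiff y hyB l hl1.1).2 h1
        have h4 := (hiff y hyB l' hl1'.1).2 h2
        have h5 := hI.point_eq hll h3 hl1.2 h4 hl1'.2
        rw [h5] at hyB
        exact hyB hx)
      (fun l hl l' hl' hll y _ y' _ h1 h2 h3 h4 =>
        hJ.point_eq (fun h => hll (hinj l ((hXmem l).1 hl).1 l' ((hXmem l').1 hl').1 h))
          h1 h3 h2 h4)
      (by
        have e1 : ∑ l ∈ X, #{y ∈ B | J y (f l)} = ∑ l ∈ X, ss I B l :=
          sum_congr rfl fun l hl => card_on hI hJ f B fun y hy =>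
            hiff y hy l ((hXmem l).1 hl).1
        rw [e1, ← sum_rr_eq_sum_ss, ← add_sum_erase _ _ hx]
        refine add_le_add (card_le_card (filter_subset _ _)) ?_
        have h5 : ∀ y ∈ B.erase x, rr I X y ≤ 1 := by
          intro y hy
          unfold rr
          rw [card_le_one]
          intro l hl l' hl'
          rw [mem_filter] at hl hl'
          exact hI.line_eq (mem_erase.1 hy).1 hl.2 ((hXmem l).1 hl.1).2 hl'.2
            ((hXmem l').1 hl'.1).2
        refine (sum_le_card_nsmul _ _ 1 h5).trans ?_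
        rw [smul_eq_mul, mul_one]
        exact card_le_card (erase_subset _ _))
    refine ⟨y, fun _ _ => ⟨hy, ?_⟩⟩
    rw [hXdef, filter_filter] at h1
    rw [hXdef]
    exact h1
  choose g₀ hg₀ using hex
  -- injectivity
  have hinj₀ : ∀ x ∈ B, x ∉ Z → ∀ x' ∈ B, x' ∉ Z → g₀ x = g₀ x' → x = x' := by
    intro x hx hxZ x' hx' hxZ' h
    by_contra hne
    obtain ⟨-, h1⟩ := hg₀ x hx hxZ
    obtain ⟨-, h1'⟩ := hg₀ x' hx' hxZ'
    have h2 := hX34 x hx hxZ
    have h2' := hX34 x' hx' hxZ'
    rw [← h] at h1'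
    have h3 : #(({l ∈ G | I x l ∧ J (g₀ x) (f l)} : Finset L) ∪
        ({l ∈ G | I x' l ∧ J (g₀ x) (f l)} : Finset L)) ≤ q + 1 := by
      rw [← hJ.deg (g₀ x)]
      refine card_le_card_of_injOn f ?_ ?_
      · intro l hl
        rw [mem_coe, mem_filter]
        refine ⟨mem_univ _, ?_⟩
        rw [mem_coe, mem_union, mem_filter, mem_filter] at hl
        rcases hl with hl | hl
        · exact hl.2.2
        · exact hl.2.2
      · intro l hl l' hl' hll
        rw [mem_coe, mem_union, mem_filter, mem_filter] at hl hl'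
        have hlG : l ∈ G := by
          rcases hl with hl | hl
          · exact hl.1
          · exact hl.1
        have hlG' : l' ∈ G := by
          rcases hl' with hl' | hl'
          · exact hl'.1
          · exact hl'.1
        exact hinj l hlG l' hlG' hll
    have h4 : #(({l ∈ G | I x l ∧ J (g₀ x) (f l)} : Finset L) ∩
        ({l ∈ G | I x' l ∧ J (g₀ x) (f l)} : Finset L)) ≤ 1 := by
      rw [card_le_one]
      intro l hl l' hl'
      simp only [mem_inter, mem_filter] at hl hl'
      exact hI.line_eq hne hl.1.2.1 hl.2.2.1 hl'.1.2.1 hl'.2.2.1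
    have h5 := card_union_add_card_inter ({l ∈ G | I x l ∧ J (g₀ x) (f l)} : Finset L)
      ({l ∈ G | I x' l ∧ J (g₀ x) (f l)} : Finset L)
    have h6 : #({l ∈ G | I x l ∧ J (g₀ x) (f l)} : Finset L) +
        #({l ∈ G | I x' l ∧ J (g₀ x) (f l)} : Finset L) ≤ q + 2 := by omega
    have h7 : ((#({l ∈ G | I x l ∧ J (g₀ x) (f l)} : Finset L) : ℝ) +
        #({l ∈ G | I x' l ∧ J (g₀ x) (f l)} : Finset L)) ≤ q + 2 := by exact_mod_cast h6
    have h8' : 3 * ((q : ℝ) + 1) < 4 * #{l ∈ G | I x l} := by exact_mod_cast h2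
    have h9' : 3 * ((q : ℝ) + 1) < 4 * #{l ∈ G | I x' l} := by exact_mod_cast h2'
    rw [hκ] at h1 h1'
    linarith
  obtain ⟨g, hg⟩ := extend (fun x => if x ∈ B then g₀ x else x) ({x : P | x ∉ Z} : Finset P) (by
    intro x hx x' hx' h
    rw [mem_coe, mem_filter] at hx hx'
    change (if x ∈ B then g₀ x else x) = (if x' ∈ B then g₀ x' else x') at h
    by_cases h1 : x ∈ B
    · by_cases h2 : x' ∈ B
      · rw [if_pos h1, if_pos h2] at h
        exact hinj₀ x h1 hx.2 x' h2 hx'.2 h
      · rw [if_pos h1, if_neg h2] at h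
        exact absurd (h ▸ (hg₀ x h1 hx.2).1) h2
    · by_cases h2 : x' ∈ B
      · rw [if_neg h1, if_pos h2] at h
        exact absurd (h.symm ▸ (hg₀ x' h2 hx'.2).1) h1
      · rw [if_neg h1, if_neg h2] at h
        exact h)
  refine ⟨g, Z, fun x hx => ?_, ?_, fun x hx hxZ => ?_⟩
  · rw [hg x (by
      rw [mem_filter]
      exact ⟨mem_univ _, fun h => hx ((hZmem x).1 h).1⟩)]
    exact if_neg hx
  · refine le_trans (Nat.mul_le_mul_left _ (card_le_card ?_)) hdev
    intro x hx
    rw [mem_filter]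
    exact ⟨mem_univ _, ((hZmem x).1 hx).2⟩
  · have e : g x = g₀ x := by
      rw [hg x (by
        rw [mem_filter]
        exact ⟨mem_univ _, hxZ⟩)]
      exact if_pos hx
    rw [e]
    obtain ⟨-, h1⟩ := hg₀ x hx hxZ
    have h2 : #({l ∈ G | I x l ∧ J (g₀ x) (f l)} : Finset L) +
        #({l ∈ G | I x l ∧ ¬ J (g₀ x) (f l)} : Finset L) = #{l ∈ G | I x l} := by
      rw [← filter_filter, ← filter_filter]
      exact card_filter_add_card_filter_not _
    have h3 : ((#({l ∈ G | I x l ∧ J (g₀ x) (f l)} : Finset L) : ℝ) +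
        #({l ∈ G | I x l ∧ ¬ J (g₀ x) (f l)} : Finset L)) = #{l ∈ G | I x l} := by
      exact_mod_cast h2
    linarith

end Pool.Agent.Lib.MP595dad.NR
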