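import Pool.Agent.Lib.MP_595dad_co.NR.SpecA

/-!
# MP_595dad_co, module PNT: from a bijection of the lines which is right off fewer than `q` points
to an isomorphism
-/

set_option autoImplicit false
set_option linter.unusedSectionVars false

namespace Pool.Agent.Lib.MP595dad.NR

open Finset
open scoped Classical

universe u

namespace PNTM

variable {P L M : Type u} [Fintype P] [Fintype L] [Fintype M]

theorem card_on {I : P → L → Prop} {J : P → M → Prop} {q : ℕ} (hI : Pln I q) (hJ : Pln J q)
    (τ : L ≃ M) (B : Finset P) (hiff : ∀ x ∉ B, ∀ l, (I x l ↔ J x (τ l))) (l : L) :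
    #{y ∈ B | J y (τ l)} = #{y ∈ B | I y l} := by
  have h1 : #{y ∈ B | I y l} + #({y : P | y ∉ B ∧ I y l} : Finset P) = q + 1 := by
    rw [← hI.size l, ← card_union_of_disjoint]
    · congr 1
      ext k
      simp only [mem_union, mem_filter, mem_univ, true_and]
      tauto
    · rw [disjoint_left]
      intro k hk hk'
      simp only [mem_filter, mem_univ, true_and] at hk hk'
      exact hk'.1 hk.1
  have h2 : #{y ∈ B | J y (τ l)} + #({y : P | y ∉ B ∧ J y (τ l)} : Finset P) = q + 1 := by
    rw [← hJ.size (τ l), ← card_union_of_disjoint]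
    · congr 1
      ext k
      simp only [mem_union, mem_filter, mem_univ, true_and]
      tauto
    · rw [disjoint_left]
      intro k hk hk'
      simp only [mem_filter, mem_univ, true_and] at hk hk'
      exact hk'.1 hk.1
  have h3 : ({y : P | y ∉ B ∧ I y l} : Finset P) = ({y : P | y ∉ B ∧ J y (τ l)} : Finset P) := by
    ext y
    simp only [mem_filter, mem_univ, true_and]
    constructor
    · rintro ⟨h, h'⟩
      exact ⟨h, (hiff y h l).1 h'⟩
    · rintro ⟨h, h'⟩
      exact ⟨h, (hiff y h l).2 h'⟩
  rw [h3] at h1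
  omega

theorem arith {t q b : ℕ} (h2 : 2 ≤ t) (htq : t ≤ q + 1) (hb : b < q)
    (h : t * (q + 1 + 1 - t) ≤ q + 1 + (b - 1)) : t = q + 1 := by
  by_contra hne
  have htl : t ≤ q := by omega
  obtain ⟨a, rfl⟩ := Nat.exists_eq_add_of_le h2
  obtain ⟨c, rfl⟩ := Nat.exists_eq_add_of_le htl
  have e : 2 + a + c + 1 + 1 - (2 + a) = c + 2 := by omega
  rw [e] at h
  have e2 : (2 + a) * (c + 2) = 4 + 2 * c + 2 * a + a * c := by ring
  rw [e2] at h
  have h5 := Nat.zero_le (a * c)
  omega

end PNTM

open PNTM in
theorem specPNT (hNP : SpecNP.{u}) : SpecPNT.{u} := by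
  intro P L M _ _ _ I J q hI hJ τ B hB hiff
  have hex : ∀ x : P, ∃ y : P, (x ∉ B → y = x) ∧ ∀ l, I x l → J y (τ l) := by
    intro x
    by_cases hx : x ∈ B
    swap
    · exact ⟨x, fun _ => rfl, fun l h => (hiff x hx l).1 h⟩
    set X : Finset L := {l : L | I x l} with hXdef
    have hXmem : ∀ l, l ∈ X ↔ I x l := by
      intro l
      rw [hXdef, mem_filter]
      simp
    have hXc : #X = q + 1 := by
      rw [hXdef]
      exact hI.deg x
    have hq := hI.two
    obtain ⟨y, hy, h2, h3, h4, -⟩ := hNP L P X B (fun l y => J y (τ l)) (by omega)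
      (by
        intro l hl l' hl' hll
        have hne : τ l ≠ τ l' := fun h => hll (τ.injective h)
        obtain ⟨y, h1, h2⟩ := hJ.meet (τ l) (τ l') hne
        refine ⟨y, ?_, h1, h2⟩
        by_contra hyB
        have h3 := (hiff y hyB l).2 h1
        have h4 := (hiff y hyB l').2 h2
        have h5 := hI.point_eq hll h3 ((hXmem l).1 hl) h4 ((hXmem l').1 hl')
        rw [h5] at hyB
        exact hyB hx)
      (fun l _ l' _ hll y _ y' _ h1 h2 h3 h4 =>
        hJ.point_eq (fun h => hll (τ.injective h)) h1 h3 h2 h4)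
    have hsum : ∑ l ∈ X, #{y ∈ B | J y (τ l)} ≤ q + 1 + (#B - 1) := by
      have e1 : ∑ l ∈ X, #{y ∈ B | J y (τ l)} = ∑ l ∈ X, ss I B l :=
        sum_congr rfl fun l _ => card_on hI hJ τ B hiff l
      rw [e1, ← sum_rr_eq_sum_ss, ← add_sum_erase _ _ hx]
      refine add_le_add ?_ ?_
      · rw [← hXc]
        exact card_le_card (filter_subset _ _)
      · rw [← card_erase_of_mem hx]
        have h5 : ∀ y ∈ B.erase x, rr I X y ≤ 1 := by
          intro y hy
          unfold rr
          rw [card_le_one]
          intro l hl l' hl'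
          rw [mem_filter] at hl hl'
          exact hI.line_eq (mem_erase.1 hy).1 hl.2 ((hXmem l).1 hl.1) hl'.2 ((hXmem l').1 hl'.1)
        exact (sum_le_card_nsmul _ _ 1 h5).trans (by simp)
    rw [hXc] at h3 h4
    have ht : #{l ∈ X | J y (τ l)} = q + 1 := arith h2 h3 hB (h4.trans hsum)
    refine ⟨y, fun h => absurd hx h, fun l hl => ?_⟩
    have h6 : ({l ∈ X | J y (τ l)} : Finset L) = X :=
      eq_of_subset_of_card_le (filter_subset _ _) (by rw [hXc]; exact ht.ge)
    have h7 : l ∈ ({l ∈ X | J y (τ l)} : Finset L) := by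
      rw [h6]
      exact (hXmem l).2 hl
    exact (mem_filter.1 h7).2
  choose g hg1 hg2 using hex
  have hdeg : ∀ y : P, #({l : L | J y (τ l)} : Finset L) = q + 1 := by
    intro y
    rw [← hJ.deg y]
    have e : ({m : M | J y m} : Finset M) = ({l : L | J y (τ l)} : Finset L).image τ := by
      ext m
      simp only [mem_filter, mem_univ, true_and, mem_image]
      constructor
      · intro h
        exact ⟨τ.symm m, by rwa [τ.apply_symm_apply], τ.apply_symm_apply m⟩
      · rintro ⟨l, h, rfl⟩
        exact h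
    rw [e, card_image_of_injective _ τ.injective]
  have hginj : Function.Injective g := by
    intro x x' h
    by_contra hne
    have h1 : ({l : L | I x l} : Finset L) ∪ ({l : L | I x' l} : Finset L) ⊆
        ({l : L | J (g x) (τ l)} : Finset L) := by
      intro l hl
      rw [mem_filter]
      refine ⟨mem_univ _, ?_⟩
      rcases mem_union.1 hl with hl | hl
      · exact hg2 x l (mem_filter.1 hl).2
      · rw [h]
        exact hg2 x' l (mem_filter.1 hl).2
    have h2 := card_le_card h1
    rw [hdeg] at h2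
    have h3 : #(({l : L | I x l} : Finset L) ∩ ({l : L | I x' l} : Finset L)) ≤ 1 := by
      rw [card_le_one]
      intro l hl l' hl'
      simp only [mem_inter, mem_filter, mem_univ, true_and] at hl hl'
      exact hI.line_eq hne hl.1 hl.2 hl'.1 hl'.2
    have h4 := card_union_add_card_inter ({l : L | I x l} : Finset L)
      ({l : L | I x' l} : Finset L)
    rw [hI.deg, hI.deg] at h4
    have hq := hI.two
    omega
  have hgbij : Function.Bijective g := Finite.injective_iff_bijective.1 hginj
  refine ⟨Equiv.ofBijective g hgbij, fun x hx => hg1 x hx, fun x l => ⟨fun h => hg2 x l h, ?_⟩⟩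
  intro h
  have h1 : ({l : L | I x l} : Finset L) = ({l : L | J (g x) (τ l)} : Finset L) := by
    refine eq_of_subset_of_card_le ?_ ?_
    · intro l hl
      rw [mem_filter] at hl ⊢
      exact ⟨mem_univ _, hg2 x l hl.2⟩
    · rw [hdeg, hI.deg]
  have h2 : l ∈ ({l : L | I x l} : Finset L) := by
    rw [h1, mem_filter]
    exact ⟨mem_univ _, h⟩
  exact (mem_filter.1 h2).2

end Pool.Agent.Lib.MP595dad.NR
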