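import Pool.Agent.Lib.MP_595dad_co.NR.SpecC

/-!
# TRN: more than half of a fibre gives everything
-/

set_option autoImplicit false
set_option linter.unusedSectionVars false

namespace Pool.Agent.Lib.MP595dad.NR

open Finset
open scoped Classical

universe u

namespace TRNM

variable {P L : Type u} [Fintype P] [Fintype L] {I : P → L → Prop} {q : ℕ} {V : P} {a : L}

lemma cen_trans {ψ ψ' : P ≃ P} {τ τ' : L ≃ L} (h : Cen I V a ψ τ) (h' : Cen I V a ψ' τ') :
    Cen I V a (ψ.trans ψ') (τ.trans τ') := by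
  refine ⟨fun x l => ?_, fun l hl => ?_, fun x hx => ?_⟩
  · rw [h.1, h'.1]
    rfl
  · show τ' (τ l) = l
    rw [h.2.1 l hl, h'.2.1 l hl]
  · show ψ' (ψ x) = x
    rw [h.2.2 x hx, h'.2.2 x hx]

lemma cen_symm {ψ : P ≃ P} {τ : L ≃ L} (h : Cen I V a ψ τ) : Cen I V a ψ.symm τ.symm := by
  refine ⟨fun x l => ?_, fun l hl => ?_, fun x hx => ?_⟩
  · rw [h.1 (ψ.symm x) (τ.symm l), Equiv.apply_symm_apply, Equiv.apply_symm_apply]
  · rw [Equiv.symm_apply_eq]
    exact (h.2.1 l hl).symm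
  · rw [Equiv.symm_apply_eq]
    exact (h.2.2 x hx).symm

lemma cen_V (hI : Pln I q) {ψ : P ≃ P} {τ : L ≃ L} (h : Cen I V a ψ τ) : ψ V = V := by
  have h1 : 1 < #{l : L | I V l} := by
    rw [hI.deg V]
    have := hI.two
    omega
  rw [one_lt_card] at h1
  obtain ⟨l, hl, m, hm, hlm⟩ := h1
  simp only [mem_filter, mem_univ, true_and] at hl hm
  have h2 : I (ψ V) l := by
    have := (h.1 V l).1 hl
    rwa [h.2.1 l hl] at this
  have h3 : I (ψ V) m := by
    have := (h.1 V m).1 hm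
    rwa [h.2.1 m hm] at this
  exact hI.point_eq hlm h2 hl h3 hm

/-- a regular point not on the line through `V` and a fixed regular point is fixed -/
lemma fix_of_not_col (hI : Pln I q) {ψ : P ≃ P} {τ : L ≃ L} (h : Cen I V a ψ τ) {A x : P}
    (hA : Reg I V a A) (hfix : ψ A = A) (hx : Reg I V a x) (hc : ¬ Col I V A x) : ψ x = x := by
  have hne : A ≠ x := by
    rintro rfl
    obtain ⟨k, h1, h2⟩ := hI.join V A hA.1.symm
    exact hc ⟨k, h1, h2, h2⟩
  obtain ⟨l, hl1, hl2⟩ := hI.join A x hne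
  have hla : l ≠ a := by
    rintro rfl
    exact hA.2 hl1
  obtain ⟨X, hX1, hX2⟩ := hI.meet l a hla
  have hXfix : ψ X = X := h.2.2 X hX2
  have hAX : A ≠ X := by
    rintro rfl
    exact hA.2 hX2
  have h1 : I A (τ l) := by
    have := (h.1 A l).1 hl1
    rwa [hfix] at this
  have h2 : I X (τ l) := by
    have := (h.1 X l).1 hX1
    rwa [hXfix] at this
  have h3 : τ l = l := hI.line_eq hAX h1 h2 hl1 hX1
  have h4 : I (ψ x) l := by
    have := (h.1 x l).1 hl2
    rwa [h3] at this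
  obtain ⟨k, hk1, hk2⟩ := hI.join V x hx.1.symm
  have h5 : I (ψ x) k := by
    have := (h.1 x k).1 hk2
    rwa [h.2.1 k hk1] at this
  have hlk : l ≠ k := by
    rintro rfl
    exact hc ⟨l, hk1, hl1, hl2⟩
  exact hI.point_eq hlk h4 hl2 h5 hk2

/-- collinearity with `V` is transitive on regular points -/
lemma col_trans (hI : Pln I q) {x y z : P} (hy : y ≠ V) (h1 : Col I V x y) (h2 : Col I V y z) :
    Col I V x z := by
  obtain ⟨k, h3, h4, h5⟩ := h1
  obtain ⟨k', h6, h7, h8⟩ := h2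
  have h9 : k = k' := hI.line_eq hy.symm h3 h5 h6 h7
  subst h9
  exact ⟨k, h3, h4, h8⟩

lemma col_symm {x y : P} (h1 : Col I V x y) : Col I V y x := by
  obtain ⟨k, h3, h4, h5⟩ := h1
  exact ⟨k, h3, h5, h4⟩

/-- a central collineation which fixes a regular point is the identity -/
lemma fix_all (hFIB : SpecFIB.{u}) (hI : Pln I q) {ψ : P ≃ P} {τ : L ≃ L} (h : Cen I V a ψ τ)
    {A : P} (hA : Reg I V a A) (hfix : ψ A = A) (x : P) : ψ x = x := by
  by_cases hV : x = V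
  · rw [hV]
    exact cen_V hI h
  by_cases hxa : I x a
  · exact h.2.2 x hxa
  have hx : Reg I V a x := ⟨hV, hxa⟩
  by_cases hc : Col I V A x
  · obtain ⟨h0, -, hh⟩ := (hFIB P L I q hI V a).2
    have h1 := (hh A hA).2
    have hq := hI.two
    have h2 : 0 < #{x : P | Reg I V a x ∧ ¬ Col I V A x} := by
      rw [h1]
      exact Nat.mul_pos (by omega) (by omega)
    obtain ⟨y, hy⟩ := card_pos.1 h2
    simp only [mem_filter, mem_univ, true_and] at hy
    have h3 := fix_of_not_col hI h hA hfix hy.1 hy.2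
    refine fix_of_not_col hI h hy.1 h3 hx fun h4 => hy.2 ?_
    exact col_trans hI hV hc (col_symm h4)
  · exact fix_of_not_col hI h hA hfix hx hc

lemma reg_image (hI : Pln I q) {ψ : P ≃ P} {τ : L ≃ L} (h : Cen I V a ψ τ) {x : P}
    (hx : Reg I V a x) : Reg I V a (ψ x) ∧ Col I V x (ψ x) := by
  refine ⟨⟨fun h1 => ?_, fun h1 => ?_⟩, ?_⟩
  · have h2 := cen_V hI h
    exact hx.1 (ψ.injective (h1.trans h2.symm))
  · have h2 := h.2.2 _ h1
    have h3 := ψ.injective h2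
    rw [h3] at h1
    exact hx.2 h1
  · obtain ⟨k, hk1, hk2⟩ := hI.join V x hx.1.symm
    refine ⟨k, hk1, hk2, ?_⟩
    have := (h.1 x k).1 hk2
    rwa [h.2.1 k hk1] at this

end TRNM

open TRNM in
theorem specTRN (hFIB : SpecFIB.{u}) : SpecTRN.{u} := by
  intro P L _ _ I q hI V a A S hA hS hψ A₁ A₂ hA₁ hA₂ hcol
  obtain ⟨h0, -, hh⟩ := (hFIB P L I q hI V a).2
  have hex : ∀ A' ∈ S, ∃ (ψ : P ≃ P) (τ : L ≃ L), Cen I V a ψ τ ∧ ψ A = A' :=
    fun A' hA' => (hψ A' hA').2.2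
  choose! Ψ T hΨ using hex
  have hinj : ∀ B, Reg I V a B → Set.InjOn (fun A' => Ψ A' B) (S : Set P) := by
    intro B hB A' hA' A'' hA'' heq
    have h1 := cen_trans (hΨ A' hA').1 (cen_symm (hΨ A'' hA'').1)
    have h2 : ((Ψ A').trans (Ψ A'').symm) B = B := by
      show (Ψ A'').symm (Ψ A' B) = B
      rw [Equiv.symm_apply_eq]
      exact heq
    have h3 := fix_all hFIB hI h1 hB h2 A
    have h4 : (Ψ A'').symm (Ψ A' A) = A := h3
    rw [Equiv.symm_apply_eq, (hΨ A' hA').2, (hΨ A'' hA'').2] at h4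
    exact h4
  have hc1 : #(S.image fun A' => Ψ A' A₁) = #S := card_image_of_injOn (hinj A₁ hA₁)
  have hc2 : #(S.image fun A' => Ψ A' A₂) = #S := card_image_of_injOn (hinj A₂ hA₂)
  have hs1 : (S.image fun A' => Ψ A' A₁) ⊆
      ({x : P | Reg I V a x ∧ Col I V A₁ x} : Finset P) := by
    intro x hx
    rw [mem_image] at hx
    obtain ⟨A', hA', rfl⟩ := hx
    simp only [mem_filter, mem_univ, true_and]
    exact reg_image hI (hΨ A' hA').1 hA₁
  have hs2 : (S.image fun A' => Ψ A' A₂) ⊆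
      ({x : P | Reg I V a x ∧ Col I V A₁ x} : Finset P) := by
    intro x hx
    rw [mem_image] at hx
    obtain ⟨A', hA', rfl⟩ := hx
    simp only [mem_filter, mem_univ, true_and]
    have h1 := reg_image hI (hΨ A' hA').1 hA₂
    exact ⟨h1.1, col_trans hI hA₂.1 hcol h1.2⟩
  have hcard : #{x : P | Reg I V a x ∧ Col I V A₁ x} <
      #(S.image fun A' => Ψ A' A₁) + #(S.image fun A' => Ψ A' A₂) := by
    rw [hc1, hc2, (hh A₁ hA₁).1, ← (hh A hA).1]
    omega
  obtain ⟨x, hx⟩ := inter_nonempty_of_card_lt_card_add_card hs1 hs2 hcard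
  rw [mem_inter, mem_image, mem_image] at hx
  obtain ⟨⟨A', hA', h1⟩, A'', hA'', h2⟩ := hx
  refine ⟨(Ψ A').trans (Ψ A'').symm, (T A').trans (T A'').symm,
    cen_trans (hΨ A' hA').1 (cen_symm (hΨ A'' hA'').1), ?_⟩
  show (Ψ A'').symm (Ψ A' A₁) = A₂
  rw [Equiv.symm_apply_eq, h2]
  exact h1

end Pool.Agent.Lib.MP595dad.NR
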