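import Pool.Agent.Lib.MP_595dad_co.NR.SpecB

set_option autoImplicit false
set_option linter.unusedSectionVars false

namespace Pool.Agent.Lib.MP595dad.NR

open Finset
open scoped Classical

universe u

namespace VARM

variable {P L : Type u} [Fintype P] [Fintype L] {I : P → L → Prop} {q : ℕ}

theorem sum_r (h : Pln I q) (G : Finset L) : ∑ x : P, rr I G x = #G * (q + 1) := by
  have h1 := sum_rr_eq_sum_ss I (univ : Finset P) G
  rw [h1, Finset.sum_congr rfl (g := fun _ => q + 1)]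
  · simp
  · intro l _
    exact h.size l

theorem inner (h : Pln I q) (G : Finset L) {l : L} (hl : l ∈ G) :
    ∑ m ∈ G, ss I ({x : P | I x l} : Finset P) m ≤ #G + q := by
  rw [← Finset.add_sum_erase G _ hl]
  have h1 : ss I ({x : P | I x l} : Finset P) l = q + 1 := by
    rw [← h.size l]
    unfold ss
    congr 1
    ext x
    simp
  have h2 : ∑ m ∈ G.erase l, ss I ({x : P | I x l} : Finset P) m ≤ ∑ m ∈ G.erase l, 1 := by
    refine Finset.sum_le_sum fun m hm => ?_
    unfold ss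
    rw [Finset.card_le_one]
    intro x hx y hy
    simp only [mem_filter, mem_univ, true_and] at hx hy
    exact h.point_eq (Finset.ne_of_mem_erase hm).symm hx.1 hy.1 hx.2 hy.2
  rw [h1]
  have h3 : #(G.erase l) = #G - 1 := Finset.card_erase_of_mem hl
  have h4 : 0 < #G := Finset.card_pos.2 ⟨l, hl⟩
  simp only [sum_const, smul_eq_mul, mul_one, h3] at h2
  omega

theorem sum_sq (h : Pln I q) (G : Finset L) :
    ∑ x : P, rr I G x ^ 2 ≤ #G * (#G + q) := by
  have h1 : ∀ x : P, rr I G x ^ 2 = ∑ l ∈ G, if I x l then rr I G x else 0 := by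
    intro x
    rw [← Finset.sum_filter, Finset.sum_const, smul_eq_mul, sq]
    rfl
  calc ∑ x : P, rr I G x ^ 2 = ∑ x : P, ∑ l ∈ G, (if I x l then rr I G x else 0) :=
        Finset.sum_congr rfl fun x _ => h1 x
    _ = ∑ l ∈ G, ∑ x : P, (if I x l then rr I G x else 0) := Finset.sum_comm
    _ = ∑ l ∈ G, ∑ m ∈ G, ss I ({x : P | I x l} : Finset P) m := by
        refine Finset.sum_congr rfl fun l _ => ?_
        rw [← sum_rr_eq_sum_ss, ← Finset.sum_filter]
    _ ≤ ∑ _l ∈ G, (#G + q) := Finset.sum_le_sum fun l hl => inner h G hl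
    _ = #G * (#G + q) := by simp

end VARM

theorem specVAR : SpecVAR.{u} := by
  intro P L _ _ I q h G
  have h1 : (∑ x : P, (rr I G x : ℝ)) = (#G : ℝ) * ((q : ℝ) + 1) := by
    have := VARM.sum_r h G
    exact_mod_cast this
  have h2 : (∑ x : P, (rr I G x : ℝ) ^ 2) ≤ (#G : ℝ) * ((#G : ℝ) + q) := by
    have := VARM.sum_sq h G
    exact_mod_cast this
  have hn : (Fintype.card P : ℝ) = (q : ℝ) ^ 2 + q + 1 := by
    have := h.cardP
    exact_mod_cast this
  have hq : (0 : ℝ) ≤ q := Nat.cast_nonneg q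
  have hg : (0 : ℝ) ≤ #G := Nat.cast_nonneg _
  have hn0 : (0 : ℝ) < (q : ℝ) ^ 2 + q + 1 := by positivity
  set n : ℝ := (q : ℝ) ^ 2 + q + 1 with hndef
  set g : ℝ := (#G : ℝ) with hgdef
  set μ : ℝ := g * ((q : ℝ) + 1) / n with hμ
  have hexp : (∑ x : P, ((rr I G x : ℝ) - μ) ^ 2) =
      (∑ x : P, (rr I G x : ℝ) ^ 2) - 2 * μ * (∑ x : P, (rr I G x : ℝ)) + n * μ ^ 2 := by
    have h3 : ∀ x : P, ((rr I G x : ℝ) - μ) ^ 2 = (rr I G x : ℝ) ^ 2 - 2 * μ * (rr I G x : ℝ) + μ ^ 2 := by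
      intro x; ring
    rw [Finset.sum_congr rfl fun x _ => h3 x, Finset.sum_add_distrib, Finset.sum_sub_distrib,
      ← Finset.mul_sum, Finset.sum_const, nsmul_eq_mul, Finset.card_univ, hn]
  rw [hexp, h1]
  have hμn : n * μ = g * ((q : ℝ) + 1) := by
    rw [hμ]; field_simp
  have hμn2 : n * μ ^ 2 = g * ((q : ℝ) + 1) * μ := by
    rw [sq, ← mul_assoc, hμn]
  have hμg : g ≤ μ * (q + 1) := by
    rw [hμ, div_mul_eq_mul_div, le_div_iff₀ hn0]
    have : n ≤ ((q : ℝ) + 1) * (q + 1) := by rw [hndef]; nlinarith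
    nlinarith [mul_le_mul_of_nonneg_left this hg]
  rw [hμn2]
  nlinarith [mul_le_mul_of_nonneg_left hμg hg]

end Pool.Agent.Lib.MP595dad.NR
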