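import Pool.Agent.Lib.MP_595dad_co.NR.SpecA

/-!
# WIT: the witnesses of a lost flag on a good line
-/

set_option autoImplicit false

namespace Pool.Agent.Lib.MP595dad.NR

open Finset
open scoped Classical

universe u

theorem specWIT (hINJ : SpecINJ.{u}) : SpecWIT.{u} := by
  intro P L M _ _ _ I J q hI hJ f x l hl hxl hxf
  -- the points of `l` on `f l`
  set S : Finset P := {z : P | I z l ∧ J z (f l)} with hS
  have hScard : #S + dd I J f l = q + 1 := hI.split J f l
  have hmemS : ∀ z, z ∈ S ↔ I z l ∧ J z (f l) := by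
    intro z
    simp [hS]
  have hne : ∀ z ∈ S, x ≠ z := by
    rintro z hz rfl
    exact hxf ((hmemS x).1 hz).2
  -- the new lines joining `x` and `z`
  have hex : ∀ z : P, ∃ m : M, x ≠ z → J x m ∧ J z m := by
    intro z
    by_cases h : x = z
    · exact ⟨f l, fun h' => absurd h h'⟩
    · obtain ⟨m, hm⟩ := hJ.join x z h
      exact ⟨m, fun _ => hm⟩
  choose m hm using hex
  have hminj : ∀ z ∈ S, ∀ z' ∈ S, m z = m z' → z = z' := by
    intro z hz z' hz' h
    by_contra hzz
    have h1 := hm z (hne z hz)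
    have h2 := hm z' (hne z' hz')
    rw [← h] at h2
    have h3 : m z = f l := hJ.line_eq hzz h1.2 h2.2 ((hmemS z).1 hz).2 ((hmemS z').1 hz').2
    rw [h3] at h1
    exact hxf h1.1
  -- the good lines through `x` with `x` on the image
  set G : Finset L := {N : L | I x N ∧ ¬ (N ∈ badL I J f q ∨ ¬ J x (f N))} with hG
  have hmemG : ∀ N, N ∈ G ↔ I x N ∧ N ∉ badL I J f q ∧ J x (f N) := by
    intro N
    simp only [hG, mem_filter, mem_univ, true_and, not_or, not_not]
  have hGcard : #G + dl I J f q x = q + 1 := by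
    rw [← hI.deg x, dl, hG, ← filter_filter, ← filter_filter, add_comm]
    exact card_filter_add_card_filter_not _
  have hfinj : Set.InjOn f (G : Set L) := by
    intro N hN N' hN' h
    exact hINJ P L M I J q hI hJ f N N' ((hmemG N).1 hN).2.1 ((hmemG N').1 hN').2.1 h
  have himg : G.image f ⊆ ({k : M | J x k} : Finset M) := by
    intro k hk
    rw [mem_image] at hk
    obtain ⟨N, hN, rfl⟩ := hk
    simp only [mem_filter, mem_univ, true_and]
    exact ((hmemG N).1 hN).2.2
  have himgc : #(G.image f) = #G := card_image_of_injOn hfinj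
  -- the set `Z`
  set Z : Finset P := {z ∈ S | m z ∈ G.image f} with hZ
  have hbad : #{z ∈ S | m z ∉ G.image f} ≤ dl I J f q x := by
    have h1 : #{z ∈ S | m z ∉ G.image f} ≤ #(({k : M | J x k} : Finset M) \ G.image f) := by
      refine card_le_card_of_injOn m ?_ ?_
      · intro z hz
        rw [mem_coe, mem_filter] at hz
        rw [mem_coe, mem_sdiff]
        refine ⟨?_, hz.2⟩
        simp only [mem_filter, mem_univ, true_and]
        exact (hm z (hne z hz.1)).1
      · intro z hz z' hz' h
        rw [mem_coe, mem_filter] at hz hz'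
        exact hminj z hz.1 z' hz'.1 h
    have h2 := card_sdiff_add_card_eq_card himg
    rw [hJ.deg x, himgc] at h2
    omega
  have hZS : #Z + #{z ∈ S | m z ∉ G.image f} = #S := card_filter_add_card_filter_not _
  have hexN : ∀ z : P, ∃ N : L, z ∈ Z → N ∈ G ∧ f N = m z := by
    intro z
    by_cases h : z ∈ Z
    · have h1 := h
      rw [hZ, mem_filter, mem_image] at h1
      obtain ⟨-, N, hN, hN'⟩ := h1
      exact ⟨N, fun _ => ⟨hN, hN'⟩⟩
    · exact ⟨l, fun h' => absurd h' h⟩
  choose N hN using hexN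
  refine ⟨Z, N, by omega, ?_, ?_⟩
  · intro z hz
    have hzS : z ∈ S := (mem_filter.1 hz).1
    obtain ⟨h1, h2⟩ := hN z hz
    obtain ⟨h3, h4, h5⟩ := (hmemG (N z)).1 h1
    have h6 := hm z (hne z hzS)
    refine ⟨((hmemS z).1 hzS).1, ((hmemS z).1 hzS).2, h4, h3, h5, by rw [h2]; exact h6.2, ?_⟩
    intro h7
    have h8 : N z = l := hI.line_eq (hne z hzS) h3 h7 hxl ((hmemS z).1 hzS).1
    rw [h8] at h5
    exact hxf h5
  · intro z hz z' hz' h
    have h1 := (hN z hz).2
    have h2 := (hN z' hz').2
    rw [← h] at h2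
    exact hminj z (mem_filter.1 hz).1 z' (mem_filter.1 hz').1 (h1.symm.trans h2)

end Pool.Agent.Lib.MP595dad.NR
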