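import Pool.Agent.Lib.MP_595dad_co.NR.Bridge
import Pool.Agent.Lib.MP_595dad_co.NR.INJ
import Pool.Agent.Lib.MP_595dad_co.NR.CNT
import Pool.Agent.Lib.MP_595dad_co.NR.WIT
import Pool.Agent.Lib.MP_595dad_co.NR.FWD
import Pool.Agent.Lib.MP_595dad_co.NR.BWD
import Pool.Agent.Lib.MP_595dad_co.NR.NP
import Pool.Agent.Lib.MP_595dad_co.NR.LIN
import Pool.Agent.Lib.MP_595dad_co.NR.PNT
import Pool.Agent.Lib.MP_595dad_co.NR.BP
import Pool.Agent.Lib.MP_595dad_co.NR.VAR
import Pool.Agent.Lib.MP_595dad_co.NR.DEV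
import Pool.Agent.Lib.MP_595dad_co.NR.NPQ
import Pool.Agent.Lib.MP_595dad_co.NR.LN
import Pool.Agent.Lib.MP_595dad_co.NR.PN
import Pool.Agent.Lib.MP_595dad_co.NR.FST
import Pool.Agent.Lib.MP_595dad_co.NR.CP
import Pool.Agent.Lib.MP_595dad_co.NR.EXF
import Pool.Agent.Lib.MP_595dad_co.NR.FW4
import Pool.Agent.Lib.MP_595dad_co.NR.BW4
import Pool.Agent.Lib.MP_595dad_co.NR.MOV
import Pool.Agent.Lib.MP_595dad_co.NR.NR
import Pool.Agent.Lib.MP_595dad_co.NR.PEX
import Pool.Agent.Lib.MP_595dad_co.NR.FIB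
import Pool.Agent.Lib.MP_595dad_co.NR.AVG
import Pool.Agent.Lib.MP_595dad_co.NR.LAM
import Pool.Agent.Lib.MP_595dad_co.NR.FLG
import Pool.Agent.Lib.MP_595dad_co.NR.COL
import Pool.Agent.Lib.MP_595dad_co.NR.TRN
import Pool.Agent.Lib.MP_595dad_co.NR.DG

/-!
# MP_595dad_co, NR: assembly
-/

set_option autoImplicit false

namespace Pool.Agent.Lib.MP595dad.NR

universe u

theorem mainWIT : SpecWIT.{u} := specWIT specINJ

theorem mainFWD : SpecFWD.{u} := specFWD specINJ specCNT mainWIT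

theorem mainBP : SpecBP.{u} :=
  specBP specINJ specCNT mainFWD (specBWD specINJ specCNT mainFWD) (specLIN specNP) (specPNT specNP)

theorem mainDEV : SpecDEV.{u} := specDEV specVAR

theorem mainNPQ : SpecNPQ.{u} := specNPQ specNP

theorem mainFST : SpecFST.{u} :=
  specFST mainDEV (specLN mainDEV mainNPQ) (specPN mainDEV mainNPQ)

theorem mainCP : SpecCP.{u} := specCP specCNT mainBP mainDEV mainFST

theorem mainNR : SpecNR.{u} :=
  specNR specINJ specCNT mainBP mainDEV mainCP (specFW4 specINJ mainWIT specEXF) (specBW4 specINJ)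
    (specMOV mainDEV)

theorem mainPEX : SpecPEX.{u} := specPEX

theorem mainDG : SpecDG.{u} :=
  specDG (specAVG mainPEX specFIB) (specFLG mainPEX (specLAM mainPEX)) (specCOL specCNT mainBP)
    (specTRN specFIB)

end Pool.Agent.Lib.MP595dad.NR
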