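import Pool.Agent.Lib.MP_595dad_co.NR.Defs

/-!
# MP_595dad_co, part A: a matching which preserves all but `n / 32` flags is an isomorphism

Notation of all docstrings: `Q = q + 1`, `n = q ^ 2 + q + 1 ≤ Q ^ 2`, `F = FF I J f`, `d(l) = dd I J f l`,
`δ(x) = dl I J f q x`. Two planes `I : P → L → Prop` (old), `J : P → M → Prop` (new) of the same order
`q` on the same point set `P`, and a map `f : L → M` of the lines. `x ∈ l` stands for `I x l` and
`x ∈ f l` for `J x (f l)`. Good line: `4 d(l) < Q`; good point: `2 δ(x) < Q`.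

Every module is independent: file `NR/XXX.lean`, import only this file, namespace
`Pool.Agent.Lib.MP595dad.NR`, own lemmas in a namespace `XXXM`,
`theorem specXXX (hYYY : SpecYYY.{u}) ... : SpecXXX.{u}`.
-/

set_option autoImplicit false
set_option linter.unusedSectionVars false

namespace Pool.Agent.Lib.MP595dad.NR

open Finset
open scoped Classical

universe u

/-- INJ (no deps). `f` is injective on the good lines.

Proof. Let `f l = f m`, `l`, `m` good. On the new line `f l` (of size `Q`) there are `Q - d(l) > 3 Q / 4`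
points of `l` and `Q - d(m) > 3 Q / 4` points of `m` (`Pln.split`), hence more than `Q / 2` points, so
at least `2` points (`Q ≥ 3`, so more than `Q / 2` means at least `2`), of `l ∩ m`. Hence `l = m`. -/
def SpecINJ : Prop :=
  ∀ (P L M : Type u) [Fintype P] [Fintype L] [Fintype M] (I : P → L → Prop) (J : P → M → Prop) (q : ℕ),
    Pln I q → Pln J q → ∀ (f : L → M) (l m : L), l ∉ badL I J f q → m ∉ badL I J f q →
    f l = f m → l = m

/-- CNT (no deps).

Proof. (1) Every bad line has `4 d(l) ≥ Q`, so `4 F ≥ Q * #badL`. (2) `∑ x, δ(x)` is the number of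
pairs `(x, l)`, `x ∈ l` with `l` bad (`Q` for each bad line) or `l` good and `x ∉ f l` (at most `F` pairs),
so it is at most `Q * #badL + F ≤ 5 F`. Every `x` with `Q ≤ c δ(x)` contributes at least `Q / c`:
`Q * #{x | Q ≤ c δ(x)} ≤ c * ∑ x, δ(x) ≤ 5 c F`. -/
def SpecCNT : Prop :=
  ∀ (P L M : Type u) [Fintype P] [Fintype L] [Fintype M] (I : P → L → Prop) (J : P → M → Prop) (q : ℕ),
    Pln I q → Pln J q → ∀ (f : L → M), (q + 1) * #(badL I J f q) ≤ 4 * FF I J f ∧
      ∀ c : ℕ, (q + 1) * #{x : P | q + 1 ≤ c * dl I J f q x} ≤ 5 * c * FF I J f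

/-- WIT (deps INJ). The witnesses of a lost flag on a good line.

Proof. Let `x ∈ l`, `x ∉ f l`, `l` good. For `z ∈ l ∩ f l` (there are `Q - d(l)` such points, all
`≠ x`) let `m_z` be the new line joining `x` and `z`. The lines `m_z` are distinct: if `m_z = m_z'`,
`z ≠ z'`, then it contains two points of `f l`, so `m_z = f l`, but `x ∉ f l`. Let `A` be the set of the
new lines through `x` of the form `f N` with `N` good and `x ∈ N`. By INJ `#A = #{N good, x ∈ N, x ∈ f N} =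
Q - δ(x)` (definition of `δ` and `#{N | x ∈ N} = Q`), so exactly `δ(x)` of the `Q` new lines through `x`
are not in `A`. Hence for all but at most `δ(x)` of the `z` we have `m_z = f N_z` with `N_z` good,
`x ∈ N_z`; let `Z` be the set of these `z`: `#Z ≥ Q - d(l) - δ(x)`. For `z ∈ Z`: `x, z ∈ m_z = f N_z`; if
`z ∈ N_z` then `N_z` and `l` contain `x ≠ z`, so `N_z = l` and `f l = m_z` contains `x`, which is not so.
Hence `z ∉ N_z`. If `N_z = N_z'` then `m_z = m_z'`, so `z = z'`. -/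
def SpecWIT : Prop :=
  ∀ (P L M : Type u) [Fintype P] [Fintype L] [Fintype M] (I : P → L → Prop) (J : P → M → Prop) (q : ℕ),
    Pln I q → Pln J q → ∀ (f : L → M) (x : P) (l : L), l ∉ badL I J f q → I x l → ¬ J x (f l) →
    ∃ (Z : Finset P) (N : P → L), q + 1 ≤ #Z + dd I J f l + dl I J f q x ∧
      (∀ z ∈ Z, I z l ∧ J z (f l) ∧ N z ∉ badL I J f q ∧ I x (N z) ∧ J x (f (N z)) ∧
        J z (f (N z)) ∧ ¬ I z (N z)) ∧
      ∀ z ∈ Z, ∀ z' ∈ Z, N z = N z' → z = z'

/-- FWD (deps INJ, CNT, WIT). If `32 F ≤ n`, then `x ∈ l` implies `x ∈ f l` for good `x`, good `l`.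

Proof. Suppose `x ∈ l`, `x ∉ f l`, `x` and `l` good. WIT gives `Z`, `N_z` with
`#Z ≥ Q - d(l) - δ(x) > Q - Q / 4 - Q / 2 = Q / 4`.

CLAIM (TRI): let `N` be good, `z ∈ f N`, `z ∉ N`, `x' ∈ N ∩ f N` and let `K` be an old line through
`z` and `x'`. Then `d(K) ≥ 1`. Indeed if `d(K) = 0` then `z, x' ∈ f K`, and `z, x' ∈ f N`, `z ≠ x'` (`x' ∈ N`,
`z ∉ N`), so `f K = f N`; both are good, so `K = N` by INJ, but `z ∈ K`, `z ∉ N`.

For `z ∈ Z` and `x' ∈ N_z ∩ f N_z`, `x' ≠ x` (more than `3 Q / 4 - 1` choices), let `K = x' z`. It has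
`d(K) ≥ 1`; it is `≠ l`, since otherwise `x' ∈ l ∩ N_z = {x}` (`N_z ≠ l` as `z ∈ l`, `z ∉ N_z`). For fixed `z` different
`x'` give different `K` (`K` meets `N_z` in `x'` only, as `z ∉ N_z`), and for different `z` the `K` are different
(`K ≠ l` meets `l` in `z` only). So the number of old lines with `d(K) ≥ 1`, which is at most `F`, is
more than `(Q / 4) (3 Q / 4 - 1) ≥ Q ^ 2 / 32 ≥ n / 32 ≥ F` (the first inequality is `5 Q / 8 ≥ 1`).
Contradiction. (In integers: `4 #Z ≥ Q + 1`, each `z` gives at least `m` lines with `4 (m + 1) ≥ 3 Q + 1`.) -/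
def SpecFWD : Prop :=
  ∀ (P L M : Type u) [Fintype P] [Fintype L] [Fintype M] (I : P → L → Prop) (J : P → M → Prop) (q : ℕ),
    Pln I q → Pln J q → ∀ (f : L → M), 32 * FF I J f ≤ q ^ 2 + q + 1 →
    ∀ (x : P) (l : L), x ∉ badP I J f q → l ∉ badL I J f q → I x l → J x (f l)

/-- BWD (deps INJ, CNT, FWD). If `32 F ≤ n`, then `x ∈ f l` implies `x ∈ l` for good `x`, good `l`.

Proof. Suppose `x ∈ f N`, `x ∉ N`, `x` and `N` good. For `x' ∈ N ∩ f N` (more than `3 Q / 4` choices) let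
`K` be the old line `x x'` (`x ≠ x'` as `x ∉ N`). Different `x'` give different `K` (`K` meets `N` in `x'` only).
Either `K` is bad, or `K` is good and then `x ∈ f K` by FWD; if also `x'` is good then `x' ∈ f K` by FWD, so
`f K` and `f N` both contain `x ≠ x'`, `f K = f N`, `K = N` by INJ, but `x ∈ K`, `x ∉ N`. So for each of the `x'`
either `x'` is bad or `K` is bad: `3 Q / 4 < #badP + #badL`. By CNT (`c = 2`) `Q (#badP + #badL) ≤ 14 F`
and `32 F ≤ n ≤ Q ^ 2`, so `#badP + #badL ≤ 14 Q / 32 < 3 Q / 4`. Contradiction. -/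
def SpecBWD : Prop :=
  ∀ (P L M : Type u) [Fintype P] [Fintype L] [Fintype M] (I : P → L → Prop) (J : P → M → Prop) (q : ℕ),
    Pln I q → Pln J q → ∀ (f : L → M), 32 * FF I J f ≤ q ^ 2 + q + 1 →
    ∀ (x : P) (l : L), x ∉ badP I J f q → l ∉ badL I J f q → J x (f l) → I x l

/-- NP (no deps). The near pencil lemma: a finite set `X` of points and a finite set `K` of blocks such
that any two points of `X` are in exactly one common block of `K`.

Proof. Let `k` be a block with the largest number `t` of points of `X`; `t ≥ 2` since two points of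
`X` are in a common block. Write `r(x) = #{k ∈ K | R x k}`.
(1) If `x ∈ X` is not on `k`, the `t` blocks joining `x` to the `t` points of `X` on `k` are distinct (a block
through two points of `k` is `k`), so `r(x) ≥ t`. If `x` is on `k` then `r(x) ≥ 1`. So
`∑ r(x) ≥ (#X - t) t + t = t (#X + 1 - t)`.
(2) The `#X - 1` other points of `X` are covered by the `r(x)` blocks through `x`, each of which has at most `t - 1`
other points: `#X - 1 ≤ (t - 1) r(x)`. Sum over `x ∈ X`. -/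
def SpecNP : Prop :=
  ∀ (α β : Type u) (X : Finset α) (K : Finset β) (R : α → β → Prop), 2 ≤ #X →
    (∀ x ∈ X, ∀ y ∈ X, x ≠ y → ∃ k ∈ K, R x k ∧ R y k) →
    (∀ x ∈ X, ∀ y ∈ X, x ≠ y → ∀ k ∈ K, ∀ k' ∈ K, R x k → R y k → R x k' → R y k' → k = k') →
    ∃ k ∈ K, 2 ≤ #{x ∈ X | R x k} ∧ #{x ∈ X | R x k} ≤ #X ∧
      #{x ∈ X | R x k} * (#X + 1 - #{x ∈ X | R x k}) ≤ ∑ x ∈ X, #{k ∈ K | R x k} ∧
      #X * (#X - 1) ≤ (#{x ∈ X | R x k} - 1) * ∑ x ∈ X, #{k ∈ K | R x k}

/-- LIN (deps NP). From an isomorphism off `B` which is defined on the lines of `G` to a bijection of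
all the lines.

Proof. Let `β = #{l | l ∉ G}`, `b = #B`, and let `W` be the set of the new lines which are not in `f (G)`;
`f` is injective on `G`, so `#W = n - #G = β`. For `x ∉ B`: the number of `m ∈ W` through `x` is
`Q - #{l ∈ G | x ∈ f l} = Q - #{l ∈ G | x ∈ l} = r(x)`, the number of the old lines not in `G` through `x`.
(1) Let `S ∈ W` (so `β ≥ 1`), `X = {x | x ∈ S, x ∉ B}`, `u = #X ≥ Q - b ≥ β + 2`. An old line `K` which contains two
points of `X` is not in `G`, since otherwise `f K` contains these two points and `f K = S`. Apply NP to `X`, the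
set of all old lines not in `G` and `R = I`: `∑ x ∈ X, r(x) = ∑ S' ∈ W, #(S' ∩ X) ≤ u + (β - 1)` (the other `S' ∈ W`
meet `S` in one point). So there is an old line `K(S) ∉ G` with `t = #{x ∈ X | x ∈ K(S)}`, `2 ≤ t ≤ u` and
`t (u + 1 - t) ≤ u + β - 1`. If `t < u` then `t (u + 1 - t) - 2 (u - 1) = (t - 2) (u - 1 - t) ≥ 0`, so
`2 (u - 1) ≤ u + β - 1`, `u ≤ β + 1`, contradiction. So `t = u`: `X ⊆ K(S)`.
(2) Put `κ (f l) = l` for `l ∈ G` and `κ S = K(S)` for `S ∈ W`. For all new lines `m` and `x ∉ B`: `x ∈ m` implies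
`x ∈ κ m`. `κ` is injective: `K(S) ∉ G`, and if `K(S) = K(S')`, `S ≠ S'` in `W`, then in this line of size `Q` there
are `≥ Q - b` points of `S` and `≥ Q - b` points of `S'`, so `≥ Q - 2 b ≥ 2` points of `S ∩ S'`, contradiction. The
numbers of lines are equal, so `κ` is a bijection; `τ = κ⁻¹`. For `x ∉ B`, `{l | x ∈ τ l} ⊆ {l | x ∈ l}` and both
sets have `Q` elements, so they are equal. -/
def SpecLIN : Prop :=
  ∀ (P L M : Type u) [Fintype P] [Fintype L] [Fintype M] (I : P → L → Prop) (J : P → M → Prop) (q : ℕ),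
    Pln I q → Pln J q → ∀ (f : L → M) (B : Finset P) (G : Finset L),
    (∀ l ∈ G, ∀ m ∈ G, f l = f m → l = m) → (∀ x ∉ B, ∀ l ∈ G, (I x l ↔ J x (f l))) →
    #B + #{l : L | l ∉ G} + 2 ≤ q + 1 → 2 * #B + 2 ≤ q + 1 →
    ∃ τ : L ≃ M, (∀ l ∈ G, τ l = f l) ∧ ∀ x ∉ B, ∀ l, (I x l ↔ J x (τ l))

/-- PNT (deps NP). From a bijection of the lines which is right off fewer than `q` points to an isomorphism.

Proof. Let `b = #B`. If `x ∈ B` and `l ≠ l'` are old lines through `x`, then `τ l ≠ τ l'` meet in a point `y`; if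
`y ∉ B` then `y ∈ l` and `y ∈ l'`, so `y = x ∈ B`, contradiction. So `y ∈ B`. Apply NP to `X = {l | x ∈ l}` (`#X = Q`),
`K = B`, `R l y = (y ∈ τ l)`: `∑ l ∈ X, #{y ∈ B | y ∈ τ l}`; off `B` the lines `l` and `τ l` have the same points and
both have `Q` points, so `#{y ∈ B | y ∈ τ l} = #{y ∈ B | y ∈ l}`, and the sum is `Q + (b - 1) = q + b` (`x` is
on all `Q` lines `l`, every other `y ∈ B` on exactly one). So there is `y* ∈ B` such that the number `t` of `l ∈ X`
with `y* ∈ τ l` has `2 ≤ t ≤ Q`, `t (Q + 1 - t) ≤ q + b < 2 q`. If `t ≤ q` then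
`t (Q + 1 - t) - 2 q = (t - 2) (q - t) ≥ 0`, contradiction. So `t = Q`: all `τ l`, `l ∋ x`, pass through `y*`;
put `g x = y*`. For `x ∉ B` put `g x = x`. In all cases `x ∈ l` implies `g x ∈ τ l`. `g` is injective: if
`g x = g x' = y`, `x ≠ x'`, the at least `2 Q - 1 > Q` lines `τ l`, `l` through `x` or `x'`, pass through `y`. So `g` is
a bijection. For every `x`, `{l | x ∈ l} ⊆ {l | g x ∈ τ l}` and both sets have `Q` elements. -/
def SpecPNT : Prop :=
  ∀ (P L M : Type u) [Fintype P] [Fintype L] [Fintype M] (I : P → L → Prop) (J : P → M → Prop) (q : ℕ),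
    Pln I q → Pln J q → ∀ (τ : L ≃ M) (B : Finset P), #B < q →
    (∀ x ∉ B, ∀ l, (I x l ↔ J x (τ l))) →
    ∃ g : P ≃ P, (∀ x ∉ B, g x = x) ∧ ∀ x l, (I x l ↔ J (g x) (τ l))

/-- BP (deps INJ, CNT, FWD, BWD, LIN, PNT). MAIN THEOREM OF PART A.

Proof. `B = badP`, `G = {l | l ∉ badL}`. By CNT (`c = 2`) `Q * #B ≤ 10 F`, `Q * #badL ≤ 4 F`, and
`32 F ≤ n ≤ Q ^ 2`, so `32 #B ≤ 10 Q`, `32 #badL ≤ 4 Q`, `#B + #badL ≤ 14 Q / 32`. If `F = 0` both sets are
empty and the conditions of LIN and PNT hold since `Q ≥ 3`. If `F ≥ 1` then `n ≥ 32`, `q ≥ 6` (`q = 5` gives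
`n = 31`), `Q ≥ 7`: `#B + #badL + 2 ≤ 14 Q / 32 + 2 ≤ Q`, `2 #B + 2 ≤ 20 Q / 32 + 2 ≤ Q` (equivalent to `Q ≥ 5.4`),
`#B ≤ 10 Q / 32 < q`. LIN (with FWD, BWD, INJ), then PNT. -/
def SpecBP : Prop :=
  ∀ (P L M : Type u) [Fintype P] [Fintype L] [Fintype M] (I : P → L → Prop) (J : P → M → Prop) (q : ℕ),
    Pln I q → Pln J q → ∀ (f : L → M), 32 * FF I J f ≤ q ^ 2 + q + 1 →
    ∃ (g : P ≃ P) (τ : L ≃ M), (∀ x l, (I x l ↔ J (g x) (τ l))) ∧
      (∀ x ∉ badP I J f q, g x = x) ∧ ∀ l ∉ badL I J f q, τ l = f l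

end Pool.Agent.Lib.MP595dad.NR
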