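import Pool.Agent.Lib.MP_595dad_co.NR.SpecA

/-!
# MP_595dad_co, part B: planes with all but `q ^ (3 / 2) / 1000` points and lines in common (theorem CP)
and matchings which lose at most `q ^ (5 / 2) / 10 ^ 5` flags (theorem NR)

Notation of all docstrings: `Q = q + 1`, `n = q ^ 2 + q + 1`, `s = √q` (so `n = s ^ 4 + s ^ 2 + 1`, `q Q ≤ n ≤ Q ^ 2`),
`b = #B`, `β = #{l | l ∉ G}`, `κ = 2 + 3 s / 1000`. Agreement off `B` on `G`: `f` is injective on `G` and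
`∀ x ∉ B, ∀ l ∈ G, (I x l ↔ J x (f l))`. Rules as in `SpecA` (import only this file instead of `SpecA`).
The dual plane is `Pln.dual`: `rr (fun l x => I x l) B l = ss I B l` by definition (`rfl`); a plane with relabelled
points is `Pln.comp`.
-/

set_option autoImplicit false
set_option linter.unusedSectionVars false

namespace Pool.Agent.Lib.MP595dad.NR

open Finset
open scoped Classical

universe u

/-- relabelling the points -/
theorem Pln.comp {P L : Type u} [Fintype P] [Fintype L] {I : P → L → Prop} {q : ℕ} (h : Pln I q)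
    (g : P ≃ P) : Pln (fun x l => I (g x) l) q where
  two := h.two
  cardP := h.cardP
  cardL := h.cardL
  size := by
    intro l
    rw [← h.size l]
    refine card_bij (fun x _ => g x) ?_ ?_ ?_
    · intro x hx
      simpa using hx
    · intro x _ y _ hxy
      exact g.injective hxy
    · intro y hy
      exact ⟨g.symm y, by simpa using hy, g.apply_symm_apply y⟩
  deg := fun x => h.deg (g x)
  join := fun x y hxy => h.join (g x) (g y) fun h1 => hxy (g.injective h1)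
  meet := by
    intro l m hlm
    obtain ⟨x, h1, h2⟩ := h.meet l m hlm
    exact ⟨g.symm x, by simpa using h1, by simpa using h2⟩
  uniq := by
    intro x y l m h1 h2 h3 h4
    rcases h.uniq (g x) (g y) l m h1 h2 h3 h4 with h5 | h5
    · exact Or.inl (g.injective h5)
    · exact Or.inr h5

/-- VAR (no deps). The variance of the number of lines of `G` through a point.

Proof. `∑ r(x) = #G * Q`. `∑ r(x) ^ 2` counts the triples `(x, l, m)`, `l, m ∈ G`, `x ∈ l`, `x ∈ m`: `#G * Q` with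
`l = m` and `#G * (#G - 1)` with `l ≠ m` (one common point), so it is `#G * (#G + q)`. With `μ = #G * Q / n`:
`∑ (r(x) - μ) ^ 2 = #G (#G + q) - 2 μ #G Q + n μ ^ 2 = q #G + #G ^ 2 (1 - Q ^ 2 / n) ≤ q #G` since `n ≤ Q ^ 2`. -/
def SpecVAR : Prop :=
  ∀ (P L : Type u) [Fintype P] [Fintype L] (I : P → L → Prop) (q : ℕ), Pln I q → ∀ G : Finset L,
    (∑ x : P, ((rr I G x : ℝ) - (#G : ℝ) * ((q : ℝ) + 1) / ((q : ℝ) ^ 2 + q + 1)) ^ 2 : ℝ) ≤ (q : ℝ) * #G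

/-- DEV (deps VAR). Three consequences of VAR; `r(x) = rr I G x`, `μ = #G * Q / n`.

Proof. (a) `μ ≤ Q / 8`, so every `x` with `Q ≤ 4 r(x)` has `r(x) - μ ≥ Q / 8` and contributes at least `Q ^ 2 / 64`
to the sum of VAR: `#{..} * Q ^ 2 ≤ 64 q #G ≤ 64 Q #G`.
(b) Cauchy-Schwarz: `∑_{x ∈ X} r(x) = #X μ + ∑_{x ∈ X} (r(x) - μ) ≤ #X μ + √(#X * q * #G)`, and `μ ≤ #G / q` since `q Q ≤ n`.
(c) every `x` with `r(x) < D` has `μ - r(x) > μ - D ≥ μ / 2`, so `#{..} μ ^ 2 / 4 ≤ q #G`; multiply by `4 n ^ 2 / #G`. -/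
def SpecDEV : Prop :=
  ∀ (P L : Type u) [Fintype P] [Fintype L] (I : P → L → Prop) (q : ℕ), Pln I q → ∀ G : Finset L,
    (8 * #G ≤ q ^ 2 + q + 1 → (q + 1) * #{x : P | q + 1 ≤ 4 * rr I G x} ≤ 64 * #G) ∧
    (∀ X : Finset P, (∑ x ∈ X, (rr I G x : ℝ)) ≤
      (#X : ℝ) * #G / q + √((q : ℝ) * #X * #G)) ∧
    ∀ D : ℝ, 0 < #G → 2 * D * ((q : ℝ) ^ 2 + q + 1) ≤ (#G : ℝ) * (q + 1) →
      (#{x : P | (rr I G x : ℝ) < D} : ℝ) * #G * ((q : ℝ) + 1) ^ 2 ≤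
        4 * q * ((q : ℝ) ^ 2 + q + 1) ^ 2

/-- NPQ (deps NP). The near pencil lemma, quantitative form.

Proof. Let `u = #X`, `3 Q < 4 u`, `u ≤ Q`, `c ≤ s ^ 3 / 1000`, and let `k`, `t = #{x ∈ X | R x k}` be as in NP:
`2 ≤ t ≤ u`, `t (u + 1 - t) ≤ u + c`, `u (u - 1) ≤ (t - 1) (u + c)`.
If `2 t ≥ u + 1`, then `u + 1 - t ≤ 2 (u + c) / (u + 1) ≤ 2 + 2 c / u ≤ 2 + (8 / 3) c / Q ≤ 2 + (8 / 3) s / 1000`, so
`u - t ≤ 1 + (8 / 3) s / 1000 ≤ κ`.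
If `2 t < u + 1`, then `u + 1 - t > (u + 1) / 2`, so `t < 2 (u + c) / (u + 1)`, so `t - 1 ≤ t < 2 (u + c) / (u + 1)` and
`u (u - 1) (u + 1) < 2 (u + c) ^ 2`. But `c ≤ s ^ 3 / 1000 ≤ (s / 1000) Q ≤ (s / 750) u`, so
`2 (u + c) ^ 2 ≤ 2 (1 + s / 750) ^ 2 u ^ 2`, whereas `u (u ^ 2 - 1) ≥ u ^ 3 / 2 ≥ (3 / 8) s ^ 2 u ^ 2` (`u > 3 Q / 4 > 3 s ^ 2 / 4`).
So `(3 / 8) s ^ 2 < 2 (1 + s / 750) ^ 2`, which is false for `s ≥ 15` (at `s = 15` it is `84.4 < 2.09`;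
`√(3 / 16) s > 1 + s / 750`). -/
def SpecNPQ : Prop :=
  ∀ (α β : Type u) (X : Finset α) (K : Finset β) (R : α → β → Prop) (q c : ℕ), 225 ≤ q →
    3 * (q + 1) < 4 * #X → #X ≤ q + 1 → 1000 * (c : ℝ) ≤ q * √(q : ℝ) →
    (∀ x ∈ X, ∀ y ∈ X, x ≠ y → ∃ k ∈ K, R x k ∧ R y k) →
    (∀ x ∈ X, ∀ y ∈ X, x ≠ y → ∀ k ∈ K, ∀ k' ∈ K, R x k → R y k → R x k' → R y k' → k = k') →
    ∑ x ∈ X, #{k ∈ K | R x k} ≤ #X + c →
    ∃ k ∈ K, (#X : ℝ) ≤ #{x ∈ X | R x k} + (2 + 3 * √(q : ℝ) / 1000)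

/-- LN (deps DEV, NPQ). The lines: agreement off `B` on `G` gives a better map `f'` of the lines.

Proof. Let `W` be the set of the new lines which are not in `f (G)`: `#W = β`. As in LIN, for `x ∉ B` the number of
`m ∈ W` through `x` is `r(x)`, the number of old lines not in `G` through `x`. Let `W₀ = {m | Q ≤ 4 ss J B m} ∩ W`. By DEV (a)
for the dual of `J` (`8 b ≤ n` since `8 s ^ 3 / 1000 ≤ s ^ 4`), `Q * #W₀ ≤ 64 b`.
(1) Let `S ∈ W`, `S ∉ W₀`, `X = {x | x ∈ S, x ∉ B}`, `u = #X = Q - ss J B S > 3 Q / 4`. An old line which contains two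
points of `X` is not in `G` (otherwise `f` of it contains the two points, so it is `S`). NPQ applies to `X`, the set `K` of the old
lines not in `G`, `R = I`, `c = β`: `∑ x ∈ X, r(x) = ∑ S' ∈ W, #(S' ∩ X) ≤ u + (β - 1)`. So there is an old line `K(S) ∉ G`
with `#{x ∈ X | x ∈ K(S)} ≥ u - κ`.
(2) Put `K(f l) = l` for `l ∈ G`. The map `K : {m | m ∉ W₀} → L` is injective: for `S ∈ W` `K(S) ∉ G`; if `K(S) = K(S')`,
`S ≠ S'`, both in `W \ W₀`, then in this line of size `Q` there are more than `3 Q / 4 - κ` points of `S` and of `S'`, so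
more than `Q / 2 - 2 κ ≥ 1` common points of `S`, `S'` (`Q / 2 ≥ s ^ 2 / 2 ≥ 5 + 6 s / 1000` for `s ≥ 15`), contradiction.
Let `G'` be the image of `K` and `f'` the inverse of `K` on `G'` (anything outside; `M` is nonempty). `G ⊆ G'`, `f' = f` on
`G`, `#{l | l ∉ G'} = #W₀`. For `l = K(S) ∈ G'`, `l ∉ G`: `f' l = S` and the points of `l` which are in `B` or not on `S` are
`Q - #{x ∈ X | x ∈ l} ≤ Q - u + κ = ss J B S + κ` in number. -/
def SpecLN : Prop :=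
  ∀ (P L M : Type u) [Fintype P] [Fintype L] [Fintype M] (I : P → L → Prop) (J : P → M → Prop) (q : ℕ),
    Pln I q → Pln J q → 225 ≤ q → ∀ (f : L → M) (B : Finset P) (G : Finset L),
    (∀ l ∈ G, ∀ m ∈ G, f l = f m → l = m) → (∀ x ∉ B, ∀ l ∈ G, (I x l ↔ J x (f l))) →
    1000 * (#B : ℝ) ≤ q * √(q : ℝ) → 1000 * (#{l : L | l ∉ G} : ℝ) ≤ q * √(q : ℝ) →
    ∃ (f' : L → M) (G' : Finset L), G ⊆ G' ∧ (∀ l ∈ G, f' l = f l) ∧
      (∀ l ∈ G', ∀ m ∈ G', f' l = f' m → l = m) ∧ (q + 1) * #{l : L | l ∉ G'} ≤ 64 * #B ∧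
      ∀ l ∈ G', l ∉ G → (#{x : P | I x l ∧ (x ∈ B ∨ ¬ J x (f' l))} : ℝ) ≤
        ss J B (f' l) + (2 + 3 * √(q : ℝ) / 1000)

/-- PN (deps DEV, NPQ). The points: agreement off `B` on `G` gives a better permutation `g` of the points.

Proof. `Z = {x ∈ B | Q ≤ 4 r(x)}`, `r(x)` the number of old lines not in `G` through `x`. By DEV (a) for `I` (`8 β ≤ n`)
`Q * #Z ≤ 64 β`. Let `x ∈ B`, `x ∉ Z`, `X = {l ∈ G | x ∈ l}`, `u = #X = Q - r(x) > 3 Q / 4`. For `l ≠ l'` in `X` the new lines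
`f l ≠ f l'` meet in one point `y`; `y ∈ B`, since otherwise `y ∈ l`, `y ∈ l'`, so `y = x ∈ B`. Apply NPQ to `X`, `K = B`,
`R l y = (y ∈ f l)`, `c = b`: for `l ∈ G`, `l` and `f l` agree off `B` and have the same size, so
`#{y ∈ B | y ∈ f l} = #{y ∈ B | y ∈ l}` and the sum over `l ∈ X` is at most `u + (b - 1)` (`x` counts `u` times, every other
`y ∈ B` at most once). So there is `y = g x ∈ B` with `y ∈ f l` for all but at most `κ` of the `l ∈ X`. `g` is injective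
on `B \ Z`: if `g x = g x' = y`, `x ≠ x'`, then more than `2 (3 Q / 4 - κ) - 1 ≥ Q` new lines `f l` (`l ∈ G` through `x` or `x'`, `f`
injective on `G`, at most one `l` through both) pass through `y`, contradiction (`Q / 2 ≥ 1 + 2 κ`). So `g : B \ Z → B` is
injective and extends to a permutation of `B`, and by the identity off `B` to a permutation of `P`. -/
def SpecPN : Prop :=
  ∀ (P L M : Type u) [Fintype P] [Fintype L] [Fintype M] (I : P → L → Prop) (J : P → M → Prop) (q : ℕ),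
    Pln I q → Pln J q → 225 ≤ q → ∀ (f : L → M) (B : Finset P) (G : Finset L),
    (∀ l ∈ G, ∀ m ∈ G, f l = f m → l = m) → (∀ x ∉ B, ∀ l ∈ G, (I x l ↔ J x (f l))) →
    1000 * (#B : ℝ) ≤ q * √(q : ℝ) → 1000 * (#{l : L | l ∉ G} : ℝ) ≤ q * √(q : ℝ) →
    ∃ (g : P ≃ P) (Z : Finset P), (∀ x ∉ B, g x = x) ∧ (q + 1) * #Z ≤ 64 * #{l : L | l ∉ G} ∧
      ∀ x ∈ B, x ∉ Z → (#{l ∈ G | I x l ∧ ¬ J (g x) (f l)} : ℝ) ≤ 2 + 3 * √(q : ℝ) / 1000

/-- FST (deps DEV, LN, PN). After the two corrections at most `n / 32` flags are lost.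

Proof. Take `f'`, `G'` of LN and `g`, `Z` of PN. The lost flags `(x, l)`, `x ∈ l`, `g x ∉ f' l`:
(A) `l ∉ G'`: at most `Q #{l | l ∉ G'} ≤ 64 b`. (B) `x ∈ Z`: at most `Q #Z ≤ 64 β`. (C) `l ∈ G`, `x ∉ B`: none (`g x = x`).
(D) `l ∈ G`, `x ∈ B \ Z`: at most `κ b`. (E) `l ∈ G' \ G`: if `x ∉ B` then `g x = x`, so a lost flag has `x ∈ B` or `x ∉ f' l`:
at most `ss J B (f' l) + κ` for each `l`. The set `W' = f' (G' \ G)` has at most `β` elements and `f'` is injective, so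
`∑ ss J B (f' l) = ∑_{x ∈ B} rr J W' x ≤ b β / q + √(q b β)` by DEV (b) for `J` (monotone in `#W' ≤ β`).
Total `F' ≤ (66 + 3 s / 1000) (b + β) + b β / q + √(q b β)`, with `b, β ≤ s ^ 3 / 1000` at most
`0.132 s ^ 3 + 0.000006 s ^ 4 + 0.000001 s ^ 4 + 0.001 s ^ 4`, so `32 F' ≤ 4.224 s ^ 3 + 0.033 s ^ 4 ≤ (4.224 / 15 + 0.033) s ^ 4 ≤ n`. -/
def SpecFST : Prop :=
  ∀ (P L M : Type u) [Fintype P] [Fintype L] [Fintype M] (I : P → L → Prop) (J : P → M → Prop) (q : ℕ),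
    Pln I q → Pln J q → 225 ≤ q → ∀ (f : L → M) (B : Finset P) (G : Finset L),
    (∀ l ∈ G, ∀ m ∈ G, f l = f m → l = m) → (∀ x ∉ B, ∀ l ∈ G, (I x l ↔ J x (f l))) →
    1000 * (#B : ℝ) ≤ q * √(q : ℝ) → 1000 * (#{l : L | l ∉ G} : ℝ) ≤ q * √(q : ℝ) →
    ∃ (g : P ≃ P) (f' : L → M), (∀ x ∉ B, g x = x) ∧
      32 * FF I (fun x m => J (g x) m) f' ≤ q ^ 2 + q + 1

/-- CP (deps CNT, BP, DEV, FST). THEOREM (common part).

Proof. `r(x)` = the number of old lines not in `G` through `x`.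
CASE `q < 225` (`s < 15`). For the identity and `f`: a lost flag `(x, l)` has `l ∉ G` or `x ∈ B`, so `F ≤ Q (b + β)` and
`32 F ≤ 64 Q s ^ 3 / 1000 ≤ 0.96 Q s ^ 2 ≤ n`. BP gives `g`, `τ`. For `l ∈ G`: `4 d(l) ≤ 4 b ≤ 0.004 s ^ 3 < Q`, so `l` is not
bad and `τ l = f l` (second claim). For `x ∉ B` with `2 r(x) ≤ Q` there are at least `Q / 2 > 1`, so two lines `l ≠ l'` of `G`
through `x`; `x ∈ f l`, `x ∈ f l'`, `f l ≠ f l'`, `g x ∈ τ l = f l`, `g x ∈ f l'`, so `g x = x`.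
CASE `q ≥ 225`. FST gives `g₀`, `f'`. `J' x m = J (g₀ x) m` is again a plane (relabelling). BP for `I`, `J'`, `f'` gives
`g₁`, `τ` with `I x l ↔ J (g₀ (g₁ x)) (τ l)`, `g₁ x = x` for `x ∉ badP'`, where `Q #badP' ≤ 10 F' ≤ 10 n / 32` (CNT, `c = 2`), so
`#badP' ≤ 10 Q / 32`. Put `g = g₀ ∘ g₁`, `X = B ∪ badP'`: `g x = x` for `x ∉ X`, `#X ≤ s ^ 3 / 1000 + 10 Q / 32`.
First claim: let `x ∉ B`, `2 r(x) ≤ Q`. There are at least `Q / 2` lines `l ∈ G` through `x`. By DEV (a) for the dual of `I`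
(`8 #X ≤ n`) at most `64 #X / Q ≤ 0.064 s + 20` lines have `Q ≤ 4 ss I X l`. Every other `l ∈ G` through `x` has more than
`3 Q / 4 ≥ 2` points `y ∉ X`; for these `y = g y ∈ τ l` and `y ∈ f l` (`y ∉ B`, `l ∈ G`), so `τ l = f l`. So there are at least
`Q / 2 - 0.064 s - 20 ≥ 2` lines `l ∈ G` through `x` with `τ l = f l` (`s ≥ 15`, `Q ≥ s ^ 2 + 1`), and `g x = x` as before.
Second claim: let `l ∈ G`, `2 ss I B l ≤ Q`. There are at least `Q / 2` points `x ∈ l`, `x ∉ B`; by DEV (a) for `I` at most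
`64 β / Q ≤ 0.064 s` of them have `Q ≤ 4 r(x)`, so at least two of them have `g x = x` by the first claim, `x = g x ∈ τ l`
and `x ∈ f l`. So `τ l = f l`. -/
def SpecCP : Prop :=
  ∀ (P L M : Type u) [Fintype P] [Fintype L] [Fintype M] (I : P → L → Prop) (J : P → M → Prop) (q : ℕ),
    Pln I q → Pln J q → ∀ (f : L → M) (B : Finset P) (G : Finset L),
    (∀ l ∈ G, ∀ m ∈ G, f l = f m → l = m) → (∀ x ∉ B, ∀ l ∈ G, (I x l ↔ J x (f l))) →
    1000 * (#B : ℝ) ≤ q * √(q : ℝ) → 1000 * (#{l : L | l ∉ G} : ℝ) ≤ q * √(q : ℝ) →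
    ∃ (g : P ≃ P) (τ : L ≃ M), (∀ x l, (I x l ↔ J (g x) (τ l))) ∧
      (∀ x ∉ B, 2 * rr I {l : L | l ∉ G} x ≤ q + 1 → g x = x) ∧
      ∀ l ∈ G, 2 * ss I B l ≤ q + 1 → τ l = f l

/-- EXF (no deps). A lost flag `(x, l)`: the number of exact lines through `x` is at most `d(l)`.

Proof. A line `k` with `dd k = 0` is exact: `y ∈ k ↔ y ∈ f k` for all `y` (`Pln.split'`). Let `x ∈ l`, `x ∉ f l`. Let `k` be
exact, `x ∈ k`. Then `x ∈ f k`, so `f k ≠ f l`; let `w` be their common point; `w ≠ x` since `x ∉ f l`; `w ∈ k` by exactness.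
`w ∉ l`: otherwise `k`, `l` contain `x ≠ w`, so `k = l`, but `x ∈ f k`, `x ∉ f l`. So `w` is one of the `d(l)` points of `f l` not on
`l` (`Pln.split'`). Different `k` give different `w`: `w = w'` would give two lines `k ≠ k'` through `x ≠ w`. -/
def SpecEXF : Prop :=
  ∀ (P L M : Type u) [Fintype P] [Fintype L] [Fintype M] (I : P → L → Prop) (J : P → M → Prop) (q : ℕ),
    Pln I q → Pln J q → ∀ (f : L → M) (x : P) (l : L), I x l → ¬ J x (f l) →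
    #{k : L | I x k ∧ dd I J f k = 0} ≤ dd I J f l

/-- FW4 (deps INJ, WIT, EXF). Write `ex(x) = #{k | I x k ∧ dd k = 0}`.

Proof. Suppose `x ∉ B`, `l` good, `4 ss I B l < Q`, `x ∈ l`, `x ∉ f l`. WIT gives `Z`, `N_z`, `#Z ≥ Q - d(l) - δ(x)`, and
`8 δ(x) < Q`, `4 d(l) < Q`, so `Z' = Z \ B` has more than `Q - Q / 4 - Q / 8 - Q / 4 = 3 Q / 8` elements (`Z` is contained in `l`).
Let `z ∈ Z'`. For `x' ∈ N_z ∩ f N_z`, `x' ≠ x`, `x' ∉ B` (at least `Q - d(N_z) - 1 - ss I B N_z` choices) let `K` be the old line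
`x' z` (`z ∉ N_z`). At most `δ(z)` of the old lines `K` through `z` are bad or have `z ∉ f K`, and `8 δ(z) < Q`. For the other ones
`K` is good and `z ∈ f K`; then `x' ∉ f K` (claim TRI of FWD: otherwise `f K`, `f N_z` contain `x' ≠ z`, `f K = f N_z`, `K = N_z` by
INJ, but `z ∈ K`, `z ∉ N_z`), so `(x', K)` is a lost flag and `D ≤ ex(x') ≤ d(K)` by EXF (`x' ∉ B`). So there are at least
`5 Q / 8 - 1 - ss I B N_z` old lines `K` through `z`, `K ≠ l`, with `d(K) ≥ D` (`K = l` would give `x' ∈ l ∩ N_z = {x}`). For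
different `z` these `K` are different (they meet `l` in `z` only), and `∑_z ss I B N_z ≤ #B` since the `N_z` are distinct lines
through `x ∉ B`. Hence the number of old lines `K` with `d(K) ≥ D` is at least
`(3 Q / 8) (5 Q / 8 - 1) - #B = 15 Q ^ 2 / 64 - 3 Q / 8 - #B` and `F ≥ D * (..)`, contradiction. -/
def SpecFW4 : Prop :=
  ∀ (P L M : Type u) [Fintype P] [Fintype L] [Fintype M] (I : P → L → Prop) (J : P → M → Prop) (q : ℕ),
    Pln I q → Pln J q → ∀ (f : L → M) (B : Finset P) (D : ℝ), 0 ≤ D →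
    (∀ z, q + 1 ≤ 8 * dl I J f q z → z ∈ B) →
    (∀ z, (#{k : L | I z k ∧ dd I J f k = 0} : ℝ) < D → z ∈ B) →
    (FF I J f : ℝ) < D * (15 * (q + 1) ^ 2 / 64 - 3 * (q + 1) / 8 - #B) →
    ∀ (x : P) (l : L), x ∉ B → l ∉ badL I J f q → 4 * ss I B l < q + 1 → I x l → J x (f l)

/-- BW4 (deps INJ). The converse.

Proof. Suppose `x ∉ B`, `2 rr I {l | l ∉ G} x ≤ Q`, `N ∈ G`, `x ∈ f N`, `x ∉ N`. For `x' ∈ N ∩ f N`, `x' ∉ B` (more than
`Q - Q / 4 - Q / 4 = Q / 2` choices, since `4 d(N) < Q` and `4 ss I B N < Q`) let `K` be the old line `x x'`; different `x'` give different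
`K`. `K ∉ G`: if `K ∈ G` then `x ∈ f K` and `x' ∈ f K` by the hypothesis, so `f K = f N`, `K = N` by INJ, but `x ∈ K`, `x ∉ N`. So
more than `Q / 2` lines not in `G` pass through `x`, contradiction. -/
def SpecBW4 : Prop :=
  ∀ (P L M : Type u) [Fintype P] [Fintype L] [Fintype M] (I : P → L → Prop) (J : P → M → Prop) (q : ℕ),
    Pln I q → Pln J q → ∀ (f : L → M) (B : Finset P) (G : Finset L),
    (∀ l ∈ G, l ∉ badL I J f q ∧ 4 * ss I B l < q + 1) →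
    (∀ x ∉ B, ∀ l ∈ G, I x l → J x (f l)) →
    ∀ (x : P) (l : L), x ∉ B → 2 * rr I {l : L | l ∉ G} x ≤ q + 1 → l ∈ G → J x (f l) → I x l

/-- MOV (deps DEV). The number of moved points of an isomorphism near a matching.

Proof. Let `A = {x | g x ≠ x}`, `a = #A`; suppose `10 F < Q a` (so `a ≥ 1`). Put `h l = τ⁻¹ (f l)`, so
`x ∈ f l ↔ I (g⁻¹ x) (h l)`; `g⁻¹ x = x` for `x ∉ A` and `g⁻¹ x ≠ x` for `x ∈ A`. Let `H = {l | h l ≠ l}`.
(1) If `l ∈ H` and `4 ss I A l < Q`: the points `x ∈ l`, `x ∉ A` with `x ∈ f l` are in `l ∩ h l`, so at most one, and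
`4 d(l) ≥ 4 (Q - ss I A l - 1) ≥ 3 Q - 3 ≥ Q`. So there are at most `4 F / Q` such lines. By DEV (a) for the dual of `I` (`8 a ≤ n`) there are at
most `64 a / Q` lines with `Q ≤ 4 ss I A l`. So `Q #H ≤ 4 F + 64 a < (0.4 + 64 / 226) Q a`, `#H ≤ 0.69 a`.
(2) For `x ∈ A` and `l` through `x`, `l ∉ H`: the flag is lost iff `g⁻¹ x ∉ l`, which fails for at most one `l`. So
`F ≥ ∑_{x ∈ A} (Q - 1 - rr I H x) ≥ q a - a #H / q - √(q a #H)` by DEV (b), and `#H ≤ 0.69 a`, `a ≤ s ^ 3 / 1000`, `s ≥ 15` give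
`a #H / q ≤ 0.001 q a`, `√(q a #H) ≤ 0.84 s a ≤ 0.056 q a`. So `F ≥ 0.94 q a ≥ Q a / 10`, contradiction. -/
def SpecMOV : Prop :=
  ∀ (P L M : Type u) [Fintype P] [Fintype L] [Fintype M] (I : P → L → Prop) (J : P → M → Prop) (q : ℕ),
    Pln I q → Pln J q → 225 ≤ q → ∀ (f : L → M) (g : P ≃ P) (τ : L ≃ M),
    (∀ x l, (I x l ↔ J (g x) (τ l))) → 1000 * (#{x : P | g x ≠ x} : ℝ) ≤ q * √(q : ℝ) →
    (q + 1) * #{x : P | g x ≠ x} ≤ 10 * FF I J f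

/-- NR (deps INJ, CNT, BP, DEV, CP, FW4, BW4, MOV). THEOREM (near isomorphisms).

Proof. First case: BP and CNT (`c = 2`): `g x ≠ x` implies `x ∈ badP`, `Q #badP ≤ 10 F`.
Second case. `E = #{l | dd l = 0} ≥ 10 ^ 4 s ^ 3` and `E ≤ n = s ^ 4 + s ^ 2 + 1`, so `s ≥ 9999`. Let `D = 1250 s`. The number
`ex(z)` of exact lines through `z` is `rr I {l | dd l = 0} z`, and `2 D n ≤ 10 ^ 4 s ^ 3 Q ≤ E Q` (`n ≤ 4 q Q`), so DEV (c) gives
`#{z | ex(z) < D} ≤ 4 q n ^ 2 / (E Q ^ 2) ≤ 4 n / (10 ^ 4 s) ≤ 0.000401 s ^ 3` (`n ≤ Q ^ 2`). By CNT (`c = 8`)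
`#{z | Q ≤ 8 δ(z)} ≤ 40 F / Q ≤ 0.0004 s ^ 3`. Let `B₁` be the union: `#B₁ ≤ 0.000801 s ^ 3`. The hypothesis of FW4 holds:
`D (15 Q ^ 2 / 64 - 3 Q / 8 - #B₁) ≥ 1250 s * 0.2 Q ^ 2 > F`. Let `G₁ = {l ∉ badL | 4 ss I B₁ l < Q}`. By CNT and DEV (a) for the dual
of `I`: `β₁ = #{l | l ∉ G₁} ≤ 4 F / Q + 64 #B₁ / Q ≤ 0.00004 s ^ 3 + 0.052 s ≤ 0.00005 s ^ 3`. Let
`B₂ = B₁ ∪ {x | Q ≤ 4 rr I {l | l ∉ G₁} x}`; by DEV (a) `#B₂ ≤ #B₁ + 64 β₁ / Q ≤ 0.00081 s ^ 3 ≤ s ^ 3 / 1000`. By FW4 and BW4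
`x ∈ l ↔ x ∈ f l` for `x ∉ B₂`, `l ∈ G₁`; `f` is injective on `G₁` by INJ. CP gives `g`, `τ` with `g x = x` for all `x ∉ B₂`. MOV. -/
def SpecNR : Prop :=
  ∀ (P L M : Type u) [Fintype P] [Fintype L] [Fintype M] (I : P → L → Prop) (J : P → M → Prop) (q : ℕ),
    Pln I q → Pln J q → ∀ (f : L → M),
    (32 * FF I J f ≤ q ^ 2 + q + 1 ∨
      (10 ^ 5 * (FF I J f : ℝ) ≤ q ^ 2 * √(q : ℝ) ∧ 10 ^ 4 * (q * √(q : ℝ)) ≤ (#{l : L | dd I J f l = 0} : ℝ))) →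
    ∃ (g : P ≃ P) (τ : L ≃ M), (∀ x l, (I x l ↔ J (g x) (τ l))) ∧
      (q + 1) * #{x : P | g x ≠ x} ≤ 10 * FF I J f

end Pool.Agent.Lib.MP595dad.NR
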