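import Pool.Agent.Lib.MP_595dad_co.NR.SpecB

/-!
# MP_595dad_co, part C: the number of failing Desargues configurations with centre `V` and axis `a`
is `0` or more than `q ^ 6 / 2000`; in the first case all `(V, a)`-collineations exist

Notation of all docstrings: `Q = q + 1`, `n = q ^ 2 + q + 1`; one plane `I : P → L → Prop`, a point `V` (the
centre; on the axis or not) and a line `a` (the axis). Regular point: `Reg I V a x`, that is `x ≠ V`, `x` not on `a`.
`Col I V x y`: `V, x, y` are on a line. The fibre of a regular point `A` is the set of the regular points `x` with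
`Col I V A x` (the regular points of the line `V A`). `B' = pm I V a A A' B` is the image of `B` under the
perspectivity with centre `V` and axis `a` which maps `A` to `A'`. Rules as in `SpecA` (import only this file).
-/

set_option autoImplicit false
set_option linter.unusedSectionVars false

namespace Pool.Agent.Lib.MP595dad.NR

open Finset
open scoped Classical

universe u

section

variable {P L : Type u} [Fintype P] [Fintype L]

/-- `x` is neither the centre nor on the axis. -/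
def Reg (I : P → L → Prop) (V : P) (a : L) (x : P) : Prop := x ≠ V ∧ ¬ I x a

/-- `x` and `y` are on a common line through the centre. -/
def Col (I : P → L → Prop) (V x y : P) : Prop := ∃ k, I V k ∧ I x k ∧ I y k

/-- The lines `x y` and `x' y'` meet on the axis (used for regular points with `x ≠ y`, `x' ≠ y'`). -/
def Per (I : P → L → Prop) (a : L) (x y x' y' : P) : Prop :=
  ∃ (X : P) (m m' : L), I X a ∧ I x m ∧ I y m ∧ I X m ∧ I x' m' ∧ I y' m' ∧ I X m'

/-- `B'` is the image of `B` under the perspectivity `A ↦ A'`. -/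
def Tr (I : P → L → Prop) (V : P) (a : L) (A A' B B' : P) : Prop :=
  Reg I V a A ∧ Reg I V a A' ∧ Reg I V a B ∧ Reg I V a B' ∧ Col I V A A' ∧ Col I V B B' ∧
    ¬ Col I V A B ∧ Per I a A B A' B'

/-- The perspectivity `A ↦ A'` as a function. -/
noncomputable def pm (I : P → L → Prop) (V : P) (a : L) (A A' B : P) : P :=
  if h : ∃ B', Tr I V a A A' B B' then h.choose else B

/-- The Desargues configuration determined by `(A, A', B, C)` fails. -/
def Fa (I : P → L → Prop) (V : P) (a : L) (A A' B C : P) : Prop :=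
  Reg I V a A ∧ Reg I V a A' ∧ Reg I V a B ∧ Reg I V a C ∧ Col I V A A' ∧ ¬ Col I V A B ∧
    ¬ Col I V A C ∧ ¬ Col I V B C ∧ ¬ Per I a B C (pm I V a A A' B) (pm I V a A A' C)

/-- The number of failing `(A, A', B, C)`. -/
noncomputable def DQ (I : P → L → Prop) (V : P) (a : L) : ℕ :=
  #{t : P × P × P × P | Fa I V a t.1 t.2.1 t.2.2.1 t.2.2.2}

/-- The number of failing `(A, A', B, C)` for given `A, A'`. -/
noncomputable def uu (I : P → L → Prop) (V : P) (a : L) (A A' : P) : ℕ :=
  #{t : P × P | Fa I V a A A' t.1 t.2}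

/-- The number of failing `(A, A', B, C)` for given `A, A', B`. -/
noncomputable def gg (I : P → L → Prop) (V : P) (a : L) (A A' B : P) : ℕ :=
  #{C : P | Fa I V a A A' B C}

/-- `ψ`, `τ` is a collineation which fixes all lines through `V` and all points of `a`. -/
def Cen (I : P → L → Prop) (V : P) (a : L) (ψ : P ≃ P) (τ : L ≃ L) : Prop :=
  (∀ x l, (I x l ↔ I (ψ x) (τ l))) ∧ (∀ l, I V l → τ l = l) ∧ ∀ x, I x a → ψ x = x

end

/-- PEX (no deps). Existence, uniqueness and symmetry of perspectivities.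

Proof. (1) Existence. `A ≠ B` (`¬ Col A B`), `X = A B ∩ a` (`A B ≠ a`), `X ≠ A, B, A'` (regular points are not on `a`). The line
`A' X` is not `V B`: otherwise `A'` is on `V B`, and `Col A A'` with `A' ≠ V` gives that `V A' = V B` contains `A`, contradiction. Let
`B' = V B ∩ A' X`. `B' ≠ V`: otherwise `V, A'` are on `A' X`, so `A' X = V A'` is the line `V A A'`, `X` is on it and on `A B`, and these two
lines are different (`¬ Col A B`) and meet in `A`, so `X = A`, contradiction. `B'` not on `a`: otherwise `B'` is the common point `X` of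
`A' X` and `a`, so `X` is on `V B` and `A B`, hence `X = B`, contradiction. So `Tr A A' B B'`, and `pm` chooses such a point.
(2) Uniqueness. If `Tr A A' B B'` and `Tr A A' B B''`: in both cases the line through `A, B` is the same (`A ≠ B`), so its point `X` on
`a` is the same, the line through `A', X` is the same (`A' ≠ X`), and `B'`, `B''` are both on it and on the line `V B`
(`B ≠ V`); these lines are different (see (1)), so `B' = B''`.
(3) `Tr A A' B B'` implies `Tr A' A B' B` and `Tr B B' A A'`: `Col` is symmetric, `Per` is symmetric in exchanging `(x, y)` with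
`(x', y')` and `(x, x')` with `(y, y')`; `¬ Col A' B'`: if `V, A', B'` are on `k` then `k` is the line `V A'` (contains `A`) and the line
`V B'` (contains `B`), so `Col A B`. -/
def SpecPEX : Prop :=
  ∀ (P L : Type u) [Fintype P] [Fintype L] (I : P → L → Prop) (q : ℕ), Pln I q → ∀ (V : P) (a : L),
    (∀ A A' B : P, Reg I V a A → Reg I V a A' → Reg I V a B → Col I V A A' → ¬ Col I V A B →
      Tr I V a A A' B (pm I V a A A' B)) ∧
    (∀ A A' B B' B'' : P, Tr I V a A A' B B' → Tr I V a A A' B B'' → B' = B'') ∧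
    ∀ A A' B B' : P, Tr I V a A A' B B' → Tr I V a A' A B' B ∧ Tr I V a B B' A A'

/-- FIB (no deps). The sizes of the fibres.

Proof. If `V` is on `a`: the regular points are the points not on `a`: `n - Q = q ^ 2` in number; for a regular `A` the line `V A`
is not `a`, its regular points are all its points except `V` (`V A ∩ a = V`): `q`; the rest is `q ^ 2 - q`. If `V` is not on `a`: the
regular points are `n - Q - 1 = q ^ 2 - 1` in number, the line `V A` has the regular points `Q - 2 = q - 1`; the rest is `q ^ 2 - q`. (For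
regular `A`, `B`: `Col I V A B` iff `B` is on the line `V A`.) -/
def SpecFIB : Prop :=
  ∀ (P L : Type u) [Fintype P] [Fintype L] (I : P → L → Prop) (q : ℕ), Pln I q → ∀ (V : P) (a : L),
    q ^ 2 - 1 ≤ #{x : P | Reg I V a x} ∧ ∃ h : ℕ, (h = q ∨ h + 1 = q) ∧ ∀ A, Reg I V a A →
      #{x : P | Reg I V a x ∧ Col I V A x} = h ∧
      #{x : P | Reg I V a x ∧ ¬ Col I V A x} = q * (q - 1)

/-- AVG (deps PEX, FIB). Averaging. Write `D = DQ`, `fib A` for the fibre of `A` (of size `h`, `h = q` or `q - 1`).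

Proof. `D = ∑_A ∑_{A'} uu A A'`; there are at least `q ^ 2 - 1` regular points and `uu A A' = 0` unless `A, A'` are regular with
`Col A A'`, so there is a regular `A` with `(q ^ 2 - 1) ∑_{A'} uu A A' ≤ D`. For `A' ∈ fib A` put
`v(A') = ∑ uu B (pm A A' B)` over the regular `B` with `¬ Col A B`. For fixed `B` the map `A' ↦ pm A A' B` is injective on `fib A`
(`Tr A A' B B'` and `Tr A A'' B B'` give `Tr B B' A A'` and `Tr B B' A A''`, so `A' = A''` by uniqueness), so
`∑_{A' ∈ fib A} v(A') ≤ ∑_B ∑_{B'} uu B B' ≤ D`. Let `N₁` be the number of `A' ∈ fib A` with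
`4 D < (q ^ 2 - 1) (q - 1) uu A A'`; then `4 D N₁ ≤ (q - 1) (q ^ 2 - 1) ∑ uu A A' ≤ (q - 1) D`, with strict inequality if
`N₁ ≥ 1`, so `4 N₁ < q - 1` (also if `N₁ = 0`; if `D = 0` then `N₁ = 0`). In the same way the number `N₂` of the `A'` with
`4 D < (q - 1) v(A')` has `4 N₂ < q - 1`. Let `S` be the set of the other `A' ∈ fib A`: `2 #S ≥ 2 h - 2 N₁ - 2 N₂ > 2 h - (q - 1) ≥ h`.
Let `A' ∈ S` and choose `B` (regular, `¬ Col A B`; there are `q (q - 1) > 0`) with the smallest value of
`X_B = q gg A A' B + uu B (pm A A' B)`. `∑_B gg A A' B = uu A A'`, so `q (q - 1) X_B ≤ q uu A A' + v(A')` and, multiplied by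
`(q ^ 2 - 1) (q - 1)`, `q (q - 1) (q ^ 2 - 1) (q - 1) X_B ≤ 4 D q + 4 D (q ^ 2 - 1)`. -/
def SpecAVG : Prop :=
  ∀ (P L : Type u) [Fintype P] [Fintype L] (I : P → L → Prop) (q : ℕ), Pln I q → ∀ (V : P) (a : L),
    ∃ (A : P) (S : Finset P), Reg I V a A ∧ #{x : P | Reg I V a x ∧ Col I V A x} < 2 * #S ∧
      ∀ A' ∈ S, Reg I V a A' ∧ Col I V A A' ∧ ∃ B : P, Reg I V a B ∧ ¬ Col I V A B ∧
        ((q : ℝ) ^ 2 - 1) * (q - 1) * uu I V a A A' ≤ 4 * DQ I V a ∧
        (q : ℝ) * (q - 1) * (((q : ℝ) ^ 2 - 1) * (q - 1)) *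
            (q * gg I V a A A' B + uu I V a B (pm I V a A A' B)) ≤
          4 * DQ I V a * ((q : ℝ) ^ 2 + q - 1)

/-- LAM (deps PEX). The images of the lines under the perspectivity `A ↦ A'`.

Proof. `lam l = l` if `V ∈ l` or `l = a`. Let `V ∉ l`, `l ≠ a`, `X = l ∩ a`, `T = {B | Reg B, ¬ Col A B, B ∈ l}`. `#T ≥ q - 1 ≥ 1`: the
points of `l` other than `l ∩ a` and `l ∩ V A` are in `T` (they are `≠ V`). For `B ∈ T` let `c(B)` be the line joining `X` and `pm B`
(`pm B = pm I V a A A' B` is regular by PEX, so `≠ X`). Let `m` be a line such that the number `n_m` of the `B ∈ T` with `c(B) = m` is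
largest, and `lam l = m`. (i), (ii), (iii) are clear: `X ∈ m`, and `m ≠ a` since `m` contains some `pm B ∉ a`; `X` is the only point of
`l` on `a`. (iv) If `A ∈ l`: for every `B ∈ T`, `Tr A A' B (pm B)` (PEX) says that `A'`, `pm B` and `X = A B ∩ a` are on a line, so
`c(B) = A' X` for all `B ∈ T`; so `m = A' X` contains `A'` and all `pm B`.
(v) Let `b_l` be the number of the `B ∈ T` with `pm B ∉ m`, that is `c(B) ≠ m`. If `B, C ∈ T` and `c(B) ≠ c(C)` then
`Fa A A' B C`: `¬ Col B C` since `B ≠ C` are on `l ∌ V`; and if `Per a B C (pm B) (pm C)`, the point of `Per` is on `a` and on `B C = l`,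
so it is `X`, and the line through `pm B, pm C, X` is `c(B) = c(C)`. The number of the ordered pairs `(B, C) ∈ T ^ 2` with
`c(B) ≠ c(C)` is `∑_B (#T - n_{c(B)}) ≥ #T (#T - n_m) = #T b_l ≥ (q - 1) b_l`. The pairs of different `l` are different (`B ≠ C`
determine `l`), so `(q - 1) ∑_l b_l ≤ uu A A'`. -/
def SpecLAM : Prop :=
  ∀ (P L : Type u) [Fintype P] [Fintype L] (I : P → L → Prop) (q : ℕ), Pln I q → ∀ (V : P) (a : L)
    (A A' : P), Reg I V a A → Reg I V a A' → Col I V A A' →
    ∃ lam : L → L, (∀ l, I V l → lam l = l) ∧ lam a = a ∧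
      (∀ l, ¬ I V l → l ≠ a → lam l ≠ a ∧ ∀ X, I X a → I X l → I X (lam l)) ∧
      (∀ l, I A l → ¬ I V l → I A' (lam l) ∧
        ∀ B, Reg I V a B → ¬ Col I V A B → I B l → I (pm I V a A A' B) (lam l)) ∧
      (q - 1) * ∑ l ∈ ({l : L | ¬ I V l ∧ l ≠ a} : Finset L),
        #{B : P | Reg I V a B ∧ ¬ Col I V A B ∧ I B l ∧ ¬ I (pm I V a A A' B) (lam l)} ≤
          uu I V a A A'

/-- FLG (deps PEX, LAM). The map of the points and the number of lost flags.

Proof. `B' = pm A A' B`, `lam` of LAM, `b = ∑_l b_l` the sum in its last clause, `(q - 1) b ≤ U`, `U = uu A A'`. Put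
`φ x = pm A A' x` for regular `x` with `¬ Col A x`, `φ x = pm B B' x` for regular `x` with `Col A x` (then `¬ Col B x`, since `V A ≠ V B`),
`φ x = x` if `x = V` or `x ∈ a`. By PEX `φ x` is regular and `Col x (φ x)` for regular `x` (`Tr` contains `Col I V B B'`), and `φ` is injective:
`pm A A' x = pm A A' y = z` gives `Tr A' A z x`, `Tr A' A z y`, so `x = y` (in the same way for `pm B B'`); images of points of different
lines through `V` are on different lines through `V`. So `φ` is a permutation; it maps every line through `V` into itself, `φ A = A'` as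
`Tr A A' B B'` gives `Tr B B' A A'`.
Lost flags `(x, l)`, `x ∈ l`, `φ x ∉ lam l`: none if `V ∈ l` or `l = a` or `x ∈ a`. Let `V ∉ l`, `l ≠ a`, `x` regular. If `¬ Col A x` it is counted in
`b_l`. Let `G_A` be the number of the lost flags with `Col A x`, `x` regular; `x = l ∩ V A`. On `l` there are at least `Q - 3 = q - 2` points `C`, regular,
`¬ Col A C`, `¬ Col B C` (all points except `l ∩ a`, `l ∩ V A`, `l ∩ V B`). For each of them one of (a) `Fa A A' B C`, (b) `Fa B B' C x`,
(c) `pm A A' C ∉ lam l` holds: let `C' = pm A A' C` and suppose that none holds. As (a) fails, `Per a B C B' C'`, so `Tr B B' C C'` and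
`pm B B' C = C'` by uniqueness. As (b) fails (`¬ Col C x`, since `C ≠ x` are on `l ∌ V`), `Per a C x C' (φ x)`: the point of `Per` is
on `a` and on `C x = l`, so it is `X = l ∩ a`, and `C', φ x, X` are on a line `m`. As (c) fails, `C' ∈ lam l`, also `X ∈ lam l` and
`C' ≠ X`, so `m = lam l` and `φ x ∈ lam l`, contradiction. Count the triples `(x, l, C)`: (a) `x` is one of at most `q` regular points of `V A`,
`C` one of `gg A A' B` points, `l = x C`: at most `q gg A A' B`; (b) at most `uu B B'` (`l = C x`); (c) at most `b` (`x = l ∩ V A`). So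
`(q - 2) G_A ≤ q gg A A' B + uu B B' + b =: X + b`, `F ≤ b + G_A`,
`(q - 2) (q - 1) F ≤ (q - 2) (q - 1) b + (q - 1) X + (q - 1) b ≤ (q - 2) U + (q - 1) X + U = (q - 1) (U + X)`; divide by `q - 1`.
If `A ∈ l` (`V ∉ l`), then `φ x ∈ lam l` for all `x ∈ l`: by LAM (iv) for `x` regular with `¬ Col A x`; `x = A` is the only point of `l`
on `V A`, `φ A = A' ∈ lam l`; `x ∈ a`: LAM (iii). If `V ∈ l`: `φ x ∈ l = lam l`. -/
def SpecFLG : Prop :=
  ∀ (P L : Type u) [Fintype P] [Fintype L] (I : P → L → Prop) (q : ℕ), Pln I q → 3 ≤ q →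
    ∀ (V : P) (a : L) (A A' B : P), Reg I V a A → Reg I V a A' → Col I V A A' → Reg I V a B →
    ¬ Col I V A B →
    ∃ (φ : P ≃ P) (lam : L → L), (∀ l, I V l → lam l = l ∧ ∀ x, I x l → I (φ x) l) ∧
      (lam a = a ∧ ∀ x, I x a → φ x = x) ∧
      (∀ l, ¬ I V l → l ≠ a → lam l ≠ a ∧ ∀ X, I X a → I X l → I X (lam l)) ∧
      (φ A = A' ∧ ∀ l, I A l → ∀ x, I x l → I (φ x) (lam l)) ∧
      (q - 2) * FF I (fun x m => I (φ x) m) lam ≤
        uu I V a A A' + (q * gg I V a A A' B + uu I V a B (pm I V a A A' B))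

/-- COL (deps CNT, BP). A near collineation of this shape gives a `(V, a)`-collineation.

Proof. `J x m = I (φ x) m` is a plane (`Pln.comp`). BP gives `g`, `τ`; `ψ x = φ (g x)`, so `I x l ↔ I (ψ x) (τ l)`. For `l ∋ V` and for
`l = a` we have `d(l) = 0`, so `l` is not bad and `τ l = lam l = l`. `ψ V` is on `τ l = l` for the (at least two) lines `l` through `V`, so
`ψ V = V`. For the lines `l` through `A` `d(l) = 0`, so they are not bad, and `φ A ∈ lam l`; so `δ(A) = 0`, `A` is not a bad point, `g A = A`,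
`ψ A = φ A = A'`. Let `X ∈ a`, `X ≠ V`. By CNT `Q #badL ≤ 4 F ≤ 4 n / 32 ≤ Q ^ 2 / 8`, so `#badL ≤ Q / 8 < Q - 2` (`Q ≥ 4`), and there is a
line `l` through `X`, `l ≠ a`, `V ∉ l`, `l` not bad. `τ l = lam l` contains `X` and `ψ X`, `τ a = a` contains `X` and `ψ X`, and
`lam l ≠ a`. So `ψ X = X`. -/
def SpecCOL : Prop :=
  ∀ (P L : Type u) [Fintype P] [Fintype L] (I : P → L → Prop) (q : ℕ), Pln I q → 3 ≤ q →
    ∀ (V : P) (a : L) (A A' : P) (φ : P ≃ P) (lam : L → L),
    (∀ l, I V l → lam l = l ∧ ∀ x, I x l → I (φ x) l) →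
    (lam a = a ∧ ∀ x, I x a → φ x = x) →
    (∀ l, ¬ I V l → l ≠ a → lam l ≠ a ∧ ∀ X, I X a → I X l → I X (lam l)) →
    (φ A = A' ∧ ∀ l, I A l → ∀ x, I x l → I (φ x) (lam l)) →
    32 * FF I (fun x m => I (φ x) m) lam ≤ q ^ 2 + q + 1 →
    ∃ (ψ : P ≃ P) (τ : L ≃ L), Cen I V a ψ τ ∧ ψ A = A'

/-- TRN (deps FIB). More than half of a fibre gives everything.

Proof. (1) If `Cen I V a ψ τ` and `ψ A₁ = A₁` for a regular `A₁`, then `ψ` is the identity. Note `ψ V = V` (it is on all
lines through `V`). Let `x` be regular, `¬ Col A₁ x`. `X = A₁ x ∩ a` is fixed, `A₁ ≠ X` are on `l = A₁ x` and on `τ l`, so `τ l = l`; the line `V x` is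
fixed; `ψ x` is on `l` and on `V x`, two different lines through `x` (`¬ Col A₁ x`), so `ψ x = x`. If `x` is regular and `Col A₁ x`, take a regular `y`
with `¬ Col A₁ y` (FIB: there are `q (q - 1) > 0`); `y` is fixed and `¬ Col y x`, so `x` is fixed. (2) If `Cen` holds for `(ψ, τ)` and `(ψ', τ')` it
holds for the composition and the inverse. `ψ` maps the fibre of a regular point into itself (`ψ x` is on the line `V x`, `≠ V`, and not on `a`: if
`ψ x ∈ a` then `ψ (ψ x) = ψ x`, so `ψ x = x`, `x ∈ a`). (3) For `A' ∈ S` choose `ψ_{A'}`. For a regular `A₁` the points `ψ_{A'} A₁`, `A' ∈ S`, are distinct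
(if `ψ_{A'} A₁ = ψ_{A''} A₁` then `ψ_{A''}⁻¹ ψ_{A'}` fixes `A₁`, so it is the identity and `A' = ψ_{A'} A = ψ_{A''} A = A''`) and in the fibre of `A₁`. All
fibres have the same size `h < 2 #S` (FIB). If `A₁`, `A₂` are in the same fibre, the sets `{ψ_{A'} A₁}` and `{ψ_{A'} A₂}` have more than `h / 2` elements
each in a set of `h` elements, so `ψ_{A'} A₁ = ψ_{A''} A₂` for some `A', A'' ∈ S`, and `ψ_{A''}⁻¹ ψ_{A'}` maps `A₁` to `A₂`. -/
def SpecTRN : Prop :=
  ∀ (P L : Type u) [Fintype P] [Fintype L] (I : P → L → Prop) (q : ℕ), Pln I q →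
    ∀ (V : P) (a : L) (A : P) (S : Finset P), Reg I V a A →
    #{x : P | Reg I V a x ∧ Col I V A x} < 2 * #S →
    (∀ A' ∈ S, Reg I V a A' ∧ Col I V A A' ∧ ∃ (ψ : P ≃ P) (τ : L ≃ L), Cen I V a ψ τ ∧ ψ A = A') →
    ∀ A₁ A₂ : P, Reg I V a A₁ → Reg I V a A₂ → Col I V A₁ A₂ →
      ∃ (ψ : P ≃ P) (τ : L ≃ L), Cen I V a ψ τ ∧ ψ A₁ = A₂

/-- DG (deps AVG, FLG, COL, TRN). THEOREM (Desargues gap).

Proof. Take `A`, `S` of AVG. Let `A' ∈ S` and take its `B`. With `D = DQ`, `U = uu A A'`, `X = q gg A A' B + uu B (pm A A' B)`: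
`U ≤ 4 D / ((q ^ 2 - 1) (q - 1))`, `X ≤ 4 D (q ^ 2 + q - 1) / (q (q - 1) (q ^ 2 - 1) (q - 1))`, so
`q (q - 1) ^ 2 (q ^ 2 - 1) (U + X) ≤ 4 D (q (q - 1) + q ^ 2 + q - 1) = 4 D (2 q ^ 2 - 1)`. FLG: `(q - 2) F ≤ U + X`. So
`32 q (q - 1) ^ 2 (q ^ 2 - 1) (q - 2) F ≤ 128 D (2 q ^ 2 - 1) ≤ (128 / 2000) q ^ 6 (2 q ^ 2 - 1)`, and for `q ≥ 3`
`128 q ^ 5 (2 q ^ 2 - 1) ≤ 2000 (q - 1) ^ 2 (q ^ 2 - 1) (q - 2) (q ^ 2 + q + 1)` (substitute `q = t + 3`: all coefficients of the
difference are positive), so `32 F ≤ q ^ 2 + q + 1`. COL gives the `(V, a)`-collineation with `A ↦ A'`. TRN. -/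
def SpecDG : Prop :=
  ∀ (P L : Type u) [Fintype P] [Fintype L] (I : P → L → Prop) (q : ℕ), Pln I q → 3 ≤ q →
    ∀ (V : P) (a : L), 2000 * DQ I V a ≤ q ^ 6 →
    ∀ A₁ A₂ : P, Reg I V a A₁ → Reg I V a A₂ → Col I V A₁ A₂ →
      ∃ (ψ : P ≃ P) (τ : L ≃ L), Cen I V a ψ τ ∧ ψ A₁ = A₂

end Pool.Agent.Lib.MP595dad.NR
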